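import Mathlib

set_option autoImplicit false

/-!
# Project O (helper477): zeros of one derivative of a completed L-function and the Lindelöf bound, uniformly in the conductor

Goal (MP_77948b_nt, the Grand Riemann Hypothesis for automorphic L-functions, very famous): let `X(s) = N^(s/2) Λ(s)` be a completed standard L-function of `GL(m)`, `C(y)` its analytic conductor
at height `y`. If for one fixed `k` all zeros of `X^{(k)}` with `|Im s - y| ≤ B log C(y)` are on the critical line, then `|L(1/2+iy)| ≤ C(y)^ε` and the zeros of `Λ` at height `y` satisfy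
`|Re s - 1/2| < ε`. All statements here need Mathlib only. Deliver each as `theorem X_proof : S_X` (or with the listed hypotheses), own file `Pool/Agent/H<your number>/O/<Name>.lean`,
`import Pool.Agent.H477.O.Stm`.
-/

open Complex Filter Topology Metric Set MeasureTheory
open scoped ComplexConjugate

namespace Pool.Agent.H477.O

noncomputable section

/-- the point `1/2 + u + i (y + v)` -/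
def pt (y u v : ℝ) : ℂ := 1 / 2 + u + (y + v : ℝ) * Complex.I

@[simp] lemma pt_re (y u v : ℝ) : (pt y u v).re = 1 / 2 + u := by simp [pt]

@[simp] lemma pt_im (y u v : ℝ) : (pt y u v).im = y + v := by simp [pt]

lemma pt_eq (y : ℝ) (z : ℂ) : z = pt y (z.re - 1 / 2) (z.im - y) := by
  apply Complex.ext <;> simp

/-- local data of a completed L-function `X` near the height `y`; `ℓ` is half the logarithm of the conductor -/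
structure OB (X : ℂ → ℂ) (a K M ℓ y : ℝ) : Prop where
  diff : Differentiable ℂ X
  fe : ∃ ε : ℂ, ‖ε‖ = 1 ∧ ∀ s, X s = ε * conj (X (1 - conj s))
  ha : 0 < a
  hK : 1 ≤ K
  hM : 0 < M
  up : ∀ u v : ℝ, ‖X (pt y u v)‖ ≤ M * Real.exp (ℓ * max |u| a + K * (1 + u ^ 2 + v ^ 2))
  lo : ∀ u v : ℝ, a ≤ u → M * Real.exp (ℓ * u - K * (1 + u ^ 2 + v ^ 2)) ≤ ‖X (pt y u v)‖
  lg : ∀ z : ℂ, 1 / 2 + a ≤ z.re → ‖logDeriv X z - ℓ‖ ≤ K * (1 + |z.re| + |z.im - y|)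

/-- `f` has no zeros in the box `1/2 + b < Re z ≤ 1/2 + R`, `|Im z - y| ≤ R` -/
def ZF (f : ℂ → ℂ) (b R y : ℝ) : Prop := ∀ z : ℂ, 1 / 2 + b < z.re → z.re ≤ 1 / 2 + R → |z.im - y| ≤ R → f z ≠ 0

/-- `f` is nearly `M e^{ℓ (z - 1/2)}` in the box `1/2 + b ≤ Re z ≤ 1/2 + R`, `|Im z - y| ≤ 1` -/
def FL (f : ℂ → ℂ) (M ℓ b R e y : ℝ) : Prop := ∀ z : ℂ, 1 / 2 + b ≤ z.re → z.re ≤ 1 / 2 + R → |z.im - y| ≤ 1 →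
  f z ≠ 0 ∧ ‖logDeriv f z - ℓ‖ ≤ e * ℓ ∧ M * Real.exp (ℓ * (z.re - 1 / 2 - e)) ≤ ‖f z‖ ∧ ‖f z‖ ≤ M * Real.exp (ℓ * (z.re - 1 / 2 + e))

/-- a function with local data at all heights; `M` decays in the direction `σ` from all heights `y` with `σ (y - y₀) ≥ -S` -/
structure Fam (X : ℂ → ℂ) (a K S c D σ : ℝ) (Mf lf : ℝ → ℝ) (y₀ : ℝ) : Prop where
  base : ∀ y : ℝ, OB X a K (Mf y) (lf y) y
  sg : σ = 1 ∨ σ = -1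
  hc : 0 < c
  hD : 1 ≤ D
  dec : ∀ y τ : ℝ, -S ≤ σ * (y - y₀) → 0 ≤ τ → Mf (y + σ * τ) ≤ D * Mf y * Real.exp (-(c * τ))
  lip : ∀ y y' : ℝ, lf y' ≤ lf y + D * Real.log (1 + |y' - y|)

/-- known (`Pool.Agent.H487.NZ.flat_log`): the logarithmic derivative of a zero free function -/
def S_FLATLOG : Prop := ∀ R δ K ε : ℝ, 0 < δ → 1 + δ ≤ R → 1 ≤ K → 0 < ε →
    ∃ L₀ : ℝ, 1 ≤ L₀ ∧ ∀ ℓ : ℝ, L₀ ≤ ℓ → ∀ (h : ℂ → ℂ) (c : ℂ),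
      AnalyticOnNhd ℂ h (closedBall c R) → (∀ z ∈ closedBall c R, h z ≠ 0) →
      (∀ z ∈ closedBall c R, ‖h z‖ ≤ Real.exp (K * ℓ) * ‖h c‖) →
      (∀ z ∈ closedBall c 1, ‖logDeriv h z‖ ≤ K) → ∀ z ∈ closedBall c (R - δ), ‖logDeriv h z‖ ≤ ε * ℓ

/-- known (`Pool.Agent.H487.NZ.strip_max`): maximum principle in a narrow strip -/
def S_STRIP : Prop := ∀ (F : ℂ → ℂ), Differentiable ℂ F → ∀ y β A c D ℓ P : ℝ, 0 < β → 0 < A → 0 ≤ c →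
    0 ≤ ℓ → 0 ≤ P → D ≤ c * A ^ 2 →
    (∀ v : ℝ, |v| ≤ 2 * A → ‖F (pt y β v)‖ ≤ P ∧ ‖F (pt y (-β) v)‖ ≤ P) →
    (∀ u v : ℝ, |u| ≤ β → |v| ≤ 2 * A → ‖F (pt y u v)‖ ≤ P * Real.exp (D * ℓ)) → ∀ u₀ v₀ : ℝ, |u₀| ≤ β →
    |v₀| ≤ A → ‖F (pt y u₀ v₀)‖ ≤ P * Real.exp (4 * c * β ^ 2 * ℓ)

/-- **S_OFAR.** Far to the right the derivatives of `X` are as expected. No hypotheses.

Proof. Induction on `j`, for all `A`, `R` (if `R < a + j` there is nothing to prove). `j = 0`: `OB.lo`, `OB.up` (`u ≥ a > 0`, so `max |u| a = u`), `OB.lg`, `z = pt y (z.re - 1/2) (z.im - y)` (`pt_eq`), `X z ≠ 0` from `lo`; `K'` = `|K| (2 + R² + A² + |R| + |A|) + 1`-ish.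
Step: let `K1, ℓ1` belong to `j`, `A + 1`, `R + 1`. `f = X^{(j)}`, `g = logDeriv f`. For `z` in the region of `j + 1` the closed unit ball about `z` is in the region of `j` (with `A + 1`, `R + 1`), so `f ≠ 0`, `g` is analytic there and
`|g - ℓ| ≤ K1`; Cauchy (`Complex.norm_deriv_le_of_forall_mem_sphere_norm_le` for `g - ℓ`): `|g'(z)| ≤ K1`. `X^{(j+1)} = f' = f g` (`iteratedDeriv_succ`) near `z`, so `logDeriv X^{(j+1)} = g + g'/g` at `z`. If `ℓ ≥ 2 K1 + 2`: `ℓ/2 ≤ |g z| ≤ 2ℓ`, so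
`|logDeriv X^{(j+1)} z - ℓ| ≤ K1 + 2 K1/ℓ ≤ 2 K1`, `|X^{(j+1)} z| ≥ |f z| ℓ/2 ≥ |f z|`, `≤ 2ℓ |f z|`. -/
def S_OFAR : Prop := ∀ (a K : ℝ) (j : ℕ) (A R : ℝ), ∃ K' ℓ₀ : ℝ, 1 ≤ K' ∧ 1 ≤ ℓ₀ ∧ ∀ (X : ℂ → ℂ) (M ℓ y : ℝ), OB X a K M ℓ y → ℓ₀ ≤ ℓ →
  ∀ z : ℂ, 1 / 2 + a + j ≤ z.re → z.re ≤ 1 / 2 + R → |z.im - y| ≤ A →
  iteratedDeriv j X z ≠ 0 ∧ ‖logDeriv (iteratedDeriv j X) z - ℓ‖ ≤ K' ∧
    M * Real.exp (ℓ * (z.re - 1 / 2) - K') ≤ ‖iteratedDeriv j X z‖ ∧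
    ‖iteratedDeriv j X z‖ ≤ M * (2 * ℓ) ^ j * Real.exp (ℓ * (z.re - 1 / 2) + K')

/-- **S_OCR.** Crude bound. No hypotheses.

Proof. Cauchy's estimate on the unit circle (`Complex.norm_iteratedDeriv_le_of_forall_mem_sphere_norm_le`, radius 1) and `OB.up`: `≤ j! M exp(ℓ max(|R|+1, a) + |K| (1 + (|R|+1)² + (|A|+1)²))`, and `j! ≤ e^{j!}`, `1 ≤ ℓ`. -/
def S_OCR : Prop := ∀ (a K : ℝ) (j : ℕ) (A R : ℝ), ∃ K' : ℝ, 1 ≤ K' ∧ ∀ (X : ℂ → ℂ) (M ℓ y : ℝ), OB X a K M ℓ y → 1 ≤ ℓ →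
  ∀ z : ℂ, |z.re - 1 / 2| ≤ R → |z.im - y| ≤ A → ‖iteratedDeriv j X z‖ ≤ M * Real.exp (K' * ℓ)

/-- **S_OLOG.** Flatness of the logarithmic derivative. From `S_FLATLOG`, `S_OFAR`, `S_OCR`. (Model: `theorem x3` in `Pool/Agent/H487/NZ/XFlat.lean`.)

Proof. *Case 1*: `Re z ≥ 1/2 + a + j`: `S_OFAR` with `A = 1`, `ℓ ≥ K'/e`. *Case 2*: `Re z < 1/2 + a + j`. Let `R1 = a + j + 3`, `c = 1/2 + b + δ/2 + R1 + i Im z`, `h(w) = X^{(j)}(w) exp(-ℓ w)`. In `closedBall c R1`: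
`1/2 + b + δ/2 ≤ Re w ≤ 1/2 + b + δ/2 + 2 R1 ≤ 1/2 + R`, `|Im w - y| ≤ 1 + R1 ≤ R`, so `h ≠ 0` by `ZF`. In `closedBall c 1`: `Re w ≥ 1/2 + a + j`, so `logDeriv h = logDeriv X^{(j)} - ℓ` is bounded by `K'` (`S_OFAR` with `A = R`). By `S_OCR` (with `R`, `A := R`) and the
lower bound of `S_OFAR` at `c`: `|h w| ≤ exp(K5 ℓ) |h c|` on `closedBall c R1` (`|exp(-ℓ w)| = exp(-ℓ Re w)`, all `Re w` between `0` and `1/2 + R`). `S_FLATLOG` with `R := R1`, `δ := δ/2`, `ε := e` gives `|logDeriv h z| ≤ e ℓ`, as `|z - c| = Re c - Re z ≤ R1 - δ/2`. -/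
def S_OLOG : Prop := ∀ (a K : ℝ) (j : ℕ) (R δ e : ℝ), 0 < δ → δ ≤ 1 → 0 < e → 3 * (a + j + 4) ≤ R →
  ∃ ℓ₀ : ℝ, 1 ≤ ℓ₀ ∧ ∀ (X : ℂ → ℂ) (M ℓ y : ℝ), OB X a K M ℓ y → ℓ₀ ≤ ℓ → ∀ b : ℝ, 0 ≤ b → b ≤ a →
  ZF (iteratedDeriv j X) b R y → ∀ z : ℂ, 1 / 2 + b + δ ≤ z.re → z.re ≤ 1 / 2 + R → |z.im - y| ≤ 1 →
  iteratedDeriv j X z ≠ 0 ∧ ‖logDeriv (iteratedDeriv j X) z - ℓ‖ ≤ e * ℓ

/-- **S_OFLAT.** Size of the derivatives. From `S_OLOG`, `S_OFAR`.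

Proof. `S_OLOG` with `e' = e / (4 (a + j + 3))` (and `≤ e`). If `Re z ≥ 1/2 + a + j`: `S_OFAR` (`A = 1`) for the sizes, `(2ℓ)^j exp(K') ≤ exp(e ℓ)` for `ℓ` large. If `Re z < 1/2 + a + j`: let `z1 = 1/2 + a + j + i Im z`, `h(w) = X^{(j)}(w) exp(-ℓ w)`; on the segment from `z` to `z1`
`|logDeriv h| ≤ e' ℓ`, so `|log |h z| - log |h z1|| ≤ e' ℓ (a + j)` (e.g. `h` satisfies `h' = (logDeriv h) h`; Grönwall or `Complex.exp` of an integral; compare `good_of` in `Pool/Agent/H487/NZ/XFlat.lean`), and `S_OFAR` at `z1`. -/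
def S_OFLAT : Prop := ∀ (a K : ℝ) (j : ℕ) (R δ e : ℝ), 0 < δ → δ ≤ 1 → 0 < e → 3 * (a + j + 4) ≤ R →
  ∃ ℓ₀ : ℝ, 1 ≤ ℓ₀ ∧ ∀ (X : ℂ → ℂ) (M ℓ y : ℝ), OB X a K M ℓ y → ℓ₀ ≤ ℓ → ∀ b : ℝ, 0 ≤ b → b ≤ a →
  ZF (iteratedDeriv j X) b R y → FL (iteratedDeriv j X) M ℓ (b + δ) R e y

/-- **S_OINT.** One integration over a vertical segment of length `B ℓ`. From `S_OCR`.

Proof. `K'` from `S_OCR` (for `j`, `A = 0`, `R`); `B = (2 K' + 2)/c`. `L = lf y`. For `0 ≤ τ ≤ B L`: `lf(y + στ) ≤ L + D log(1 + B L) ≤ L + (e/4) L / (R + e + 1)` and `≤ 2L` for `L ≥ ℓ₀` (`|σ| = 1`), also `lf (y+στ) ≥ 1` (`Fam.lip` the other way: `L ≤ lf(y+στ) + D log(1+BL)`).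
`f(τ) = X^{(j)}(pt (y+στ) u 0)` has the derivative `i σ X^{(j+1)}(pt (y+στ) u 0)`, so `f(0) = f(BL) - ∫_0^{BL} f'` (`intervalIntegral.integral_eq_sub_of_hasDerivAt`). By `S_OCR` at the height `y + σBL` and `Fam.dec`: `|f(BL)| ≤ D (Mf y) e^{-cBL} e^{2K'L} = D (Mf y) e^{-2L} ≤ (Mf y)/2`.
`|∫| ≤ ∫_0^∞ D (Mf y) e^{-cτ} exp(L (u+e) + (e/4) L) dτ ≤ (D/c) (Mf y) exp(L (u + 5e/4)) ≤ (Mf y)/2 · exp(L (u+2e))` for `L` large (`2D/c ≤ e^{3eL/4}`). -/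
def S_OINT : Prop := ∀ (a K c D R e : ℝ) (j : ℕ), 0 < c → 1 ≤ D → 0 ≤ R → 0 < e → ∃ B ℓ₀ : ℝ, 1 ≤ B ∧ 1 ≤ ℓ₀ ∧
  ∀ (X : ℂ → ℂ) (S σ : ℝ) (Mf lf : ℝ → ℝ) (y₀ : ℝ), Fam X a K S c D σ Mf lf y₀ → ∀ y : ℝ, -S ≤ σ * (y - y₀) → ℓ₀ ≤ lf y →
  ∀ u : ℝ, 0 ≤ u → u ≤ R →
  (∀ τ : ℝ, 0 ≤ τ → τ ≤ B * lf y → ‖iteratedDeriv (j + 1) X (pt (y + σ * τ) u 0)‖ ≤
    Mf (y + σ * τ) * Real.exp (lf (y + σ * τ) * (u + e))) →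
  ‖iteratedDeriv j X (pt y u 0)‖ ≤ Mf y * Real.exp (lf y * (u + 2 * e))

/-- **S_ONZ.** A primitive of a nearly exponential function does not vanish. No hypotheses.

Proof. For `0 ≤ r ≤ δ`: `deriv G (z - r) = deriv G z · exp(-ℓ r - E(r))`, `E(r) = ∫_0^r (logDeriv (deriv G) (z - x) - ℓ) dx`, `|E(r)| ≤ ℓ r/8` (both sides satisfy the same linear ODE in `r`). `G z - G (z - δ) = ∫_0^δ deriv G (z - r) dr = deriv G z · ∫_0^δ e^{-ℓ r - E(r)} dr`, and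
`|∫_0^δ e^{-ℓr} (e^{-E(r)} - 1) dr| ≤ ∫_0^∞ e^{-ℓr} (e^{ℓr/8} - 1) dr = (8/7 - 1)/ℓ` (`|e^w - 1| ≤ e^{|w|} - 1`), `∫_0^δ e^{-ℓr} dr = (1 - e^{-ℓδ})/ℓ ≥ 1/(2ℓ)`. So `|G z - G (z - δ)| ≥ |deriv G z| (1/2 - 1/7)/ℓ ≥ M e^{ℓ(u - δ/4)}/(4ℓ) > M e^{ℓ(u - 3δ/4)} ≥ |G (z - δ)|` for `ℓ ≥ ℓ₀(δ)`. -/
def S_ONZ : Prop := ∀ δ : ℝ, 0 < δ → δ ≤ 1 → ∃ ℓ₀ : ℝ, 1 ≤ ℓ₀ ∧ ∀ (G : ℂ → ℂ) (M ℓ u : ℝ) (z : ℂ), Differentiable ℂ G → 0 < M → ℓ₀ ≤ ℓ →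
  (∀ r : ℝ, 0 ≤ r → r ≤ δ → deriv G (z - r) ≠ 0 ∧ ‖logDeriv (deriv G) (z - r) - ℓ‖ ≤ ℓ / 8) →
  M * Real.exp (ℓ * (u - δ / 4)) ≤ ‖deriv G z‖ → ‖G (z - δ)‖ ≤ M * Real.exp (ℓ * (u - δ + δ / 4)) → G z ≠ 0

/-- **S_OCMP.** Comparison of the normalizations at near heights. No hypotheses.

Proof. `pt y' a 0 = pt y a (y' - y)`. `OB.lo` at `y'` and `OB.up` at `y`: `Mf y' exp(a lf y' - K (1 + a²)) ≤ |X (pt y' a 0)| ≤ Mf y exp(a lf y + K (1 + a² + S²))`, and `lf y ≤ lf y' + D log(1+S)` (`Fam.lip`). `E = exp(a D log(1+S) + K (2 + 2a² + S²))` (use `|a|`, `|K|`; `a > 0`, `K ≥ 1` come from `OB`). -/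
def S_OCMP : Prop := ∀ a K D S : ℝ, 1 ≤ D → 0 ≤ S → ∃ E : ℝ, 1 ≤ E ∧ ∀ (X : ℂ → ℂ) (S' c σ : ℝ) (Mf lf : ℝ → ℝ) (y₀ : ℝ),
  Fam X a K S' c D σ Mf lf y₀ → ∀ y y' : ℝ, |y' - y| ≤ S → Mf y' ≤ E * Mf y

/-- **S_OLINE.** From the lines at distance `δ` to the critical line. From `S_STRIP`, `S_OCMP`.

Proof. `a1 = max 1 a`, `A = a1 + 1` (so `a1 + 1 ≤ A²`), `S = 2A`, `ℓ = lf y₀`, `P = Mf y₀ exp(ℓ (δ + 2e))`. Sides: for `|v| ≤ 2A`: `pt y₀ δ v = pt (y₀+v) δ 0`, so `|X| ≤ Mf(y₀+v) exp(lf(y₀+v) (δ+e)) ≤ E Mf y₀ exp((ℓ + D log(1+S)) (δ+e)) ≤ P` for `ℓ` large (`lf (y₀+v) (δ+e) ≤ ...` as `δ + e > 0`);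
`|X(pt y₀ (-δ) v)| = |X(pt y₀ δ v)|` by `OB.fe` (`1 - conj (pt y (-δ) v) = pt y δ v`). Inside (`|u| ≤ δ ≤ 1`): `OB.up`: `|X| ≤ Mf y₀ exp(ℓ a1 + K (2 + 4A²)) ≤ P exp((a1+1) ℓ)` for `ℓ ≥ K (2 + 4A²)`. `S_STRIP` with `β = δ`, `c = 1`, `D = a1 + 1`, `u₀ = v₀ = 0`:
`|X(pt y₀ 0 0)| ≤ P exp(4δ² ℓ) ≤ Mf y₀ exp(ℓ (5δ + 2e))`. -/
def S_OLINE : Prop := ∀ a K e δ : ℝ, 0 < e → 0 < δ → δ ≤ 1 → ∃ S : ℝ, 0 < S ∧ ∀ D : ℝ, 1 ≤ D → ∃ ℓ₀ : ℝ, 1 ≤ ℓ₀ ∧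
  ∀ (X : ℂ → ℂ) (S' c σ : ℝ) (Mf lf : ℝ → ℝ) (y₀ : ℝ), Fam X a K S' c D σ Mf lf y₀ → ℓ₀ ≤ lf y₀ →
  (∀ y : ℝ, |y - y₀| ≤ S → ‖X (pt y δ 0)‖ ≤ Mf y * Real.exp (lf y * (δ + e))) →
  ‖X (pt y₀ 0 0)‖ ≤ Mf y₀ * Real.exp (lf y₀ * (5 * δ + 2 * e))

/-- **S_OMAIN.** (helper477) -/
def S_OMAIN : Prop := ∀ (a K : ℝ) (k : ℕ) (ε : ℝ), 1 ≤ a → 0 < ε → ∃ S : ℝ, 0 < S ∧ ∀ c D : ℝ, 0 < c → 1 ≤ D →
  ∃ B ℓ₀ : ℝ, 0 < B ∧ 1 ≤ ℓ₀ ∧ ∀ (X : ℂ → ℂ) (σ : ℝ) (Mf lf : ℝ → ℝ) (y₀ : ℝ), Fam X a K S c D σ Mf lf y₀ → ℓ₀ ≤ lf y₀ →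
  (∀ z : ℂ, iteratedDeriv k X z = 0 → |z.im - y₀| ≤ B * lf y₀ → z.re = 1 / 2) →
  ‖X (pt y₀ 0 0)‖ ≤ Mf y₀ * Real.exp (ε * lf y₀) ∧ ∀ z : ℂ, z.im = y₀ → X z = 0 → |z.re - 1 / 2| < ε

/-- **S_GAM1.** Decay of one gamma factor on vertical lines, away from the real axis. May use the library module `Pool.Graph.R_seed8.H353R6.E10` (`team-store fetch /workdir/pool Pool/Graph/R_seed8/H353R6/E10.lean`; it gets what it needs): `H370.DG.logDeriv_Gamma`: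
`logDeriv Gamma s = -(1/s) - 1/(s+1) + ∑' n, gd n s`, `gd n s = log((n+2)/(n+1)) - 1/(s + (n+2))` (`H370R2/Digamma.lean`, also `summable_gd`); `dig_im : 1/4 ≤ s.re → |(logDeriv Gamma s).im| ≤ 11` (`E9.lean`); `hasDerivAt_GammaR` (`E10.lean`, with `μ = 0`).

Proof. (i) For `s = x' + iY'`, `x' > 0`: `Im (logDeriv Gamma s) = Y'/|s|² + Y'/|s+1|² + ∑_n Y'/|s+n+2|²` (imaginary part of the series, real numbers have none). If `σ Y' ≥ x'`, `σ Y' ≥ 1`, all terms times `σ` are positive, and those with `n ≤ |Y'|` have `|s+n|² ≤ (x'+n)² + Y'² ≤ 5 Y'²`, there are at least `|Y'|` of them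
(at least the finite set `n < ⌊|Y'|⌋ + 1`): `σ Im (logDeriv Gamma s) ≥ 1/5`. (ii) `g(τ) = log ‖Gammaℝ (x + i(Y+στ))‖` has the derivative `Re(iσ (−(log π)/2 + logDeriv Gamma((x + i(Y+στ))/2)/2)) = -σ/2 · Im logDeriv Gamma(...)`, which is `≤ 11/2` always and `≤ -1/10` if `σ(Y+στ) ≥ x`, `≥ 2`, i.e. for
`τ ≥ τ1 := S + 5/2 + R₀` (`Gammaℝ` has no zeros for `Re > 0`). (iii) So `g(τ) - g(0) ≤ 6 τ1 - (τ - τ1)/10` for `τ ≥ τ1` and `≤ 6 τ1` for `τ ≤ τ1`: `c = 1/10`, `D = exp(7 τ1)`. -/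
def S_GAM1 : Prop := ∀ R₀ S : ℝ, 0 ≤ R₀ → 0 ≤ S → ∃ c D : ℝ, 0 < c ∧ 1 ≤ D ∧ ∀ x Y τ σ : ℝ, 2 ≤ x → x ≤ 5 / 2 + R₀ → (σ = 1 ∨ σ = -1) →
  -S ≤ σ * Y → 0 ≤ τ → ‖Gammaℝ (x + (Y + σ * τ : ℝ) * I)‖ ≤ D * ‖Gammaℝ (x + (Y : ℝ) * I)‖ * Real.exp (-(c * τ))

end

end Pool.Agent.H477.O
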