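import Pool.Agent.H477.O.Main
import Pool.Agent.H727.O.OFar
import Pool.Agent.H975.O.Ocr
import Pool.Agent.H120.O.OLOG
import Pool.Agent.H585.O.OFlat
import Pool.Agent.H976.O.OInt
import Pool.Agent.H195.O.ONZ
import Pool.Agent.H142.O.OCMP
import Pool.Agent.H115.O.OLINE
import Pool.Agent.H627.O.Gam1
import Pool.Agent.H487.NZ.Circ
import Pool.Agent.H487.NZ.Cont
import Pool.Agent.H487.EL.Gam

set_option autoImplicit false

/-!
# Project O: standard L-functions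
-/

open Complex Filter Topology Metric Set MeasureTheory
open scoped ComplexConjugate

namespace Pool.Agent.H477.O

open Pool.Agent.H487 H353.E H353.F

theorem q_flatlog : S_FLATLOG := fun _ _ _ _ h1 h2 h3 h4 => NZ.flat_log h1 h2 h3 h4

theorem q_strip : S_STRIP := fun _ hF _ _ _ _ _ _ _ h1 h2 h3 h4 h5 h6 h7 h8 _ _ h9 h10 =>
  NZ.strip_max hF h1 h2 h3 h4 h5 h6 h7 h8 h9 h10

theorem q_ofar : S_OFAR := Pool.Agent.H727.O.OFAR_proof
theorem q_ocr : S_OCR := Pool.Agent.H975.O.ocr_proof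
theorem q_olog : S_OLOG := Pool.Agent.H120.OLOG.OLOG_proof q_flatlog q_ofar q_ocr
theorem q_oflat : S_OFLAT := Pool.Agent.H585.O.t_OFLAT q_olog q_ofar
theorem q_oint : S_OINT := Pool.Agent.H976.O.oint q_ocr
theorem q_onz : S_ONZ := Pool.Agent.H195.O.ONZ_proof
theorem q_ocmp : S_OCMP := OCMP_proof
theorem q_oline : S_OLINE := Pool.Agent.H115.O.OLINE q_strip q_ocmp
theorem q_omain : S_OMAIN := omain q_oflat q_oint q_onz q_oline

lemma ob_of {X : ℂ → ℂ} {a K M ℓ y : ℝ} (B : NZ.Base X a K M ℓ y) : OB X a K M ℓ y :=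
  ⟨B.diff, B.fe, B.ha, B.hK, B.hM, B.up, B.lo, B.lg⟩

/-- slow variation of the conductor -/
lemma cond_lip {m : ℕ} {N : ℝ} (hN : 1 ≤ N) (μ : Fin m → ℂ) (y w : ℝ) :
    Real.log (NB.cond N μ w) ≤ Real.log (NB.cond N μ y) + m * Real.log (1 + |w - y|) := by
  have hN0 : 0 < N := by linarith
  have hp : ∀ (x : ℝ) (j : Fin m), 0 < 1 + ‖(x : ℂ) * I - μ j‖ := fun x j => by positivity
  have hpp : ∀ x : ℝ, 0 < ∏ j, (1 + ‖(x : ℂ) * I - μ j‖) := fun x => Finset.prod_pos fun j _ => hp x j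
  have e1 : ∀ x : ℝ, Real.log (NB.cond N μ x) = Real.log N + ∑ j, Real.log (1 + ‖(x : ℂ) * I - μ j‖) := fun x => by
    unfold NB.cond
    rw [Real.log_mul hN0.ne' (hpp x).ne', Real.log_prod (fun j _ => (hp x j).ne')]
  have h1 : ∀ j : Fin m, Real.log (1 + ‖(w : ℂ) * I - μ j‖) ≤ Real.log (1 + ‖(y : ℂ) * I - μ j‖) + Real.log (1 + |w - y|) := by
    intro j
    have h0 : 0 < 1 + |w - y| := by positivity
    rw [← Real.log_mul (hp y j).ne' h0.ne']
    refine Real.log_le_log (hp w j) ?_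
    have h3 : ‖(w : ℂ) * I - μ j‖ ≤ ‖(y : ℂ) * I - μ j‖ + |w - y| := by
      have e : (w : ℂ) * I - μ j = ((y : ℂ) * I - μ j) + ((w - y : ℝ) : ℂ) * I := by push_cast; ring
      rw [e]
      refine (norm_add_le _ _).trans ?_
      rw [norm_mul, Complex.norm_real, Complex.norm_I, mul_one, Real.norm_eq_abs]
    have h5 := norm_nonneg ((y : ℂ) * I - μ j)
    have h6 := abs_nonneg (w - y)
    nlinarith
  rw [e1, e1]
  have h2 := Finset.sum_le_sum (s := (Finset.univ : Finset (Fin m))) fun j _ => h1 j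
  rw [Finset.sum_add_distrib, Finset.sum_const, Finset.card_univ, Fintype.card_fin, nsmul_eq_mul] at h2
  linarith

/-- decay of the normalization away from the archimedean parameters -/
lemma mb_dec (m : ℕ) (hm : 1 ≤ m) {R₀ S : ℝ} (hR : 0 ≤ R₀) (hS : 0 ≤ S) : ∃ c D : ℝ, 0 < c ∧ 1 ≤ D ∧
    ∀ (N : ℝ) (μ : Fin m → ℂ) (y₀ σ : ℝ), 1 ≤ N → (∀ j, (μ j).re ≤ 1 / 2) → (∀ j, -R₀ ≤ (μ j).re) → (σ = 1 ∨ σ = -1) →
      (∀ j, σ * (μ j).im ≤ σ * y₀) → ∀ y τ : ℝ, -S ≤ σ * (y - y₀) → 0 ≤ τ →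
      NZ.Mb N μ (y + σ * τ) ≤ D * NZ.Mb N μ y * Real.exp (-(c * τ)) := by
  obtain ⟨c, D₁, hc, hD₁, H⟩ := Pool.Agent.H627.O.gam1 R₀ S hR hS
  refine ⟨c, (D₁ * (1 + S)) ^ m, hc, one_le_pow₀ (one_le_mul_of_one_le_of_one_le hD₁ (by linarith)),
    fun N μ y₀ σ hN hμ hμ2 hσ hside y τ hy hτ => ?_⟩
  have hN0 : 0 < N := by linarith
  have hside' : ∀ j, -S ≤ σ * (y - (μ j).im) := fun j => by
    have := hside j
    have e : σ * (y - (μ j).im) = σ * (y - y₀) + (σ * y₀ - σ * (μ j).im) := by ring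
    rw [e]; linarith
  -- one gamma factor
  have hg : ∀ j, ‖Gammaℝ ((5 / 2 + ((y + σ * τ : ℝ) : ℂ) * I) - μ j)‖ ≤
      D₁ * ‖Gammaℝ ((5 / 2 + (y : ℂ) * I) - μ j)‖ * Real.exp (-(c * τ)) := by
    intro j
    have h1 := H (5 / 2 - (μ j).re) (y - (μ j).im) τ σ (by linarith [hμ j]) (by linarith [hμ2 j]) hσ (hside' j) hτ
    have e1 : (5 / 2 + ((y + σ * τ : ℝ) : ℂ) * I) - μ j = ((5 / 2 - (μ j).re : ℝ) : ℂ) + ((y - (μ j).im + σ * τ : ℝ) : ℂ) * I := by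
      apply Complex.ext <;> simp
      ring
    have e2 : (5 / 2 + (y : ℂ) * I) - μ j = ((5 / 2 - (μ j).re : ℝ) : ℂ) + ((y - (μ j).im : ℝ) : ℂ) * I := by
      apply Complex.ext <;> simp
    rw [e1, e2]
    exact h1
  have hgaf : ∀ x : ℝ, ‖gaf N μ (5 / 2 + x * I)‖ = N ^ ((5 : ℝ) / 4) * ∏ j, ‖Gammaℝ ((5 / 2 + (x : ℂ) * I) - μ j)‖ := by
    intro x
    unfold gaf
    rw [norm_mul, norm_prod, Complex.norm_cpow_eq_rpow_re_of_pos hN0]
    congr 2
    have : ((5 / 2 + (x : ℂ) * I) / 2).re = (5 / 2 + (x : ℂ) * I).re / 2 := by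
      rw [show (2 : ℂ) = ((2 : ℝ) : ℂ) by norm_num, Complex.div_ofReal_re]
    rw [this]
    simp
    norm_num
  have hprod : ∏ j, ‖Gammaℝ ((5 / 2 + ((y + σ * τ : ℝ) : ℂ) * I) - μ j)‖ ≤
      (D₁ ^ m * Real.exp (-(c * τ))) * ∏ j, ‖Gammaℝ ((5 / 2 + (y : ℂ) * I) - μ j)‖ := by
    have h1 := Finset.prod_le_prod (s := (Finset.univ : Finset (Fin m))) (fun j _ => norm_nonneg _) fun j _ => hg j
    refine h1.trans ?_
    rw [Finset.prod_mul_distrib, Finset.prod_mul_distrib, Finset.prod_const, Finset.prod_const, Finset.card_univ, Fintype.card_fin]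
    have h2 : Real.exp (-(c * τ)) ^ m ≤ Real.exp (-(c * τ)) := by
      have h3 : Real.exp (-(c * τ)) ≤ 1 := Real.exp_le_one_iff.2 (by have := mul_nonneg hc.le hτ; linarith)
      calc Real.exp (-(c * τ)) ^ m ≤ Real.exp (-(c * τ)) ^ 1 := pow_le_pow_of_le_one (Real.exp_pos _).le h3 hm
        _ = _ := pow_one _
    have h4 : 0 ≤ D₁ ^ m * ∏ j, ‖Gammaℝ ((5 / 2 + (y : ℂ) * I) - μ j)‖ :=
      mul_nonneg (by positivity) (Finset.prod_nonneg fun j _ => norm_nonneg _)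
    calc D₁ ^ m * (∏ j, ‖Gammaℝ ((5 / 2 + (y : ℂ) * I) - μ j)‖) * Real.exp (-(c * τ)) ^ m
        ≤ D₁ ^ m * (∏ j, ‖Gammaℝ ((5 / 2 + (y : ℂ) * I) - μ j)‖) * Real.exp (-(c * τ)) := mul_le_mul_of_nonneg_left h2 h4
      _ = _ := by ring
  -- the conductor
  have hC0 : ∀ x : ℝ, 0 < NB.cond N μ x := fun x => by linarith [NB.cond_one hN μ x]
  have hcond : NB.cond N μ y ≤ (1 + S) ^ m * NB.cond N μ (y + σ * τ) := by
    unfold NB.cond
    have h1 : ∀ j : Fin m, 1 + ‖(y : ℂ) * I - μ j‖ ≤ (1 + S) * (1 + ‖((y + σ * τ : ℝ) : ℂ) * I - μ j‖) := by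
      intro j
      have hk := hside' j
      have hσ2 : σ * σ = 1 := by rcases hσ with h | h <;> rw [h] <;> norm_num
      have key : ‖(y : ℂ) * I - μ j‖ ≤ ‖((y + σ * τ : ℝ) : ℂ) * I - μ j‖ + S := by
        have e1 : ((y : ℂ) * I - μ j).re = -(μ j).re := by simp
        have e2 : ((y : ℂ) * I - μ j).im = y - (μ j).im := by simp
        have e3 : (((y + σ * τ : ℝ) : ℂ) * I - μ j).re = -(μ j).re := by simp
        have e4 : (((y + σ * τ : ℝ) : ℂ) * I - μ j).im = y + σ * τ - (μ j).im := by simp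
        by_cases hp : 0 ≤ σ * (y - (μ j).im)
        · have h2 : ‖(y : ℂ) * I - μ j‖ ≤ ‖((y + σ * τ : ℝ) : ℂ) * I - μ j‖ := by
            rw [Complex.norm_eq_sqrt_sq_add_sq, Complex.norm_eq_sqrt_sq_add_sq, e1, e2, e3, e4]
            apply Real.sqrt_le_sqrt
            have h3 : (y + σ * τ - (μ j).im) ^ 2 = (y - (μ j).im) ^ 2 + 2 * τ * (σ * (y - (μ j).im)) + τ ^ 2 := by
              linear_combination τ ^ 2 * hσ2
            rw [h3]
            have := mul_nonneg (mul_nonneg (by norm_num : (0 : ℝ) ≤ 2) hτ) hp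
            have := sq_nonneg τ
            linarith
          linarith
        · push Not at hp
          have h3 : |y - (μ j).im| ≤ S := by
            have h4 : |σ * (y - (μ j).im)| = |y - (μ j).im| := by
              rw [abs_mul]
              rcases hσ with h | h <;> simp [h]
            rw [← h4, abs_of_neg hp]
            linarith
          have h5 := Complex.norm_le_abs_re_add_abs_im ((y : ℂ) * I - μ j)
          rw [e1, e2] at h5
          have h6 := Complex.abs_re_le_norm (((y + σ * τ : ℝ) : ℂ) * I - μ j)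
          rw [e3] at h6
          linarith
      have h2 := norm_nonneg (((y + σ * τ : ℝ) : ℂ) * I - μ j)
      nlinarith
    have h2 := Finset.prod_le_prod (s := (Finset.univ : Finset (Fin m))) (fun j _ => by positivity) fun j _ => h1 j
    rw [Finset.prod_mul_distrib, Finset.prod_const, Finset.card_univ, Fintype.card_fin] at h2
    calc N * ∏ j, (1 + ‖(y : ℂ) * I - μ j‖) ≤ N * ((1 + S) ^ m * ∏ j, (1 + ‖((y + σ * τ : ℝ) : ℂ) * I - μ j‖)) :=
          mul_le_mul_of_nonneg_left h2 hN0.le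
      _ = _ := by ring
  have hexp : Real.exp (-Real.log (NB.cond N μ (y + σ * τ))) ≤ (1 + S) ^ m * Real.exp (-Real.log (NB.cond N μ y)) := by
    rw [Real.exp_neg, Real.exp_neg, Real.exp_log (hC0 _), Real.exp_log (hC0 _), ← div_eq_mul_inv, inv_eq_one_div,
      div_le_div_iff₀ (hC0 _) (hC0 _), one_mul]
    exact hcond
  unfold NZ.Mb
  rw [hgaf, hgaf, mul_pow]
  have hP : 0 ≤ ∏ j, ‖Gammaℝ ((5 / 2 + (y : ℂ) * I) - μ j)‖ := Finset.prod_nonneg fun j _ => norm_nonneg _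
  have hN4 : 0 ≤ N ^ ((5 : ℝ) / 4) := by positivity
  calc N ^ ((5 : ℝ) / 4) * (∏ j, ‖Gammaℝ ((5 / 2 + ((y + σ * τ : ℝ) : ℂ) * I) - μ j)‖) * Real.exp (-Real.log (NB.cond N μ (y + σ * τ)))
      ≤ N ^ ((5 : ℝ) / 4) * ((D₁ ^ m * Real.exp (-(c * τ))) * ∏ j, ‖Gammaℝ ((5 / 2 + (y : ℂ) * I) - μ j)‖) *
        ((1 + S) ^ m * Real.exp (-Real.log (NB.cond N μ y))) :=
        mul_le_mul (mul_le_mul_of_nonneg_left hprod hN4) hexp (Real.exp_pos _).le
          (mul_nonneg hN4 (mul_nonneg (by positivity) hP))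
    _ = _ := by ring

/-- **one derivative**, for `DatumT` -/
theorem datum_one (m : ℕ) (hm : 1 ≤ m) (k : ℕ) {R₀ ε : ℝ} (hR₀ : 0 ≤ R₀) (hε : 0 < ε) :
    ∃ B C₀ : ℝ, 0 < B ∧ 1 < C₀ ∧ ∀ (N : ℝ) (μ : Fin m → ℂ) (α : Fin m → ℕ → ℂ) (w : ℂ) (Λ : ℂ → ℂ), DatumT (1 / 2) N μ α w Λ →
      (∀ j, -R₀ ≤ (μ j).re) → ∀ y : ℝ, ((∀ j, (μ j).im ≤ y) ∨ ∀ j, y ≤ (μ j).im) → C₀ ≤ NB.cond N μ y →
      (∀ s : ℂ, iteratedDeriv k (NB.xi N Λ) s = 0 → |s.im - y| ≤ B * Real.log (NB.cond N μ y) → s.re = 1 / 2) →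
      ‖GL.Lf μ Λ (1 / 2 + y * I)‖ ≤ NB.cond N μ y ^ ε ∧ ∀ s : ℂ, s.im = y → Λ s = 0 → |s.re - 1 / 2| < ε := by
  obtain ⟨K, HK⟩ := NZ.datum_base m hm (θ := 1 / 2) (by norm_num) le_rfl
  obtain ⟨S, hS, HS⟩ := q_omain 2 K k ε (by norm_num) hε
  obtain ⟨c, D₁, hc, hD₁, HM⟩ := mb_dec m hm hR₀ hS.le
  have hDm : (1 : ℝ) ≤ max D₁ m := hD₁.trans (le_max_left _ _)
  obtain ⟨B, ℓ₀, hB, hℓ₀, HO⟩ := HS c (max D₁ m) hc hDm
  obtain ⟨E, hE, HE⟩ := EL.lf_of_xi m hm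
  have hlogE : 0 ≤ Real.log E := Real.log_nonneg hE
  refine ⟨B, Real.exp (2 * ℓ₀ + 2 * Real.log E / ε + 1), hB, Real.one_lt_exp_iff.2 (by positivity),
    fun N μ α w Λ d hre y hside hC hZ => ?_⟩
  have hN := d.one_le
  have hC1 := NB.cond_one hN μ y
  have hC0 : 0 < NB.cond N μ y := by linarith
  have hlogC : 2 * ℓ₀ + 2 * Real.log E / ε + 1 ≤ Real.log (NB.cond N μ y) := (Real.le_log_iff_exp_le hC0).2 hC
  have hEε : 0 ≤ 2 * Real.log E / ε := by positivity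
  -- the direction
  obtain ⟨σ, hσ, hσs⟩ : ∃ σ : ℝ, (σ = 1 ∨ σ = -1) ∧ ∀ j, σ * (μ j).im ≤ σ * y := by
    rcases hside with h | h
    · exact ⟨1, Or.inl rfl, fun j => by rw [one_mul, one_mul]; exact h j⟩
    · exact ⟨-1, Or.inr rfl, fun j => by linarith [h j]⟩
  have F : Fam (NB.xi N Λ) 2 K S c (max D₁ m) σ (NZ.Mb N μ) (fun y => 1 / 2 * Real.log (NB.cond N μ y)) y := by
    refine ⟨fun y' => ob_of (HK N μ α w Λ d y'), hσ, hc, hDm, fun y' τ h1 h2 => ?_, fun y' y'' => ?_⟩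
    · refine (HM N μ y σ hN d.re_le hre hσ hσs y' τ h1 h2).trans ?_
      have hMb : 0 ≤ NZ.Mb N μ y' := by unfold NZ.Mb; positivity
      have := mul_le_mul_of_nonneg_right (le_max_left D₁ (m : ℝ)) hMb
      exact mul_le_mul_of_nonneg_right this (Real.exp_pos _).le
    · have h1 := cond_lip hN μ y' y''
      have h2 : 0 ≤ Real.log (1 + |y'' - y'|) := Real.log_nonneg (by linarith [abs_nonneg (y'' - y')])
      have h3 : (m : ℝ) * Real.log (1 + |y'' - y'|) ≤ max D₁ m * Real.log (1 + |y'' - y'|) :=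
        mul_le_mul_of_nonneg_right (le_max_right _ _) h2
      have h4 : 0 ≤ (m : ℝ) * Real.log (1 + |y'' - y'|) := mul_nonneg (Nat.cast_nonneg m) h2
      show 1 / 2 * Real.log (NB.cond N μ y'') ≤ 1 / 2 * Real.log (NB.cond N μ y') + max D₁ m * Real.log (1 + |y'' - y'|)
      linarith
  have hlogpos : 0 ≤ Real.log (NB.cond N μ y) := by linarith
  obtain ⟨h1, h2⟩ := HO (NB.xi N Λ) σ (NZ.Mb N μ) (fun y => 1 / 2 * Real.log (NB.cond N μ y)) y F (by
      show ℓ₀ ≤ 1 / 2 * Real.log (NB.cond N μ y)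
      linarith) fun z hz hzi => hZ z hz (hzi.trans (mul_le_mul_of_nonneg_left (by
        show 1 / 2 * Real.log (NB.cond N μ y) ≤ Real.log (NB.cond N μ y)
        linarith) hB.le))
  constructor
  · have h3 := HE N μ hN d.re_le Λ y 0 (Real.exp (ε * (1 / 2 * Real.log (NB.cond N μ y)))) le_rfl (by norm_num) (by
      rw [mul_zero, Real.exp_zero, mul_one]
      exact h1)
    have e1 : NZ.pt y 0 0 = 1 / 2 + y * I := by simp [NZ.pt]
    rw [e1] at h3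
    refine h3.trans ?_
    have hE0 : 0 < E := by linarith
    rw [Real.rpow_def_of_pos hC0, ← Real.exp_log hE0, ← Real.exp_add]
    refine Real.exp_le_exp.2 ?_
    have h4 : 2 * Real.log E / ε ≤ Real.log (NB.cond N μ y) := by linarith
    rw [div_le_iff₀ hε] at h4
    linarith
  · intro s hs h0
    refine h2 s hs ?_
    unfold NB.xi
    rw [h0, mul_zero]

end Pool.Agent.H477.O
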