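import Pool.Agent.H477.O.Stm2

set_option autoImplicit false

/-!
# Project Q (helper477): the optimal rate

As project P, with the distance `δ ≥ A / log ℓ` instead of `δ ≥ A log log ℓ / log ℓ`: RH for one derivative of `ξ` gives `|ζ(1/2+it)| ≤ exp(C log t / log log t)` (the best order known under RH, Littlewood 1924) and zeros
`Re ρ < 1/2 + C / log log t`. Key: `f = logDeriv X^{(j)} - ℓ` has `Re f ≥ -K ℓ` to the right of the zeros (Landau's local formula, `Re 1/(z-ρ) ≥ 0`), so `f/(f + 2Kℓ)` is bounded by `1` there, and Hadamard's three circle theorem gives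
`|f| ≤ 8 K ℓ exp(-c u log ℓ)` at the distance `u` from the boundary, without the loss of powers of `1/u`.
-/

open Complex Filter Topology Metric Set MeasureTheory
open scoped ComplexConjugate

namespace Pool.Agent.H477.O

/-- **S_QTC** (Q1). No hypotheses.

Proof. `m(z) = f z / (f z + 2 K ℓ)` on `closedBall c R`: `Re (f + 2Kℓ) ≥ Kℓ > 0`, and `|m| ≤ 1` because `|f|² ≤ |f + 2Kℓ|²` iff `0 ≤ 4Kℓ (Re f + Kℓ)`. On `closedBall c 1`: `|m| ≤ K/(2Kℓ - K) ≤ 1/ℓ`. Hadamard's three circles (library: `three_circles` in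
`Pool/Graph/R_seed8/H296R2/LE/Basic.lean`, module `Pool.Graph.R_seed8.H296R2.LE.Basic`; or Mathlib's three lines theorem): for `1 ≤ |z-c| ≤ R - u`: `|m z| ≤ (1/ℓ)^θ`, `θ = log (R/|z-c|)/log R ≥ (u/R)/log R` (`log (R/(R-u)) ≥ u/R`);
for `|z-c| ≤ 1`: `|m z| ≤ 1/ℓ ≤ (1/ℓ)^θ` as `u/(R log R) ≤ log (R/(R-u))/log R ≤ 1`. So `|m z| ≤ q := exp(-(u/(R log R)) log ℓ) ≤ 1/4`, and `f = 2Kℓ m/(1-m)`, `|f| ≤ 2Kℓ q/(3/4) ≤ 8 K ℓ q`. -/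
def S_QTC : Prop := ∀ R K ℓ u : ℝ, 2 ≤ R → 1 ≤ K → 3 ≤ ℓ → 0 < u → u ≤ R - 1 →
  ∀ (f : ℂ → ℂ) (c : ℂ), AnalyticOnNhd ℂ f (closedBall c R) → (∀ z ∈ closedBall c R, -(K * ℓ) ≤ (f z).re) →
  (∀ z ∈ closedBall c 1, ‖f z‖ ≤ K) → Real.exp (-(u / (R * Real.log R) * Real.log ℓ)) ≤ 1 / 4 →
  ∀ z ∈ closedBall c (R - u), ‖f z‖ ≤ 8 * K * ℓ * Real.exp (-(u / (R * Real.log R) * Real.log ℓ))

/-- **S_QLAN** (Q2). One-sided Landau lemma. No hypotheses.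

Proof. Copy the proof of `H370.Loc.landau` (`Pool/Graph/R_seed8/H370R2/Local.lean`, lines 342-440): `f = Pf s * g` (`H370.Loc.extract`), `logDeriv f z = logDeriv (Pf s) z + logDeriv g z` (all factors `≠ 0` at `z` since `f z ≠ 0`), the bound of `logDeriv g z` is the second term there, and
`Re (logDeriv (Pf s) z) = ∑_{ρ ∈ s} Re (1/(z-ρ)) ≥ 0` (induction over the multiset with `Pf_cons`, `logDeriv_mul`; `Re 1/(z-ρ) = (Re z - Re ρ)/|z-ρ|² ≥ 0`). -/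
def S_QLAN : Prop := ∀ (f : ℂ → ℂ) (c : ℂ) (r r1 r2 R M : ℝ), 0 < r2 → r2 < r1 → r1 < r → r < R → R ≤ 2 * r → 1 ≤ M → ‖f c‖ ≤ M →
  AnalyticOnNhd ℂ f (closedBall c R) → f c ≠ 0 → (∀ z ∈ closedBall c R, ‖f z‖ ≤ M) →
  ∀ z ∈ closedBall c r2, f z ≠ 0 → (∀ ρ ∈ closedBall c r, f ρ = 0 → ρ.re ≤ z.re) →
  -(2 * (Real.log (M / ‖f c‖) + Real.log (M / ‖f c‖) / Real.log (R / r) * Real.log (r / (R - r)) + 1) * r1 / (r - r1) / (r1 - r2)) ≤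
    (logDeriv f z).re

/-- **S_QRE** (Q3). One-sided bound of the logarithmic derivative. From `S_QLAN`, `S_PFAR`, `S_PCR`.

Proof. `F = X^{(j)}`. *`Re z ≥ 1/2 + a + j`*: `S_PFAR` (`A := a + j + 4`): `Re logDeriv F z ≥ ℓ - K' ≥ -K' ℓ`. *`1/2 + b < Re z < 1/2 + a + j`*: `c = 1/2 + (a+j+1) + i Im z`, `r2 = a+j+1`, `r1 = r2+1`, `r = r2+2`, `R := r2+3`, `f = F/F(c)` (same `logDeriv`; `f c = 1`), `z ∈ closedBall c r2`.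
Zeros of `F` in `closedBall c r` have `Re ≤ 1/2 + b < Re z` by `ZF` (`Re ≤ 1/2 + 2(a+j+4) ≤ 1/2 + R`, `|Im - y| ≤ 2(a+j+4) ≤ R`). `|F| ≤ M e^{K2 ℓ}` on `closedBall c (r2+3)` (`S_PCR` with `A = R := 2(a+j+4)`; `4(a+j+4) + 2 ≤ V`), `|F c| ≥ M e^{-K'}` (`S_PFAR`, `ℓ ≥ 0`), so `|f| ≤ e^{(K2 + K') ℓ}`.
`S_QLAN` with `M := e^{(K2+K')ℓ}`: the bound is `≤ K₁ ℓ`. -/
def S_QRE : Prop := ∀ (a K : ℝ) (j : ℕ) (R V : ℝ), 0 < a → 3 * (a + j + 4) ≤ R → 2 * R + j + 4 ≤ V →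
  ∃ K₁ ℓ₀ : ℝ, 1 ≤ K₁ ∧ 3 ≤ ℓ₀ ∧ ∀ (X : ℂ → ℂ) (M ℓ y : ℝ), OBL X a K V M ℓ y → ℓ₀ ≤ ℓ →
  ∀ b : ℝ, 0 ≤ b → b ≤ a → ZF (iteratedDeriv j X) b R y → ∀ z : ℂ, 1 / 2 + b < z.re → z.re ≤ 1 / 2 + R → |z.im - y| ≤ a + j + 4 →
  -(K₁ * ℓ) ≤ (logDeriv (iteratedDeriv j X) z).re

/-- **S_QLOG** (Q4). From `S_QTC`, `S_QRE`, `S_PFAR`. (Model: `Pool/Agent/H397/P/PLOG.lean`, on main.)

Proof. `F = X^{(j)}`, `u = Re z - 1/2 - b ≥ A/log ℓ`. `F z ≠ 0` by `ZF`. *Case 1* `Re z ≥ 1/2 + a + j`: `S_PFAR` (`A := 1`), `K' ≤ C`. *Case 2* `Re z < 1/2 + a + j`: `R1 = a + j + 3`, `c₀ = 1/2 + b + min u 1/2 + R1 + i Im z`, `f = logDeriv F - ℓ` on `closedBall c₀ R1`: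
there `1/2 + b < Re w ≤ 1/2 + a + 1/2 + 2 R1 ≤ 1/2 + R`, `|Im w - y| ≤ a + j + 4`, so `F w ≠ 0` (`ZF`), `f` is analytic, `Re f ≥ -(K₁+1) ℓ` (`S_QRE`); on `closedBall c₀ 1`: `Re w ≥ 1/2 + a + j`, `|f| ≤ K'` (`S_PFAR`, `A := a+j+4`). `|z - c₀| = R1 + min u 1/2 - u ≤ R1 - u/2`.
`S_QTC` with `R := R1`, `u := u/2` (`≤ (a+j)/2 ≤ R1 - 1`), `K := max (K₁+1) K'`; `A = 2 R1 log R1 · log 4 + 1` makes the exponential `≤ 1/4`; `c = 1/(2 R1 log R1)`, `C = 8 K`. -/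
def S_QLOG : Prop := ∀ (a K : ℝ) (j : ℕ) (R V : ℝ), 0 < a → 3 * (a + j + 4) ≤ R → 2 * R + j + 4 ≤ V →
  ∃ A C c ℓ₀ : ℝ, 1 ≤ A ∧ 1 ≤ C ∧ 0 < c ∧ 3 ≤ ℓ₀ ∧ ∀ (X : ℂ → ℂ) (M ℓ y : ℝ), OBL X a K V M ℓ y → ℓ₀ ≤ ℓ →
  ∀ b : ℝ, 0 ≤ b → b ≤ a → ZF (iteratedDeriv j X) b R y → ∀ z : ℂ, 1 / 2 + b + A / Real.log ℓ ≤ z.re → z.re ≤ 1 / 2 + R → |z.im - y| ≤ 1 →
  iteratedDeriv j X z ≠ 0 ∧ ‖logDeriv (iteratedDeriv j X) z - ℓ‖ ≤ C * ℓ * Real.exp (-(c * (z.re - 1 / 2 - b) * Real.log ℓ)) + C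

/-- `f` is nearly `M e^{ℓ (z - 1/2)}` in the box `1/2 + b ≤ Re z ≤ 1/2 + R`, `|Im z - y| ≤ 1` (two tolerances) -/
def FL2 (f : ℂ → ℂ) (M ℓ b R κ e y : ℝ) : Prop := ∀ z : ℂ, 1 / 2 + b ≤ z.re → z.re ≤ 1 / 2 + R → |z.im - y| ≤ 1 →
  f z ≠ 0 ∧ ‖logDeriv f z - ℓ‖ ≤ κ * ℓ ∧ M * Real.exp (ℓ * (z.re - 1 / 2 - e)) ≤ ‖f z‖ ∧ ‖f z‖ ≤ M * Real.exp (ℓ * (z.re - 1 / 2 + e))

/-- **S_QFL** (Q5). From `S_QLOG`, `S_PFAR`. (Model: `Pool/Agent/H643/P/PFL.lean`, on main.)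

Proof. `A₁, C, c` from `S_QLOG`; `A` so large that `A ≥ A₁`, `C e^{-cA} ≤ κ/2`, `C e^{-cA}/c ≤ κ A/4`. *Logarithmic derivative*: `C ℓ e^{-c u log ℓ} + C ≤ C ℓ e^{-cA} + C ≤ κ ℓ` (`u = Re z - 1/2 - b ≥ δ ≥ A/log ℓ`; `ℓ ≥ 2C/κ`). *Sizes, `Re z ≥ 1/2 + a + j`*: `S_PFAR` (`A := 1`), `K' + j log (2ℓ) ≤ κ δ ℓ`, since
`δ ℓ ≥ ℓ/log ℓ`, `ℓ` large. *Sizes, `Re z < 1/2 + a + j`*: let `z1 = 1/2 + a + j + i Im z`, `h(w) = X^{(j)}(w) exp(-ℓ w)`. For `0 ≤ t ≤ T = z1 - z ≤ a + j`: `|d/dt log ‖h(z+t)‖| ≤ ‖logDeriv h (z+t)‖ ≤ C ℓ e^{-c (u+t) log ℓ} + C`, so (compare with the primitive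
`-C ℓ e^{-c (u+t) log ℓ}/(c log ℓ) + C t`; e.g. `log ‖h(z+t)‖ ±` the primitive is monotone) `|log ‖h z‖ - log ‖h z1‖| ≤ C ℓ e^{-cA}/(c log ℓ) + C (a+j) ≤ κ δ ℓ/4 + κ δ ℓ/4` for `ℓ` large; then `S_PFAR` at `z1` with error `K' + j log (2ℓ) ≤ κ δ ℓ/2`. -/
def S_QFL : Prop := ∀ (a K : ℝ) (j : ℕ) (R V κ : ℝ), 0 < a → 0 < κ → 3 * (a + j + 4) ≤ R → 2 * R + j + 4 ≤ V →
  ∃ A ℓ₀ : ℝ, 1 ≤ A ∧ 3 ≤ ℓ₀ ∧ ∀ (X : ℂ → ℂ) (M ℓ y : ℝ), OBL X a K V M ℓ y → ℓ₀ ≤ ℓ →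
  ∀ δ : ℝ, A / Real.log ℓ ≤ δ → ∀ b : ℝ, 0 ≤ b → b ≤ a →
  ZF (iteratedDeriv j X) b R y → FL2 (iteratedDeriv j X) M ℓ (b + δ) R κ (κ * δ) y

/-- **S_QCM** (Q6), pure real analysis.

Proof. `1/2 log t - 1 ≤ ℓ ≤ 1/2 log t`: for `t` large `ℓ ≥ (1/4) log t`, `log ℓ ≥ log log t - log 4 ≥ (1/2) log log t > 0`. First part: `C/log ℓ * ℓ ≤ (2C/log log t) log t`. Second part: for `T ≤ x ≤ T²`: `log x ≤ 2 log T`, `log log x ≥ log log T > 0`. Third part: `E log log T ≤ log T` for `T` large. -/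
def S_QCM : Prop := (∀ C ℓ₀ : ℝ, 0 < C → ∃ T0 : ℝ, Real.exp (Real.exp 1) ≤ T0 ∧ ∀ t ℓ : ℝ, T0 ≤ t → 1 / 2 * Real.log t - 1 ≤ ℓ → ℓ ≤ 1 / 2 * Real.log t →
    ℓ₀ ≤ ℓ ∧ C / Real.log ℓ * ℓ ≤ 2 * C * (Real.log t / Real.log (Real.log t)) ∧ C / Real.log ℓ ≤ 2 * C / Real.log (Real.log t)) ∧
  (∀ T x : ℝ, Real.exp (Real.exp 1) ≤ T → T ≤ x → x ≤ T ^ 2 →
    Real.log x / Real.log (Real.log x) ≤ 2 * (Real.log T / Real.log (Real.log T)) ∧ 1 / Real.log (Real.log x) ≤ 1 / Real.log (Real.log T)) ∧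
  (∀ E : ℝ, ∃ T0 : ℝ, Real.exp (Real.exp 1) ≤ T0 ∧ ∀ T : ℝ, T0 ≤ T → E ≤ Real.log T / Real.log (Real.log T))

end Pool.Agent.H477.O
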