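import Pool.Agent.H477.O.Datum
import Pool.Agent.H477.O.Main3

set_option autoImplicit false

/-!
# Project Q: standard L-functions, optimal rate
-/

open Complex Filter Topology Metric Set MeasureTheory
open scoped ComplexConjugate

namespace Pool.Agent.H477.O.Q

open Pool.Agent.H487 H353.E H353.F

lemma obl_of {X : ℂ → ℂ} {a K V M ℓ y : ℝ} (h : OB X a K M ℓ y) : OBL X a K V M ℓ y :=
  ⟨h.diff, h.fe, h.ha, h.hK, h.hM, fun u v _ _ => h.up u v, fun u v h1 _ _ => h.lo u v h1, fun z h1 _ _ => h.lg z h1⟩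

/-- `1 / log log t` -/
noncomputable def ri (t : ℝ) : ℝ := 1 / Real.log (Real.log t)

lemma ri_nonneg {t : ℝ} (ht : Real.exp (Real.exp 1) ≤ t) : 0 ≤ ri t := by
  have h1 : Real.exp 1 ≤ Real.log t := by
    rw [Real.le_log_iff_exp_le (lt_of_lt_of_le (Real.exp_pos _) ht)]
    exact ht
  have h2 : 1 ≤ Real.log (Real.log t) := by
    rw [Real.le_log_iff_exp_le (lt_of_lt_of_le (Real.exp_pos _) h1)]
    exact h1
  exact div_nonneg zero_le_one (by linarith)

/-- **one derivative**, explicit rates, for `DatumT` -/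
theorem datum_one3 (hQM : S_QMAIN) (hQC : S_QCM) (m : ℕ) (hm : 1 ≤ m) (k : ℕ) {R₀ : ℝ} (hR₀ : 0 ≤ R₀) :
    ∃ B C C₀ : ℝ, 0 < B ∧ 0 < C ∧ Real.exp (Real.exp 1) ≤ C₀ ∧ ∀ (N : ℝ) (μ : Fin m → ℂ) (α : Fin m → ℕ → ℂ) (w : ℂ) (Λ : ℂ → ℂ),
      DatumT (1 / 2) N μ α w Λ →
      (∀ j, -R₀ ≤ (μ j).re) → ∀ y : ℝ, ((∀ j, (μ j).im ≤ y) ∨ ∀ j, y ≤ (μ j).im) → C₀ ≤ NB.cond N μ y →
      (∀ s : ℂ, iteratedDeriv k (NB.xi N Λ) s = 0 → |s.im - y| ≤ B * Real.log (NB.cond N μ y) → s.re = 1 / 2) →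
      ‖GL.Lf μ Λ (1 / 2 + y * I)‖ ≤ Real.exp (C * (Real.log (NB.cond N μ y) * ri (NB.cond N μ y))) ∧
        ∀ s : ℂ, s.im = y → Λ s = 0 → |s.re - 1 / 2| < C * ri (NB.cond N μ y) := by
  obtain ⟨K, HK⟩ := NZ.datum_base m hm (θ := 1 / 2) (by norm_num) le_rfl
  obtain ⟨S, V, hS, hV, HS⟩ := hQM 2 k (by norm_num)
  obtain ⟨c, D₁, hc, hD₁, HM⟩ := mb_dec m hm hR₀ hS.le
  have hDm : (1 : ℝ) ≤ max D₁ m := hD₁.trans (le_max_left _ _)
  obtain ⟨B, C₁, ℓ₀, hB, hC₁, hℓ₀, HO⟩ := HS K c (max D₁ m) hc hDm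
  obtain ⟨E, hE, HE⟩ := EL.lf_of_xi m hm
  obtain ⟨T1, hT1, hcm⟩ := hQC.1 C₁ ℓ₀ hC₁
  obtain ⟨T2, hT2, hrl⟩ := hQC.2.2 (Real.log E)
  refine ⟨B, 2 * C₁ + 1, max T1 T2, hB, by linarith, hT1.trans (le_max_left _ _),
    fun N μ α w Λ d hre y hside hC hZ => ?_⟩
  have hN := d.one_le
  have hC1 := NB.cond_one hN μ y
  have hC0 : 0 < NB.cond N μ y := by linarith
  have hlogpos : 0 ≤ Real.log (NB.cond N μ y) := Real.log_nonneg hC1
  obtain ⟨g1, g2, g3⟩ := hcm (NB.cond N μ y) (1 / 2 * Real.log (NB.cond N μ y)) ((le_max_left _ _).trans hC) (by linarith) le_rfl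
  have g4 := hrl (NB.cond N μ y) ((le_max_right _ _).trans hC)
  have hr0 := ri_nonneg ((hT1.trans (le_max_left _ _)).trans hC)
  -- the direction
  obtain ⟨σ, hσ, hσs⟩ : ∃ σ : ℝ, (σ = 1 ∨ σ = -1) ∧ ∀ j, σ * (μ j).im ≤ σ * y := by
    rcases hside with h | h
    · exact ⟨1, Or.inl rfl, fun j => by rw [one_mul, one_mul]; exact h j⟩
    · exact ⟨-1, Or.inr rfl, fun j => by linarith [h j]⟩
  have F : FamL (NB.xi N Λ) 2 K V S c (max D₁ m) σ (NZ.Mb N μ) (fun y => 1 / 2 * Real.log (NB.cond N μ y)) y := by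
    refine ⟨fun y' _ => obl_of (ob_of (HK N μ α w Λ d y')), hσ, hc, hDm, fun y' τ h1 h2 => ?_, fun y' y'' _ _ => ?_⟩
    · refine (HM N μ y σ hN d.re_le hre hσ hσs y' τ h1 h2).trans ?_
      have hMb : 0 ≤ NZ.Mb N μ y' := by unfold NZ.Mb; positivity
      have := mul_le_mul_of_nonneg_right (le_max_left D₁ (m : ℝ)) hMb
      exact mul_le_mul_of_nonneg_right this (Real.exp_pos _).le
    · have h1 := cond_lip hN μ y' y''
      have h2 : 0 ≤ Real.log (1 + |y'' - y'|) := Real.log_nonneg (by linarith [abs_nonneg (y'' - y')])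
      have h3 : (m : ℝ) * Real.log (1 + |y'' - y'|) ≤ max D₁ m * Real.log (1 + |y'' - y'|) :=
        mul_le_mul_of_nonneg_right (le_max_right _ _) h2
      have h4 : 0 ≤ (m : ℝ) * Real.log (1 + |y'' - y'|) := mul_nonneg (Nat.cast_nonneg m) h2
      show 1 / 2 * Real.log (NB.cond N μ y'') ≤ 1 / 2 * Real.log (NB.cond N μ y') + max D₁ m * Real.log (1 + |y'' - y'|)
      linarith
  obtain ⟨h1, h2⟩ := HO (NB.xi N Λ) σ (NZ.Mb N μ) (fun y => 1 / 2 * Real.log (NB.cond N μ y)) y F g1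
    fun z hz hzi => hZ z hz (hzi.trans (mul_le_mul_of_nonneg_left (by
        show 1 / 2 * Real.log (NB.cond N μ y) ≤ Real.log (NB.cond N μ y)
        linarith) hB.le))
  constructor
  · have h3 := HE N μ hN d.re_le Λ y 0 (Real.exp (C₁ * (1 /
        Real.log (1 / 2 * Real.log (NB.cond N μ y))) * (1 / 2 * Real.log (NB.cond N μ y)))) le_rfl (by norm_num) (by
      rw [mul_zero, Real.exp_zero, mul_one]
      exact h1)
    have e1 : NZ.pt y 0 0 = 1 / 2 + y * I := by simp [NZ.pt]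
    rw [e1] at h3
    refine h3.trans ?_
    have hE0 : 0 < E := by linarith
    rw [← Real.exp_log hE0, ← Real.exp_add]
    refine Real.exp_le_exp.2 ?_
    have g4' : Real.log E ≤ Real.log (NB.cond N μ y) * ri (NB.cond N μ y) := by
      unfold ri
      rw [mul_one_div]
      exact g4
    have g2' : C₁ * (1 /
        Real.log (1 / 2 * Real.log (NB.cond N μ y))) * (1 / 2 * Real.log (NB.cond N μ y)) ≤
        2 * C₁ * (Real.log (NB.cond N μ y) * ri (NB.cond N μ y)) := by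
      unfold ri
      rw [mul_one_div, mul_one_div]
      exact g2
    linarith
  · have g3' : C₁ * (1 /
        Real.log (1 / 2 * Real.log (NB.cond N μ y))) ≤ 2 * C₁ * ri (NB.cond N μ y) := by
      unfold ri
      rw [mul_one_div, mul_one_div]
      exact g3
    have hOB := ob_of (HK N μ α w Λ d y)
    have right : ∀ z : ℂ, z.im = y → NB.xi N Λ z = 0 → z.re - 1 / 2 < (2 * C₁ + 1) * ri (NB.cond N μ y) := by
      intro z hz h0
      rcases le_or_gt z.re (1 / 2 + 2) with h | h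
      · have h3 := h2 z hz h h0
        have h3' : z.re - 1 / 2 < C₁ * (1 /
          Real.log (1 / 2 * Real.log (NB.cond N μ y))) := h3
        linarith
      · exfalso
        have h3 := hOB.lo (z.re - 1 / 2) 0 (by linarith)
        have h4 : z = pt y (z.re - 1 / 2) 0 := by
          have := pt_eq y z
          rwa [hz, sub_self] at this
        rw [← h4, h0, norm_zero] at h3
        have h5 := mul_pos hOB.hM (Real.exp_pos (1 / 2 * Real.log (NB.cond N μ y) * (z.re - 1 / 2) - K * (1 + (z.re - 1 / 2) ^ 2 + 0 ^ 2)))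
        linarith
    intro s hs h0
    have hx0 : NB.xi N Λ s = 0 := by
      unfold NB.xi
      rw [h0, mul_zero]
    rw [abs_lt]
    refine ⟨?_, right s hs hx0⟩
    obtain ⟨η, hη, hfe⟩ := hOB.fe
    have hη0 : η ≠ 0 := by
      intro h
      rw [h, norm_zero] at hη
      exact zero_ne_one hη
    have h1 := hfe s
    rw [hx0] at h1
    have h2 : NB.xi N Λ (1 - conj s) = 0 := by
      have h3 : conj (NB.xi N Λ (1 - conj s)) = 0 := by
        rcases mul_eq_zero.1 h1.symm with h | h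
        · exact absurd h hη0
        · exact h
      exact (map_eq_zero _).1 h3
    have h3 := right (1 - conj s) (by simp [hs]) h2
    have h4 : (1 - conj s).re = 1 - s.re := by simp
    rw [h4] at h3
    linarith

end Pool.Agent.H477.O.Q
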