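import Pool.Agent.H477.O.Stm2

set_option autoImplicit false

/-!
# Project B (helper477): Backlund's criterion for the derivatives of completed L-functions

Goal: the Lindelöf bound at height `y`, uniformly in the L-function, is equivalent to: at heights near `y` only few (`≤ κ log C`) zeros of `ξ^{(k)}` have real part `≥ 1/2 + α`.
-/

open Complex Filter Topology Metric Set MeasureTheory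
open scoped ComplexConjugate

namespace Pool.Agent.H477.O

/-- `f` has at most `n` zeros (with multiplicity) in the box `1/2 + α ≤ Re s ≤ 1/2 + R`, `|Im s - y| ≤ R` -/
def FewZ (f : ℂ → ℂ) (α R n y : ℝ) : Prop := ∀ S : Finset ℂ,
  (∀ s ∈ S, f s = 0 ∧ 1 / 2 + α ≤ s.re ∧ s.re ≤ 1 / 2 + R ∧ |s.im - y| ≤ R) → ∑ s ∈ S, (analyticOrderNatAt f s : ℝ) ≤ n

/-- **S_B1.** Few zeros give the upper bound. From `S_PFAR`, `S_PCR` and `S_PROPB` (propagation of smallness, proved; see below). Tools: `H370.Loc.extract`, `H370.Loc.Pf_norm_ge`, `Pf_norm_le`, `count_le_mult` (`Pool/Graph/R_seed8/H370R2/Local.lean`).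

Proof. `F = X^{(j)}`. *`Re z ≥ 1/2 + a + j`*: `S_PFAR` (`A := 1`), `(2ℓ)^j e^{K'} ≤ e^{eℓ}`. *`Re z < 1/2 + a + j`*: `R1 = a + j + 3`, `c = 1/2 + α + R1 + i Im z`, `r = R1 - α/4`; `closedBall c R1` is in the box. `f = F/F(c)`, `|f| ≤ e^{K2 ℓ}` on `closedBall c R1` (`S_PCR`, `S_PFAR` at `c`).
`extract` (`r`, `R := R1`, `M := e^{K2 ℓ}`): `f = Pf s * g`, `n = card s ≤ κℓ` (`FewZ`, `count_le_mult`; the order of `f` is that of `F`). `|g| ≤ e^{K2ℓ} (4/α)^n` on `closedBall c R1` (as in the proof of `H370.Loc.landau`). `b(w) = g(w) e^{-ℓ(w - c)}` on `ball c r`: `b ≠ 0`, `|b| ≤ e^{A ℓ}` (`κ ≤ 1`).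
On `ball c 1`: all `ρ ∈ s` have `Re ρ < 1/2 + a + j` (`S_PFAR`), so `1 ≤ |w - ρ| ≤ 2 R1`, `1 ≤ |Pf s w| ≤ (2 R1)^n`; `|f w| e^{-ℓ Re(w-c)}` is between `e^{-2K'} (2ℓ)^{-j}` and `e^{2K'} (2ℓ)^j` (`S_PFAR`). So `e^{-ηℓ} ≤ |b| ≤ e^{ηℓ}` if `κ ≤ η/(2 log (2R1))` and `ℓ` is large. `S_PROPB` (`ρ := 1`, `s := R1 - α`, `R := r`, `η' := e/4`)
at `z` (`|z - c| ≤ R1 - α`): `|b z| ≤ e^{eℓ/4}`; `|F z| = |F c| |Pf s z| |g z| ≤ M (2ℓ)^j e^{K'} e^{ℓ(α+R1)} (2R1)^n e^{eℓ/4} e^{ℓ (Re z - Re c)}`. -/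
def S_PROPB : Prop := ∀ ρ s R A η' : ℝ, 0 < ρ → ρ < s → s < R → 0 < A → 0 < η' → ∃ η : ℝ, 0 < η ∧
  ∀ (b : ℂ → ℂ) (c : ℂ) (lam : ℝ), 1 ≤ lam → DifferentiableOn ℂ b (ball c R) →
  (∀ z ∈ ball c R, b z ≠ 0 ∧ ‖b z‖ ≤ Real.exp (A * lam)) →
  (∀ z ∈ ball c ρ, Real.exp (-(η * lam)) ≤ ‖b z‖ ∧ ‖b z‖ ≤ Real.exp (η * lam)) →
  ∀ z : ℂ, ‖z - c‖ ≤ s → Real.exp (-(η' * lam)) ≤ ‖b z‖ ∧ ‖b z‖ ≤ Real.exp (η' * lam)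

def S_B1 : Prop := ∀ (a K : ℝ) (j : ℕ) (R V α e : ℝ), 0 < a → 0 < α → α ≤ 1 / 4 → 0 < e → 3 * (a + j + 4) ≤ R → 2 * R + j + 4 ≤ V →
  ∃ κ ℓ₀ : ℝ, 0 < κ ∧ 3 ≤ ℓ₀ ∧ ∀ (X : ℂ → ℂ) (M ℓ y : ℝ), OBL X a K V M ℓ y → ℓ₀ ≤ ℓ → FewZ (iteratedDeriv j X) α R (κ * ℓ) y →
  ∀ z : ℂ, 1 / 2 + 2 * α ≤ z.re → z.re ≤ 1 / 2 + R → |z.im - y| ≤ 1 →
  ‖iteratedDeriv j X z‖ ≤ M * Real.exp (ℓ * (z.re - 1 / 2 + e))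

/-- **S_B2.** Small values give few zeros (Jensen). From `S_PFAR`.

Proof. `R1 = a + j + 4 + 4/α`, `R = 2 R1 + 2`. `c = 1/2 + R1 + i y`, `h(w) = X^{(j)}(w) e^{-ℓ (w - 1/2)}`. For `w ∈ closedBall c (R1 - 2η)` (`η ≤ α/16`, `η ≤ 1/4`): `closedBall w η` is in `1/2 ≤ Re`, so Cauchy's estimate gives `|X^{(j)} w| ≤ j! η^{-j} M e^{ℓ (Re w - 1/2 + 2η)}`, `|h w| ≤ j! η^{-j} M e^{2ηℓ}`.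
`|h c| ≥ M e^{-K'}` (`S_PFAR`, `A := 1`, `R := R1`). The points of `S` satisfy `Re s < 1/2 + a + j` (`S_PFAR` with `A := 1`, `R := R`), so `|s - c|² ≤ (R1 - α)² + 1 ≤ (R1 - α/2)²` (`α R1 ≥ 1 + α²`), i.e. `S ⊂ closedBall c (R1 - α/2)`, and `R1 - 2η ≥ R1 - α/8`.
`H370.Loc.jensen_mult` for `h/h(c)` (orders as for `X^{(j)}`): `∑ ≤ (2ηℓ + log(j! η^{-j}) + K')/log((R1 - 2η)/(R1 - α/2)) ≤ e ℓ` for `η` small, then `ℓ` large. -/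
def S_B2 : Prop := ∀ (a : ℝ) (j : ℕ) (α e : ℝ), 0 < a → 0 < α → α ≤ 1 / 4 → 0 < e → ∃ R η : ℝ, 0 < R ∧ a + j ≤ R ∧ 0 < η ∧ ∀ K V : ℝ, 2 * R + j + 4 ≤ V →
  ∃ ℓ₀ : ℝ, 3 ≤ ℓ₀ ∧ ∀ (X : ℂ → ℂ) (M ℓ y : ℝ), OBL X a K V M ℓ y → ℓ₀ ≤ ℓ →
  (∀ z : ℂ, 1 / 2 ≤ z.re → z.re ≤ 1 / 2 + R → |z.im - y| ≤ R → ‖X z‖ ≤ M * Real.exp (ℓ * (z.re - 1 / 2 + η))) →
  ∀ S : Finset ℂ, (∀ s ∈ S, iteratedDeriv j X s = 0 ∧ 1 / 2 + α ≤ s.re ∧ s.re ≤ 1 / 2 + a + j ∧ |s.im - y| ≤ 1) →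
    ∑ s ∈ S, (analyticOrderNatAt (iteratedDeriv j X) s : ℝ) ≤ e * ℓ

/-- **S_B3.** From the critical line into the strip. From `S_STRIP`, `S_PCMP`.

Proof. `Re z ≥ 1/2 + a`: `OBL.up`, `K (1 + R² + R²) ≤ η lf y₀`. `1/2 ≤ Re z ≤ 1/2 + a`: `c₁ = η/(4 a²)` (or smaller), `A = max (2R) ...` with `c₁ A² ≥ D' := 2(a + K) + 2...`, `W = 2A + 1`, `S₀ = V₀ = W + R + a + 2`. `F(w) = X(w + a/2) e^{-ℓ (w - 1/2)}`, `ℓ = lf y₀`, `β = a/2`: on `pt y₀ β v`: `|X(pt y₀ a v)| e^{-ℓ a/2} ≤ Mf y₀ e^{ℓ a/2 + K (1 + a² + v²)}`; on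
`pt y₀ (-β) v`: `|X(pt (y₀+v) 0 0)| e^{ℓ a/2} ≤ Mf (y₀+v) e^{η₁ lf(y₀+v)} e^{ℓa/2} ≤ E Mf y₀ e^{2η₁ℓ + ℓ a/2}` (`S_PCMP`, `FamL.lip`, `|v| ≤ 2A`, `ℓ` large); `P = Mf y₀ e^{ℓ (a/2 + η/2)}` (`η₁ = η/8`). Inside `|F| ≤ P e^{D' ℓ}` (`OBL.up`). `S_STRIP` (`β`, `A`, `c := c₁`, `D := D'`): `|F| ≤ P e^{4 c₁ β² ℓ} ≤ P e^{ηℓ/4}` for `|v| ≤ A`, `R ≤ A`. -/
def S_B3 : Prop := ∀ a R η : ℝ, 0 < a → 0 < R → 0 < η → ∃ W η₁ V₀ : ℝ, 0 < W ∧ 0 < η₁ ∧ ∀ K V D : ℝ, V₀ ≤ V → 1 ≤ D → ∃ ℓ₀ : ℝ, 3 ≤ ℓ₀ ∧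
  ∀ (X : ℂ → ℂ) (S c σ : ℝ) (Mf lf : ℝ → ℝ) (y₀ : ℝ), W ≤ S → FamL X a K V S c D σ Mf lf y₀ → ℓ₀ ≤ lf y₀ →
  (∀ x : ℝ, |x - y₀| ≤ W → ‖X (pt x 0 0)‖ ≤ Mf x * Real.exp (η₁ * lf x)) →
  ∀ z : ℂ, 1 / 2 ≤ z.re → z.re ≤ 1 / 2 + R → |z.im - y₀| ≤ R → ‖X z‖ ≤ Mf y₀ * Real.exp (lf y₀ * (z.re - 1 / 2 + η))

end Pool.Agent.H477.O
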