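import Pool.Agent.H477.O.Main2
import Pool.Agent.H477.O.Stm7

set_option autoImplicit false

/-!
# Project B: assembly of Backlund's criterion for derivatives
-/

open Complex Filter Topology Metric Set MeasureTheory
open scoped ComplexConjugate

namespace Pool.Agent.H477.O.B

/-- upper bounds of `X^{(k)}` on the lines at distance `u ≥ β` from the critical line, heights in a window -/
def UB (X : ℂ → ℂ) (k : ℕ) (e β R : ℝ) (Mf lf : ℝ → ℝ) (σ y₀ S w : ℝ) : Prop :=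
  ∀ y : ℝ, -S ≤ σ * (y - y₀) → σ * (y - y₀) ≤ w → ∀ u : ℝ, β ≤ u → u ≤ R →
    ‖iteratedDeriv k X (pt y u 0)‖ ≤ Mf y * Real.exp (lf y * (u + e))

lemma ubchain (hI : S_PINT) {a K c D R V β : ℝ} (hc : 0 < c) (hD : 1 ≤ D) (hR0 : 0 ≤ R) (hβ : 0 ≤ β) (hV : R + 2 ≤ V) {S : ℝ} (hS : 0 ≤ S)
    (k : ℕ) : ∀ w e : ℝ, 0 ≤ w → 0 < e → 2 ^ k * e ≤ 1 → ∃ w' ℓ₀ : ℝ, 0 ≤ w' ∧ 1 ≤ ℓ₀ ∧
      ∀ (X : ℂ → ℂ) (SF σ : ℝ) (Mf lf : ℝ → ℝ) (y₀ : ℝ), FamL X a K V SF c D σ Mf lf y₀ → S ≤ SF → ℓ₀ ≤ lf y₀ →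
      UB X k e β R Mf lf σ y₀ S (S + w' * lf y₀) → UB X 0 (2 ^ k * e) β R Mf lf σ y₀ S (S + w * lf y₀) := by
  induction k with
  | zero =>
    intro w e hw _ _
    refine ⟨w, 1, hw, le_rfl, fun X SF σ Mf lf y₀ _ _ _ h => ?_⟩
    simpa using h
  | succ k ih =>
    intro w e hw he h2e
    have hp : (1 : ℝ) ≤ 2 ^ k := one_le_pow₀ (by norm_num)
    have h2e' : 2 ^ k * (2 * e) ≤ 1 := by rw [pow_succ] at h2e; linarith
    have he1 : 2 * e ≤ 1 := by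
      have := mul_le_mul_of_nonneg_right hp (by linarith : 0 ≤ 2 * e)
      linarith
    obtain ⟨w₁, ℓ₁, hw₁, hℓ₁, H⟩ := ih w (2 * e) hw (by linarith) h2e'
    obtain ⟨B, L2, hB, hL2, H2⟩ := hI a K c D R V 1 k hc hD hR0 one_pos hV
    obtain ⟨L4, hL4, H4⟩ := lfcmpL (D := D) (Q := S + w₁) hD (by linarith)
    refine ⟨w₁ + 2 * B, max (max ℓ₁ L4) (2 * max L2 (Real.exp (1 / e))), by linarith, hℓ₁.trans ((le_max_left _ _).trans (le_max_left _ _)),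
      fun X SF σ Mf lf y₀ F hSF hL hU => ?_⟩
    have hL1 : ℓ₁ ≤ lf y₀ := ((le_max_left _ _).trans (le_max_left _ _)).trans hL
    have hL4' : L4 ≤ lf y₀ := ((le_max_right _ _).trans (le_max_left _ _)).trans hL
    have hLm : 2 * max L2 (Real.exp (1 / e)) ≤ lf y₀ := (le_max_right _ _).trans hL
    have hm2 : L2 ≤ max L2 (Real.exp (1 / e)) := le_max_left _ _
    have hm3 : Real.exp (1 / e) ≤ max L2 (Real.exp (1 / e)) := le_max_right _ _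
    have hLp : 1 ≤ lf y₀ := hL4.trans hL4'
    have e1 : (2 : ℝ) ^ (k + 1) * e = 2 ^ k * (2 * e) := by rw [pow_succ]; ring
    rw [e1]
    refine H X SF σ Mf lf y₀ F hSF hL1 fun y h1 h2 u hu1 hu2 => ?_
    have hwin : lf y₀ / 2 ≤ lf y ∧ lf y ≤ 2 * lf y₀ := by
      refine H4 X a K V SF c σ Mf lf y₀ (by linarith) F hL4' y (by linarith) ?_
      rw [← F.abs, abs_le]
      have g1 := mul_nonneg hw₁ (by linarith : 0 ≤ lf y₀)
      have g2 := mul_nonneg hS (by linarith : 0 ≤ lf y₀)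
      have e2 : (S + w₁) * lf y₀ = S * lf y₀ + w₁ * lf y₀ := by ring
      constructor <;> linarith
    obtain ⟨g1, g2⟩ := hwin
    have hlog : 1 / Real.log (lf y) ≤ e := by
      have h3 : Real.exp (1 / e) ≤ lf y := by linarith
      have h4 : 1 / e ≤ Real.log (lf y) := (Real.le_log_iff_exp_le (lt_of_lt_of_le (Real.exp_pos _) h3)).2 h3
      have h5 : 0 < 1 / e := by positivity
      rw [div_le_iff₀ (lt_of_lt_of_le h5 h4)]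
      rw [div_le_iff₀ he] at h4
      linarith
    refine H2 X SF σ Mf lf y₀ F y (by linarith) (by linarith) u e (by linarith) hu2 hlog (by linarith) fun τ hτ0 hτ1 => ?_
    have hσ : σ * (y + σ * τ - y₀) = σ * (y - y₀) + τ := by
      have : σ * σ = 1 := by rcases F.sg with h | h <;> rw [h] <;> norm_num
      linear_combination τ * this
    have hτ2 : τ ≤ 2 * B * lf y₀ := by
      have := mul_le_mul_of_nonneg_left g2 (by linarith : 0 ≤ B)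
      linarith
    exact hU (y + σ * τ) (by rw [hσ]; linarith) (by rw [hσ]; linarith) u hu1 hu2

/-- few zeros of `X^{(k)}` near `y₀` give a small value at `1/2 + i y₀` -/
def S_BM1 : Prop := ∀ (a : ℝ) (k : ℕ) (ε : ℝ), 1 ≤ a → 0 < ε → ∃ S V R α : ℝ, 0 < S ∧ 2 ≤ V ∧ 0 < α ∧ α ≤ 1 / 4 ∧ a + k ≤ R ∧
  ∀ K c D : ℝ, 0 < c → 1 ≤ D → ∃ B κ ℓ₀ : ℝ, 0 < B ∧ 0 < κ ∧ 3 ≤ ℓ₀ ∧
  ∀ (X : ℂ → ℂ) (σ : ℝ) (Mf lf : ℝ → ℝ) (y₀ : ℝ), FamL X a K V S c D σ Mf lf y₀ → ℓ₀ ≤ lf y₀ →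
  (∀ y : ℝ, |y - y₀| ≤ B * lf y₀ → FewZ (iteratedDeriv k X) α R (κ * lf y) y) →
  ‖X (pt y₀ 0 0)‖ ≤ Mf y₀ * Real.exp (ε * lf y₀)

/-- small values near `y₀` give few zeros of `X^{(k)}` near `y₀` -/
def S_BM2 : Prop := ∀ (a : ℝ) (k : ℕ) (α e : ℝ), 1 ≤ a → 0 < α → α ≤ 1 / 4 → 0 < e → ∃ S V W η : ℝ, 0 < S ∧ 2 ≤ V ∧ 0 < W ∧ 0 < η ∧
  ∀ K c D : ℝ, 0 < c → 1 ≤ D → ∃ ℓ₀ : ℝ, 3 ≤ ℓ₀ ∧
  ∀ (X : ℂ → ℂ) (σ : ℝ) (Mf lf : ℝ → ℝ) (y₀ : ℝ), FamL X a K V S c D σ Mf lf y₀ → ℓ₀ ≤ lf y₀ →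
  (∀ x : ℝ, |x - y₀| ≤ W → ‖X (pt x 0 0)‖ ≤ Mf x * Real.exp (η * lf x)) →
  ∀ T : Finset ℂ, (∀ s ∈ T, iteratedDeriv k X s = 0 ∧ 1 / 2 + α ≤ s.re ∧ s.re ≤ 1 / 2 + a + k ∧ |s.im - y₀| ≤ 1) →
    ∑ s ∈ T, (analyticOrderNatAt (iteratedDeriv k X) s : ℝ) ≤ e * lf y₀

theorem bm1 (h1 : S_B1) (hI : S_PINT) (hLn : S_PLINE2) : S_BM1 := by
  intro a k ε ha hε
  have hk0 : (0 : ℝ) ≤ k := Nat.cast_nonneg k
  obtain ⟨R, hRd⟩ : ∃ R : ℝ, R = 3 * (a + k + 4) := ⟨_, rfl⟩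
  have hR0 : 0 ≤ R := by rw [hRd]; linarith
  obtain ⟨S₀, hS₀d⟩ : ∃ S₀ : ℝ, S₀ = 2 * (max 1 a + 1) := ⟨_, rfl⟩
  have hS₀ : 0 < S₀ := by
    rw [hS₀d]
    have := le_max_left 1 a
    linarith
  obtain ⟨V, hVd⟩ : ∃ V : ℝ, V = 2 * R + k + 4 + S₀ + a + 2 := ⟨_, rfl⟩
  obtain ⟨α, hαd⟩ : ∃ α : ℝ, α = min (1 / 4) (ε / 20) := ⟨_, rfl⟩
  have hα : 0 < α := by rw [hαd]; exact lt_min (by norm_num) (by positivity)
  have hα4 : α ≤ 1 / 4 := by rw [hαd]; exact min_le_left _ _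
  have hα20 : α ≤ ε / 20 := by rw [hαd]; exact min_le_right _ _
  refine ⟨S₀, V, R, α, hS₀, by linarith, hα, hα4, by rw [hRd]; linarith, fun K c D hc hD => ?_⟩
  obtain ⟨e', he'd⟩ : ∃ e' : ℝ, e' = min ε 1 / 4 := ⟨_, rfl⟩
  have he' : 0 < e' := by rw [he'd]; have := lt_min hε one_pos; positivity
  have he'1 : e' ≤ 1 / 4 := by rw [he'd]; have := min_le_right ε 1; linarith
  have he'2 : e' ≤ ε / 4 := by rw [he'd]; have := min_le_left ε 1; linarith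
  have h2k : (0 : ℝ) < 2 ^ k := by positivity
  obtain ⟨e, hed⟩ : ∃ e : ℝ, e = e' / 2 ^ k := ⟨_, rfl⟩
  have he : 0 < e := by rw [hed]; positivity
  have h2e : 2 ^ k * e = e' := by rw [hed]; field_simp
  obtain ⟨κ, ℓ₁, hκ, hℓ₁, H1⟩ := h1 a K k R V α e (by linarith) hα hα4 he hRd.ge (by linarith)
  obtain ⟨w', ℓ₂, hw', hℓ₂, HC⟩ := ubchain hI (a := a) (K := K) (R := R) (V := V) (β := 2 * α) hc hD hR0 (by linarith) (by linarith) hS₀.le k 0 e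
    le_rfl he (by rw [h2e]; linarith)
  obtain ⟨ℓ₃, hℓ₃, HL⟩ := hLn a K 1 one_pos D V hD (by linarith)
  obtain ⟨ℓ₄, hℓ₄, H4⟩ := lfcmpL (D := D) (Q := S₀ + w') hD (by linarith)
  refine ⟨S₀ + w', κ, max (max (2 * ℓ₁) ℓ₂) (max (max ℓ₃ ℓ₄) (Real.exp (1 / e'))), by linarith, hκ,
    (le_trans (by linarith) ((le_max_left _ _).trans (le_max_left _ _))), fun X σ Mf lf y₀ F hL hZ => ?_⟩
  have hL1 : 2 * ℓ₁ ≤ lf y₀ := ((le_max_left _ _).trans (le_max_left _ _)).trans hL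
  have hL2 : ℓ₂ ≤ lf y₀ := ((le_max_right _ _).trans (le_max_left _ _)).trans hL
  have hLr : max (max ℓ₃ ℓ₄) (Real.exp (1 / e')) ≤ lf y₀ := (le_max_right _ _).trans hL
  have hL3 : ℓ₃ ≤ lf y₀ := ((le_max_left _ _).trans (le_max_left _ _)).trans hLr
  have hL4 : ℓ₄ ≤ lf y₀ := ((le_max_right _ _).trans (le_max_left _ _)).trans hLr
  have hLe : Real.exp (1 / e') ≤ lf y₀ := (le_max_right _ _).trans hLr
  have hLp : 1 ≤ lf y₀ := by linarith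
  have hU : UB X k e (2 * α) R Mf lf σ y₀ S₀ (S₀ + w' * lf y₀) := by
    intro y h1 h2 u hu1 hu2
    have h3 : |y - y₀| ≤ S₀ + w' * lf y₀ := by
      rw [← F.abs, abs_le]
      have := mul_nonneg hw' (by linarith : 0 ≤ lf y₀)
      constructor <;> linarith
    have h3' : S₀ ≤ S₀ * lf y₀ := le_mul_of_one_le_right hS₀.le hLp
    have e2 : (S₀ + w') * lf y₀ = S₀ * lf y₀ + w' * lf y₀ := by ring
    have h4 : |y - y₀| ≤ (S₀ + w') * lf y₀ := by rw [e2]; linarith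
    obtain ⟨g1, g2⟩ := H4 X a K V _ c σ Mf lf y₀ hS₀.le F hL4 y h1 (by linarith)
    have h5 := H1 X (Mf y) (lf y) y (F.base y h1) (by linarith) (hZ y h4) (pt y u 0) (by rw [pt_re]; linarith)
      (by rw [pt_re]; linarith) (by simp)
    rw [pt_re] at h5
    have e3 : (1 : ℝ) / 2 + u - 1 / 2 + e = u + e := by ring
    rwa [e3] at h5
  have hU0 := HC X S₀ σ Mf lf y₀ F le_rfl hL2 hU
  rw [h2e, zero_mul, add_zero] at hU0
  have OB0 := F.base y₀ (by rw [sub_self, mul_zero]; linarith)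
  have hlog : 1 / Real.log (lf y₀) ≤ e' := by
    have h4 : 1 / e' ≤ Real.log (lf y₀) := (Real.le_log_iff_exp_le (lt_of_lt_of_le (Real.exp_pos _) hLe)).2 hLe
    have h5 : 0 < 1 / e' := by positivity
    rw [div_le_iff₀ (lt_of_lt_of_le h5 h4)]
    rw [div_le_iff₀ he'] at h4
    linarith
  have h6 := HL X S₀ c σ Mf lf y₀ (by rw [hS₀d]) F hL3 (2 * α) e' (by linarith) (by linarith) hlog (by linarith) fun y hy => by
    have hy' : |σ * (y - y₀)| ≤ S₀ := by rw [F.abs, hS₀d]; exact hy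
    obtain ⟨s1, s2⟩ := abs_le.1 hy'
    have := hU0 y s1 s2 (2 * α) le_rfl (by rw [hRd]; linarith)
    rwa [iteratedDeriv_zero] at this
  refine h6.trans (mul_le_mul_of_nonneg_left (Real.exp_le_exp.2 ?_) OB0.hM.le)
  rw [mul_comm ε]
  exact mul_le_mul_of_nonneg_left (by linarith) (by linarith)

theorem bm2 (h2 : S_B2) (h3 : S_B3) : S_BM2 := by
  intro a k α e ha hα hα4 he
  have hk0 : (0 : ℝ) ≤ k := Nat.cast_nonneg k
  obtain ⟨R, η, hR, haR, hη, H2⟩ := h2 a k α e (by linarith) hα hα4 he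
  obtain ⟨W, η₁, V₀, hW, hη₁, H3⟩ := h3 a R η (by linarith) hR hη
  refine ⟨W, max (2 * R + k + 4) V₀, W, η₁, hW, le_trans (by linarith) (le_max_left _ _), hW, hη₁, fun K c D hc hD => ?_⟩
  obtain ⟨ℓa, hℓa, H2⟩ := H2 K (max (2 * R + k + 4) V₀) (le_max_left _ _)
  obtain ⟨ℓb, hℓb, H3⟩ := H3 K (max (2 * R + k + 4) V₀) D (le_max_right _ _) hD
  refine ⟨max ℓa ℓb, hℓa.trans (le_max_left _ _), fun X σ Mf lf y₀ F hL hX T hT => ?_⟩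
  refine H2 X (Mf y₀) (lf y₀) y₀ (F.base y₀ (by rw [sub_self, mul_zero]; linarith)) ((le_max_left _ _).trans hL)
    (H3 X W c σ Mf lf y₀ le_rfl F ((le_max_right _ _).trans hL) hX) T hT

end Pool.Agent.H477.O.B
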