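import Pool.Agent.H477.O.Datum3
import Pool.Agent.H477.O.Main4
import Pool.Agent.H487.GL.Family

set_option autoImplicit false

/-!
# Project B: Backlund's criterion for the derivatives of standard L-functions
-/

open Complex Filter Topology Metric Set MeasureTheory
open scoped ComplexConjugate

namespace Pool.Agent.H477.O.B

open Pool.Agent.H487 H353.E H353.F Pool.Agent.H477.O.Q

/-- from windows of length two to longer ones -/
lemma cover {f : ℂ → ℝ} {P : ℂ → Prop} {A y b : ℝ} (n : ℕ) (hn : A + 1 ≤ n)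
    (H : ∀ w : ℝ, |w - y| ≤ n → ∀ T : Finset ℂ, (∀ s ∈ T, P s ∧ |s.im - w| ≤ 1) → ∑ s ∈ T, f s ≤ b)
    (T : Finset ℂ) (hT : ∀ s ∈ T, P s ∧ |s.im - y| ≤ A) : ∑ s ∈ T, f s ≤ (2 * n + 1) * b := by
  classical
  set k : ℂ → ℕ := fun s => (round (s.im - y) + n).toNat with hk
  have hkr : ∀ s ∈ T, |round (s.im - y)| ≤ (n : ℤ) := by
    intro s hs
    have h1 := (hT s hs).2
    have h2 := abs_sub_round (s.im - y)
    have h3 : |((round (s.im - y) : ℤ) : ℝ)| ≤ n := by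
      have h4 := abs_sub_abs_le_abs_sub ((round (s.im - y) : ℤ) : ℝ) (s.im - y)
      rw [abs_sub_comm ((round (s.im - y) : ℤ) : ℝ) (s.im - y)] at h4
      linarith
    exact_mod_cast h3
  have hmaps : ∀ s ∈ T, k s ∈ Finset.range (2 * n + 1) := by
    intro s hs
    have h1 := abs_le.mp (hkr s hs)
    rw [Finset.mem_range]
    simp only [hk]
    omega
  rw [← Finset.sum_fiberwise_of_maps_to hmaps]
  have hterm : ∀ j ∈ Finset.range (2 * n + 1), ∑ s ∈ T.filter (fun s => k s = j), f s ≤ b := by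
    intro j hj
    rw [Finset.mem_range] at hj
    have hj' : (j : ℝ) ≤ 2 * n := by exact_mod_cast (by omega : j ≤ 2 * n)
    have hj0 : (0 : ℝ) ≤ j := Nat.cast_nonneg j
    refine H (y + ((j : ℝ) - n)) (by rw [add_sub_cancel_left, abs_le]; constructor <;> linarith) _ fun s hs => ?_
    rw [Finset.mem_filter] at hs
    obtain ⟨hs1, hs2⟩ := hs
    have h4 := abs_le.mp (hkr s hs1)
    have h5 : round (s.im - y) = (j : ℤ) - n := by
      simp only [hk] at hs2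
      omega
    have h6 := abs_sub_round (s.im - y)
    rw [h5] at h6
    push_cast at h6
    refine ⟨(hT s hs1).1, ?_⟩
    have e : s.im - (y + ((j : ℝ) - n)) = s.im - y - (j - n) := by ring
    rw [e]
    linarith
  refine (Finset.sum_le_sum hterm).trans ?_
  rw [Finset.sum_const, Finset.card_range, nsmul_eq_mul]
  push_cast
  exact le_rfl

/-- **few zeros of the derivative ⟹ the L-function is small** -/
theorem gl1 (h1 : S_BM1) (hP : S_PFAR) (m : ℕ) (hm : 1 ≤ m) (k : ℕ) {R₀ ε : ℝ} (hR₀ : 0 ≤ R₀) (hε : 0 < ε) :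
    ∃ B κ α C₀ : ℝ, 0 < B ∧ 0 < κ ∧ 0 < α ∧ 1 < C₀ ∧ ∀ (N : ℝ) (μ : Fin m → ℂ) (β : Fin m → ℕ → ℂ) (w : ℂ) (Λ : ℂ → ℂ),
      DatumT (1 / 2) N μ β w Λ → (∀ j, -R₀ ≤ (μ j).re) → ∀ y : ℝ, ((∀ j, (μ j).im ≤ y) ∨ ∀ j, y ≤ (μ j).im) → C₀ ≤ NB.cond N μ y →
      (∀ v : ℝ, |v - y| ≤ B * Real.log (NB.cond N μ y) → ∀ T : Finset ℂ,
        (∀ s ∈ T, (iteratedDeriv k (NB.xi N Λ) s = 0 ∧ 1 / 2 + α ≤ s.re ∧ s.re ≤ 5 / 2 + k) ∧ |s.im - v| ≤ 1) →
        ∑ s ∈ T, (analyticOrderNatAt (iteratedDeriv k (NB.xi N Λ)) s : ℝ) ≤ κ * Real.log (NB.cond N μ y)) →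
      ‖GL.Lf μ Λ (1 / 2 + y * I)‖ ≤ Real.exp (ε * Real.log (NB.cond N μ y)) := by
  obtain ⟨K, HK⟩ := NZ.datum_base m hm (θ := 1 / 2) (by norm_num) le_rfl
  obtain ⟨S, V, R, α, hS, hV, hα, hα4, haR, HS⟩ := h1 2 k ε (by norm_num) hε
  obtain ⟨c, D₁, hc, hD₁, HM⟩ := mb_dec m hm hR₀ hS.le
  have hDm : (1 : ℝ) ≤ max D₁ m := hD₁.trans (le_max_left _ _)
  have hk0 : (0 : ℝ) ≤ k := Nat.cast_nonneg k
  have hR0 : 0 ≤ R := by linarith
  obtain ⟨B, κ, ℓ₀, hB, hκ, hℓ₀, HO⟩ := HS K c (max D₁ m) hc hDm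
  obtain ⟨K', ℓ₁, hK', hℓ₁, HF⟩ := hP 2 K k R R (2 * R + k + 2) hR0 hR0 (by linarith)
  obtain ⟨E, hE, HE⟩ := EL.lf_of_xi m hm
  have hlogE : 0 ≤ Real.log E := Real.log_nonneg hE
  obtain ⟨ℓ₂, hℓ₂, HL⟩ := ev_log_lin (D := m) (Q := B) (Nat.cast_nonneg m) hB.le
  obtain ⟨n, hn⟩ := exists_nat_ge (R + 1)
  have hn0 : (0 : ℝ) ≤ n := Nat.cast_nonneg n
  refine ⟨B + n, κ / (4 * (2 * n + 1)), α, Real.exp (2 * ℓ₀ + 4 * ℓ₁ + 2 * ℓ₂ + 2 * Real.log E / ε + 1), by positivity, by positivity, hα,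
    Real.one_lt_exp_iff.2 (by positivity), fun N μ β w Λ d hre y hside hC hZ => ?_⟩
  have hN := d.one_le
  have hC1 := NB.cond_one hN μ y
  have hC0 : 0 < NB.cond N μ y := by linarith
  have hlogC : 2 * ℓ₀ + 4 * ℓ₁ + 2 * ℓ₂ + 2 * Real.log E / ε + 1 ≤ Real.log (NB.cond N μ y) := (Real.le_log_iff_exp_le hC0).2 hC
  have hEε : 0 ≤ 2 * Real.log E / ε := by positivity
  obtain ⟨σ, hσ, hσs⟩ : ∃ σ : ℝ, (σ = 1 ∨ σ = -1) ∧ ∀ j, σ * (μ j).im ≤ σ * y := by
    rcases hside with h | h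
    · exact ⟨1, Or.inl rfl, fun j => by rw [one_mul, one_mul]; exact h j⟩
    · exact ⟨-1, Or.inr rfl, fun j => by linarith [h j]⟩
  have F : FamL (NB.xi N Λ) 2 K V S c (max D₁ m) σ (NZ.Mb N μ) (fun y => 1 / 2 * Real.log (NB.cond N μ y)) y := by
    refine ⟨fun y' _ => obl_of (ob_of (HK N μ β w Λ d y')), hσ, hc, hDm, fun y' τ h1 h2 => ?_, fun y' y'' _ _ => ?_⟩
    · refine (HM N μ y σ hN d.re_le hre hσ hσs y' τ h1 h2).trans ?_
      have hMb : 0 ≤ NZ.Mb N μ y' := by unfold NZ.Mb; positivity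
      have := mul_le_mul_of_nonneg_right (le_max_left D₁ (m : ℝ)) hMb
      exact mul_le_mul_of_nonneg_right this (Real.exp_pos _).le
    · have h1 := cond_lip hN μ y' y''
      have h2 : 0 ≤ Real.log (1 + |y'' - y'|) := Real.log_nonneg (by linarith [abs_nonneg (y'' - y')])
      have h3 : (m : ℝ) * Real.log (1 + |y'' - y'|) ≤ max D₁ m * Real.log (1 + |y'' - y'|) :=
        mul_le_mul_of_nonneg_right (le_max_right _ _) h2
      have h4 : 0 ≤ (m : ℝ) * Real.log (1 + |y'' - y'|) := mul_nonneg (Nat.cast_nonneg m) h2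
      show 1 / 2 * Real.log (NB.cond N μ y'') ≤ 1 / 2 * Real.log (NB.cond N μ y') + max D₁ m * Real.log (1 + |y'' - y'|)
      linarith
  have h2 := HO (NB.xi N Λ) σ (NZ.Mb N μ) (fun y => 1 / 2 * Real.log (NB.cond N μ y)) y F
    (by show ℓ₀ ≤ 1 / 2 * Real.log (NB.cond N μ y); linarith) fun v hv => by
      have hv' : |v - y| ≤ B * (1 / 2 * Real.log (NB.cond N μ y)) := hv
      -- the conductor at `v`
      have g1 := cond_lip hN μ v y
      have g2 : (m : ℝ) * Real.log (1 + |y - v|) ≤ 1 / 2 * Real.log (NB.cond N μ y) / 2 := by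
        refine le_trans (mul_le_mul_of_nonneg_left ?_ (Nat.cast_nonneg m)) (HL (1 / 2 * Real.log (NB.cond N μ y)) (by linarith))
        refine Real.log_le_log (by positivity) ?_
        rw [abs_sub_comm y v]
        linarith
      have g3 : 1 / 2 * Real.log (NB.cond N μ y) / 2 ≤ 1 / 2 * Real.log (NB.cond N μ v) := by linarith
      intro T hT
      have hOB := obl_of (V := 2 * R + k + 2) (ob_of (HK N μ β w Λ d v))
      have h3 := cover (f := fun s => (analyticOrderNatAt (iteratedDeriv k (NB.xi N Λ)) s : ℝ))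
        (P := fun s => iteratedDeriv k (NB.xi N Λ) s = 0 ∧ 1 / 2 + α ≤ s.re ∧ s.re ≤ 5 / 2 + k) (A := R) (y := v)
        (b := κ / (4 * (2 * n + 1)) * Real.log (NB.cond N μ y)) n hn
        (fun x hx T' hT' => hZ x (by
          have e1 : x - y = (x - v) + (v - y) := by ring
          rw [e1]
          refine (abs_add_le _ _).trans ?_
          have h5 : (n : ℝ) * 1 ≤ n * Real.log (NB.cond N μ y) := mul_le_mul_of_nonneg_left (by linarith) hn0
          have h6 : 0 ≤ B * Real.log (NB.cond N μ y) := mul_nonneg hB.le (by linarith)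
          have e2 : (B + n) * Real.log (NB.cond N μ y) = B * Real.log (NB.cond N μ y) + n * Real.log (NB.cond N μ y) := by ring
          rw [e2]
          linarith) T' hT') T (fun s hs => by
          obtain ⟨t1, t2, t3, t4⟩ := hT s hs
          refine ⟨⟨t1, t2, ?_⟩, t4⟩
          by_contra hcon
          push Not at hcon
          exact (HF (NB.xi N Λ) _ _ v hOB (by linarith) s (by linarith) t3 t4).1 t1)
      refine h3.trans ?_
      show (2 * (n : ℝ) + 1) * (κ / (4 * (2 * n + 1)) * Real.log (NB.cond N μ y)) ≤ κ * (1 / 2 * Real.log (NB.cond N μ v))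
      have e3 : (2 * (n : ℝ) + 1) * (κ / (4 * (2 * n + 1)) * Real.log (NB.cond N μ y)) = κ * (1 / 2 * Real.log (NB.cond N μ y) / 2) := by
        field_simp
        ring
      rw [e3]
      exact mul_le_mul_of_nonneg_left g3 hκ.le
  have h3 := HE N μ hN d.re_le Λ y 0 (Real.exp (ε * (1 / 2 * Real.log (NB.cond N μ y)))) le_rfl (by norm_num) (by
    rw [mul_zero, Real.exp_zero, mul_one]
    exact h2)
  have e1 : NZ.pt y 0 0 = 1 / 2 + y * I := by simp [NZ.pt]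
  rw [e1] at h3
  refine h3.trans ?_
  have hE0 : 0 < E := by linarith
  rw [← Real.exp_log hE0, ← Real.exp_add]
  refine Real.exp_le_exp.2 ?_
  have h4 : 2 * Real.log E / ε ≤ Real.log (NB.cond N μ y) := by linarith
  rw [div_le_iff₀ hε] at h4
  linarith

/-- **the L-function is small ⟹ few zeros of the derivatives** -/
theorem gl2 (h2 : S_B2) (m : ℕ) (hm : 1 ≤ m) (k : ℕ) {α η : ℝ} (hα : 0 < α) (hα4 : α ≤ 1 / 4) (hη : 0 < η) :
    ∃ A δ C₀ : ℝ, 0 < A ∧ 0 < δ ∧ 1 < C₀ ∧ ∀ (N : ℝ) (μ : Fin m → ℂ) (β : Fin m → ℕ → ℂ) (w : ℂ) (Λ : ℂ → ℂ),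
      DatumT (1 / 2) N μ β w Λ → ∀ y : ℝ, C₀ ≤ NB.cond N μ y →
      (∀ v : ℝ, |v - y| ≤ A → ‖GL.Lf μ Λ (1 / 2 + v * I)‖ ≤ Real.exp (δ * Real.log (NB.cond N μ y))) →
      ∀ T : Finset ℂ, (∀ s ∈ T, iteratedDeriv k (NB.xi N Λ) s = 0 ∧ 1 / 2 + α ≤ s.re ∧ s.re ≤ 5 / 2 + k ∧ |s.im - y| ≤ 1) →
        ∑ s ∈ T, (analyticOrderNatAt (iteratedDeriv k (NB.xi N Λ)) s : ℝ) ≤ η * Real.log (NB.cond N μ y) := by
  have hm' : (1 : ℝ) ≤ m := by exact_mod_cast hm
  obtain ⟨K, HK⟩ := NZ.datum_base m hm (θ := 1 / 2) (by norm_num) le_rfl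
  obtain ⟨R, η₂, hR, haR, hη₂, H2⟩ := h2 2 k α η (by norm_num) hα hα4 hη
  obtain ⟨ℓ₂, hℓ₂, H2⟩ := H2 (max K 1) (2 * R + k + 4) le_rfl
  obtain ⟨A', δ₂, L2, hA', hδ₂, hL2, H3⟩ := GL.lin_of_line m (max K 1) R (η₂ / 2) (le_max_right _ _) hR.le (by positivity)
  set E : ℝ := (2 * Real.pi) ^ m * Real.exp (6 * m * A') with hE
  have hpi := Real.pi_pos
  have hE0 : 0 < E := by positivity
  have hE1 : 1 ≤ E := by
    have h1 : 1 ≤ (2 * Real.pi) ^ m := one_le_pow₀ (by linarith [Real.pi_gt_three])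
    have h2 : 1 ≤ Real.exp (6 * m * A') := Real.one_le_exp (by positivity)
    exact one_le_mul_of_one_le_of_one_le h1 h2
  have hlogE : 0 ≤ Real.log E := Real.log_nonneg hE1
  have hK1 : 0 ≤ max K 1 := zero_le_one.trans (le_max_right _ _)
  refine ⟨A', δ₂ / 4, Real.exp (2 * ℓ₂ + 2 * L2 + 4 * Real.log E / δ₂ + 2 * (max K 1 * (1 + R ^ 2 + R ^ 2)) / η₂), hA', by positivity,
    Real.one_lt_exp_iff.mpr (by positivity), fun N μ β w Λ d y hC hb T hT => ?_⟩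
  have B := HK N μ β w Λ d y
  have hN := d.one_le
  have hc0 : 0 < NB.cond N μ y := by linarith [NB.cond_one hN μ y]
  set L : ℝ := Real.log (NB.cond N μ y) with hL
  have hLl : 2 * ℓ₂ + 2 * L2 + 4 * Real.log E / δ₂ + 2 * (max K 1 * (1 + R ^ 2 + R ^ 2)) / η₂ ≤ L := by
    rw [hL, Real.le_log_iff_exp_le hc0]
    exact hC
  have hEδ : 0 ≤ 4 * Real.log E / δ₂ := by positivity
  have hKη : 0 ≤ 2 * (max K 1 * (1 + R ^ 2 + R ^ 2)) / η₂ := by positivity
  have hL0 : 0 < L := by linarith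
  have hB : NZ.Base (NB.xi N Λ) 2 (max K 1) (NZ.Mb N μ y) (1 / 2 * L) y := by
    rw [max_eq_left B.hK]
    exact B
  have hLin := H3 (NB.xi N Λ) (NZ.Mb N μ y) (1 / 2 * L) y hB (by linarith) μ d.re_le (fun v hv => by
    have h1 := GL.line_of_lf hm hN d.re_le Λ y v _ (hb (y + v) (by rw [add_sub_cancel_left]; exact hv))
    refine h1.trans ?_
    refine mul_le_mul_of_nonneg_left ?_ (mul_nonneg B.hM.le (Finset.prod_nonneg fun j _ => by positivity))
    have h2 : (2 * Real.pi) ^ m * Real.exp (6 * m * |v|) ≤ E := by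
      rw [hE]
      gcongr
    calc (2 * Real.pi) ^ m * Real.exp (6 * m * |v|) * Real.exp (δ₂ / 4 * L) ≤ E * Real.exp (δ₂ / 4 * L) := by gcongr
      _ = Real.exp (Real.log E + δ₂ / 4 * L) := by rw [Real.exp_add, Real.exp_log hE0]
      _ ≤ _ := by
        refine Real.exp_le_exp.mpr ?_
        have h3 : 4 * Real.log E / δ₂ ≤ L := by linarith
        rw [div_le_iff₀ hδ₂] at h3
        linarith)
  have hM := B.hM
  have h5 := H2 (NB.xi N Λ) (NZ.Mb N μ y) (1 / 2 * L) y (obl_of (ob_of hB)) (by linarith) (fun z hz1 hz2 hz3 => ?_) T (fun s hs => by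
    obtain ⟨t1, t2, t3, t4⟩ := hT s hs
    exact ⟨t1, t2, by linarith, t4⟩)
  · have : 0 ≤ η * L := by positivity
    linarith
  · have e1 := pt_eq y z
    have hu0 : 0 ≤ z.re - 1 / 2 := by linarith
    rcases le_or_gt z.re (1 / 2 + 2) with h | h
    · have h6 := hLin (z.re - 1 / 2) (z.im - y) (by rw [abs_of_nonneg hu0]; linarith) hz3
      rw [abs_of_nonneg hu0] at h6
      have h7 : ‖NB.xi N Λ z‖ ≤ NZ.Mb N μ y * Real.exp (1 / 2 * L * (z.re - 1 / 2) + η₂ / 2 * (1 / 2 * L)) := by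
        have e2 : NZ.pt y (z.re - 1 / 2) (z.im - y) = z := e1.symm
        rwa [e2] at h6
      refine h7.trans (mul_le_mul_of_nonneg_left (Real.exp_le_exp.2 ?_) hM.le)
      have : 0 ≤ η₂ * L := by positivity
      linarith
    · have h6 := (ob_of hB).up (z.re - 1 / 2) (z.im - y)
      rw [← e1, abs_of_nonneg hu0, max_eq_left (by linarith : (2 : ℝ) ≤ z.re - 1 / 2)] at h6
      refine h6.trans (mul_le_mul_of_nonneg_left (Real.exp_le_exp.2 ?_) hM.le)
      have h8 : (z.re - 1 / 2) ^ 2 ≤ R ^ 2 := pow_le_pow_left₀ hu0 (by linarith) 2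
      have h9 : (z.im - y) ^ 2 ≤ R ^ 2 := by
        rw [← sq_abs (z.im - y)]
        exact pow_le_pow_left₀ (abs_nonneg _) hz3 2
      have h10 : max K 1 * (1 + (z.re - 1 / 2) ^ 2 + (z.im - y) ^ 2) ≤ max K 1 * (1 + R ^ 2 + R ^ 2) :=
        mul_le_mul_of_nonneg_left (by linarith) hK1
      have h11 : 2 * (max K 1 * (1 + R ^ 2 + R ^ 2)) / η₂ ≤ L := by linarith
      rw [div_le_iff₀ hη₂] at h11
      linarith

end Pool.Agent.H477.O.B
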