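import Pool.Agent.H477.O.DatumB

set_option autoImplicit false

/-!
# Project B: families of L-functions
-/

open Complex Filter Topology Metric Set MeasureTheory
open scoped ComplexConjugate

namespace Pool.Agent.H477.O.B

open Pool.Agent.H487 H353.E H353.F Pool.Agent.H477.O.Q

variable {ι : Type*} {m : ℕ} {N : ι → ℝ} {μ : ι → Fin m → ℂ} {β : ι → Fin m → ℕ → ℂ} {w : ι → ℂ} {Λ : ι → ℂ → ℂ}

/-- **few zeros of one derivative ⟹ Lindelöf** -/
theorem fam1 (h1 : S_BM1) (hP : S_PFAR) (hm : 1 ≤ m) (k : ℕ) {R₀ : ℝ} (hR₀ : 0 ≤ R₀) (d : ∀ i, DatumT (1 / 2) (N i) (μ i) (β i) (w i) (Λ i))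
    (hre : ∀ i j, -R₀ ≤ (μ i j).re) (him : ∀ i j, (μ i j).im = 0)
    (Z : ∀ α η : ℝ, 0 < α → 0 < η → ∃ C₀ : ℝ, ∀ i, ∀ y : ℝ, C₀ ≤ NB.cond (N i) (μ i) y →
      ∀ T : Finset ℂ, (∀ s ∈ T, iteratedDeriv k (NB.xi (N i) (Λ i)) s = 0 ∧ 1 / 2 + α ≤ s.re ∧ s.re ≤ 5 / 2 + k ∧ |s.im - y| ≤ 1) →
        ∑ s ∈ T, (analyticOrderNatAt (iteratedDeriv k (NB.xi (N i) (Λ i))) s : ℝ) ≤ η * Real.log (NB.cond (N i) (μ i) y)) {e : ℝ} (he : 0 < e) :
    ∃ B : ℝ, ∀ i y, ‖GL.Lf (μ i) (Λ i) (1 / 2 + (y : ℝ) * I)‖ ≤ B * (NB.cond (N i) (μ i) y) ^ e := by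
  obtain ⟨K, HK⟩ := NZ.datum_base m hm (θ := 1 / 2) (by norm_num) le_rfl
  obtain ⟨B, κ, α, C₁, hB, hκ, hα, hC₁, H⟩ := gl1 h1 hP m hm k hR₀ he
  obtain ⟨C₂, hZ⟩ := Z α (κ / 2) hα (by positivity)
  obtain ⟨ℓ₂, hℓ₂, HL⟩ := ev_log_lin (D := m) (Q := B) (Nat.cast_nonneg m) hB.le
  obtain ⟨C₃, hC₃d⟩ : ∃ C₃ : ℝ, C₃ = max C₁ (Real.exp (ℓ₂ + 2 * Real.log (max C₂ 1))) := ⟨_, rfl⟩
  have hC₃1 : C₁ ≤ C₃ := by rw [hC₃d]; exact le_max_left _ _
  refine ⟨max 1 (C₃ * Real.exp K), fun i y => ?_⟩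
  have hN := (d i).one_le
  have hc1 := NB.cond_one hN (μ i) y
  have hc0 : 0 < NB.cond (N i) (μ i) y := by linarith
  have hce : 1 ≤ (NB.cond (N i) (μ i) y) ^ e := Real.one_le_rpow hc1 he.le
  have hB' := HK (N i) (μ i) (β i) (w i) (Λ i) (d i) y
  rcases le_total C₃ (NB.cond (N i) (μ i) y) with h | h
  · have hL : ℓ₂ + 2 * Real.log (max C₂ 1) ≤ Real.log (NB.cond (N i) (μ i) y) := by
      rw [Real.le_log_iff_exp_le hc0]
      refine le_trans ?_ h
      rw [hC₃d]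
      exact le_max_right _ _
    have hlog2 : 0 ≤ Real.log (max C₂ 1) := Real.log_nonneg (le_max_right _ _)
    have h3 := H (N i) (μ i) (β i) (w i) (Λ i) (d i) (hre i) y
      (by
        rcases le_total 0 y with h0 | h0
        · exact Or.inl fun j => by rw [him]; exact h0
        · exact Or.inr fun j => by rw [him]; exact h0) (hC₃1.trans h) (fun v hv T hT => by
        have hcv := NB.cond_one hN (μ i) v
        have hlogle : Real.log (1 + |v - y|) ≤ Real.log (1 + (B + B * Real.log (NB.cond (N i) (μ i) y))) :=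
          Real.log_le_log (by positivity) (by linarith)
        have g0 : (m : ℝ) * Real.log (1 + |v - y|) ≤ Real.log (NB.cond (N i) (μ i) y) / 2 :=
          le_trans (mul_le_mul_of_nonneg_left hlogle (Nat.cast_nonneg m)) (HL _ (by linarith))
        have g1 := cond_lip hN (μ i) v y
        rw [abs_sub_comm] at g1
        have g2 := cond_lip hN (μ i) y v
        have g3 : Real.log (NB.cond (N i) (μ i) v) ≤ 2 * Real.log (NB.cond (N i) (μ i) y) := by linarith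
        have g4 : Real.log (max C₂ 1) ≤ Real.log (NB.cond (N i) (μ i) v) := by linarith
        have g5 : C₂ ≤ NB.cond (N i) (μ i) v := by
          refine (le_max_left C₂ 1).trans ?_
          exact (Real.log_le_log_iff (lt_of_lt_of_le one_pos (le_max_right _ _)) (by linarith)).1 g4
        refine (hZ i v g5 T fun s hs => ?_).trans ?_
        · obtain ⟨⟨t1, t2, t3⟩, t4⟩ := hT s hs
          exact ⟨t1, t2, t3, t4⟩
        · have := mul_le_mul_of_nonneg_left g3 (by linarith : 0 ≤ κ / 2)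
          linarith)
    refine h3.trans ?_
    rw [Real.rpow_def_of_pos hc0, mul_comm e]
    exact le_mul_of_one_le_left (Real.exp_pos _).le (le_max_left _ _)
  · have hM := hB'.hM
    have hlow := GL.mb_lf hN (d i).re_le (Λ i) y
    have ept : NZ.pt y 0 0 = 1 / 2 + (y : ℂ) * I := by unfold NZ.pt; push_cast; ring
    have h1 := hB'.up 0 0
    rw [abs_zero, max_eq_right (by norm_num : (0:ℝ) ≤ 2), ept] at h1
    have h2 : ‖GL.Lf (μ i) (Λ i) (1 / 2 + y * I)‖ ≤ NB.cond (N i) (μ i) y * Real.exp K := by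
      have h3 : ‖GL.Lf (μ i) (Λ i) (1 / 2 + y * I)‖ * NZ.Mb (N i) (μ i) y ≤ (NB.cond (N i) (μ i) y * Real.exp K) * NZ.Mb (N i) (μ i) y := by
        refine (hlow.trans h1).trans (le_of_eq ?_)
        have e2 : 1 / 2 * Real.log (NB.cond (N i) (μ i) y) * 2 + K * (1 + 0 ^ 2 + 0 ^ 2) = Real.log (NB.cond (N i) (μ i) y) + K := by ring
        rw [e2, Real.exp_add, Real.exp_log hc0]
        ring
      exact le_of_mul_le_mul_right h3 hM
    have hC3 : 0 < C₃ := by linarith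
    calc ‖GL.Lf (μ i) (Λ i) (1 / 2 + y * I)‖ ≤ NB.cond (N i) (μ i) y * Real.exp K := h2
      _ ≤ C₃ * Real.exp K := by gcongr
      _ ≤ max 1 (C₃ * Real.exp K) * 1 := by rw [mul_one]; exact le_max_right _ _
      _ ≤ _ := by gcongr

/-- **Lindelöf ⟹ few zeros of every derivative** -/
theorem fam2 (h2 : S_B2) (hm : 1 ≤ m) (k : ℕ) (d : ∀ i, DatumT (1 / 2) (N i) (μ i) (β i) (w i) (Λ i))
    (G : ∀ e : ℝ, 0 < e → ∃ B : ℝ, ∀ i y, ‖GL.Lf (μ i) (Λ i) (1 / 2 + (y : ℝ) * I)‖ ≤ B * (NB.cond (N i) (μ i) y) ^ e)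
    {α η : ℝ} (hα : 0 < α) (hη : 0 < η) :
    ∃ C₀ : ℝ, 1 < C₀ ∧ ∀ i, ∀ y : ℝ, C₀ ≤ NB.cond (N i) (μ i) y →
      ∀ T : Finset ℂ, (∀ s ∈ T, iteratedDeriv k (NB.xi (N i) (Λ i)) s = 0 ∧ 1 / 2 + α ≤ s.re ∧ s.re ≤ 5 / 2 + k ∧ |s.im - y| ≤ 1) →
        ∑ s ∈ T, (analyticOrderNatAt (iteratedDeriv k (NB.xi (N i) (Λ i))) s : ℝ) ≤ η * Real.log (NB.cond (N i) (μ i) y) := by
  obtain ⟨A, δ, C₀, hA, hδ, hC₀, H⟩ := gl2 h2 m hm k (α := min α (1 / 4)) (η := η) (lt_min hα (by norm_num)) (min_le_right _ _) hη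
  obtain ⟨B, hB⟩ := G (δ / 2) (by positivity)
  set b : ℝ := max B 1 with hb
  have hb1 : 1 ≤ b := le_max_right _ _
  have hlogb : 0 ≤ Real.log b := Real.log_nonneg hb1
  set E : ℝ := 2 / δ * Real.log b + m * A with hE
  refine ⟨max C₀ (Real.exp E), lt_max_of_lt_left hC₀, fun i y hC T hT => ?_⟩
  have hC1 : C₀ ≤ NB.cond (N i) (μ i) y := (le_max_left _ _).trans hC
  have hC3 : Real.exp E ≤ NB.cond (N i) (μ i) y := (le_max_right _ _).trans hC
  have hc0 : 0 < NB.cond (N i) (μ i) y := by linarith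
  refine H (N i) (μ i) (β i) (w i) (Λ i) (d i) y hC1 (fun v hv => ?_) T fun s hs => by
    obtain ⟨t1, t2, t3, t4⟩ := hT s hs
    exact ⟨t1, by linarith [min_le_left α (1 / 4)], t3, t4⟩
  have h1 := hB i v
  have hcv := NB.cond_one (d i).one_le (μ i) v
  have h2 := NZ.cond_shift (d i).one_le (μ i) y v
  have h3 : E ≤ Real.log (NB.cond (N i) (μ i) y) := by
    rw [Real.le_log_iff_exp_le hc0]
    exact hC3
  have h4 : (NB.cond (N i) (μ i) v) ^ (δ / 2) = Real.exp (Real.log (NB.cond (N i) (μ i) v) * (δ / 2)) :=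
    Real.rpow_def_of_pos (by linarith) _
  rw [h4] at h1
  refine h1.trans ?_
  calc B * Real.exp (Real.log (NB.cond (N i) (μ i) v) * (δ / 2)) ≤ b * Real.exp (Real.log (NB.cond (N i) (μ i) v) * (δ / 2)) := by
        exact mul_le_mul_of_nonneg_right (le_max_left _ _) (Real.exp_pos _).le
    _ = Real.exp (Real.log b + Real.log (NB.cond (N i) (μ i) v) * (δ / 2)) := by
        rw [Real.exp_add, Real.exp_log (by linarith)]
    _ ≤ _ := by
        refine Real.exp_le_exp.mpr ?_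
        have h5 : (m : ℝ) * |v - y| ≤ m * A := by gcongr
        have h6 : Real.log (NB.cond (N i) (μ i) v) * (δ / 2) ≤ (Real.log (NB.cond (N i) (μ i) y) + m * A) * (δ / 2) := by
          refine mul_le_mul_of_nonneg_right (by linarith) (by positivity)
        have h7 : E * (δ / 2) ≤ Real.log (NB.cond (N i) (μ i) y) * (δ / 2) := by gcongr
        have h8 : E * (δ / 2) = Real.log b + m * A * (δ / 2) := by
          rw [hE]
          field_simp
        linarith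

end Pool.Agent.H477.O.B
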