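import Pool.Agent.H477.O.Main2

set_option autoImplicit false

/-! # Project P, `S_PLINE`: from the lines at distance `δ` to the critical line

(adaptation of `Pool/Agent/H115/O/OLINE.lean`) -/

open Complex Filter Topology Metric Set MeasureTheory
open scoped ComplexConjugate

namespace Pool.Agent.H477.O.Line2

open Pool.Agent.H477.O

theorem pt_shift (y u v : ℝ) : pt y u v = pt (y + v) u 0 := by
  apply Complex.ext
  · rw [pt_re, pt_re]
  · rw [pt_im, pt_im, add_zero]

theorem pt_refl (y u v : ℝ) : 1 - conj (pt y (-u) v) = pt y u v := by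
  apply Complex.ext
  · rw [Complex.sub_re, Complex.one_re, Complex.conj_re, pt_re, pt_re]
    ring
  · rw [Complex.sub_im, Complex.one_im, Complex.conj_im, pt_im, pt_im]
    ring

theorem norm_refl {X : ℂ → ℂ} {a K V M ℓ y : ℝ} (h : OBL X a K V M ℓ y) (y' u v : ℝ) :
    ‖X (pt y' (-u) v)‖ = ‖X (pt y' u v)‖ := by
  obtain ⟨ε, hε, hfe⟩ := h.fe
  rw [hfe (pt y' (-u) v), norm_mul, hε, one_mul, pt_refl, Complex.norm_conj]

theorem exists_log (w κ : ℝ) (hκ : 0 < κ) : ∃ L : ℝ, 3 ≤ L ∧ ∀ ℓ : ℝ, L ≤ ℓ →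
    w * Real.log ℓ ≤ κ * ℓ := by
  have h1 := Real.isLittleO_log_id_atTop.bound (c := κ / (|w| + 1)) (by positivity)
  obtain ⟨L, hL⟩ := Filter.eventually_atTop.mp h1
  refine ⟨max 3 L, le_max_left _ _, ?_⟩
  intro ℓ hℓ
  have h3 : 3 ≤ ℓ := (le_max_left _ _).trans hℓ
  have h2 := hL ℓ ((le_max_right _ _).trans hℓ)
  have hlog : 0 ≤ Real.log ℓ := Real.log_nonneg (by linarith)
  rw [Real.norm_eq_abs, abs_of_nonneg hlog, id, Real.norm_eq_abs,
    abs_of_nonneg (show (0 : ℝ) ≤ ℓ by linarith),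
    div_mul_eq_mul_div, le_div_iff₀ (by positivity)] at h2
  have h4 : w * Real.log ℓ ≤ (|w| + 1) * Real.log ℓ :=
    mul_le_mul_of_nonneg_right (by have := le_abs_self w; linarith) hlog
  linarith

theorem pline2 (hstrip : S_STRIP) (hcmp : S_PCMP) : S_PLINE2 := by
  intro a K κ hκ
  obtain ⟨a1, ha1⟩ : ∃ a1, a1 = max 1 a := ⟨_, rfl⟩
  have h1a : 1 ≤ a1 := by
    rw [ha1]
    exact le_max_left _ _
  have haa : a ≤ a1 := by
    rw [ha1]
    exact le_max_right _ _
  obtain ⟨A, hA⟩ : ∃ A, A = a1 + 1 := ⟨_, rfl⟩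
  have hA2 : 2 ≤ A := by linarith
  rw [← ha1, ← hA]
  intro D V hD hV
  rcases le_or_gt a 0 with ha0 | ha0
  · refine ⟨3, le_rfl, ?_⟩
    intro X S' c σ Mf lf y₀ hS' hF
    have hb := hF.base y₀ (by rw [sub_self, mul_zero]; linarith)
    exact absurd hb.ha (not_lt.mpr ha0)
  obtain ⟨E, hE, hEc⟩ := hcmp a K D (2 * A) V hD (by linarith) (by linarith) (by linarith)
  obtain ⟨w, hw⟩ : ∃ w, w = Real.log E + D * Real.log (1 + 2 * A) * 2 := ⟨_, rfl⟩
  obtain ⟨L, hL3, hL⟩ := exists_log w κ hκ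
  refine ⟨max L (K * (2 + 4 * A ^ 2)), hL3.trans (le_max_left _ _), ?_⟩
  intro X S' c σ Mf lf y₀ hS' hF hℓ δ e hδ hδ1 hκe he1 hX
  have hb := hF.base y₀ (by rw [sub_self, mul_zero]; linarith)
  have hM := hb.hM
  have hK := hb.hK
  have hℓ0 : L ≤ lf y₀ := (le_max_left _ _).trans hℓ
  have hℓ1 : 3 ≤ lf y₀ := hL3.trans hℓ0
  have hℓ2 : K * (2 + 4 * A ^ 2) ≤ lf y₀ := (le_max_right _ _).trans hℓ
  have hlogpos : 0 < Real.log (lf y₀) := Real.log_pos (by linarith)
  have he : 0 < e := lt_of_lt_of_le (by positivity) hκe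
  have hℓ3 : w ≤ lf y₀ * e := by
    have h1 := hL (lf y₀) hℓ0
    have h2 : κ ≤ e * Real.log (lf y₀) := by rwa [div_le_iff₀ hlogpos] at hκe
    have h3 : w * Real.log (lf y₀) ≤ (lf y₀ * e) * Real.log (lf y₀) := by
      refine h1.trans ?_
      have := mul_le_mul_of_nonneg_right h2 (by linarith : (0 : ℝ) ≤ lf y₀)
      linarith
    exact le_of_mul_le_mul_right h3 hlogpos
  have hlog : 0 ≤ Real.log (1 + 2 * A) := Real.log_nonneg (by linarith)
  have habs : ∀ v : ℝ, |v| ≤ 2 * A → -S' ≤ σ * (y₀ + v - y₀) := by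
    intro v hv
    rw [add_sub_cancel_left]
    have h1 := abs_le.mp hv
    rcases hF.sg with h | h <;> rw [h] <;> linarith [h1.1, h1.2]
  have hy0 : -S' ≤ σ * (y₀ - y₀) := by rw [sub_self, mul_zero]; linarith
  -- the right side
  have hside : ∀ v : ℝ, |v| ≤ 2 * A →
      ‖X (pt y₀ δ v)‖ ≤ Mf y₀ * Real.exp (lf y₀ * (δ + 2 * e)) := by
    intro v hv
    have h1 := hX (y₀ + v) (by rw [add_sub_cancel_left]; exact hv)
    rw [← pt_shift] at h1
    have h2 : Mf (y₀ + v) ≤ E * Mf y₀ := by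
      apply hEc X S' c σ Mf lf y₀ hF y₀ (y₀ + v) hy0 (habs v hv)
      rw [add_sub_cancel_left]
      exact hv
    have h3 : lf (y₀ + v) ≤ lf y₀ + D * Real.log (1 + 2 * A) := by
      have h4 := hF.lip y₀ (y₀ + v) hy0 (habs v hv)
      rw [add_sub_cancel_left] at h4
      have h5 : Real.log (1 + |v|) ≤ Real.log (1 + 2 * A) :=
        Real.log_le_log (by positivity) (by linarith)
      nlinarith [mul_le_mul_of_nonneg_left h5 (by linarith : (0 : ℝ) ≤ D)]
    have hEpos : 0 < E := by linarith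
    have hDl : 0 ≤ D * Real.log (1 + 2 * A) := mul_nonneg (by linarith) hlog
    calc ‖X (pt y₀ δ v)‖ ≤ Mf (y₀ + v) * Real.exp (lf (y₀ + v) * (δ + e)) := h1
      _ ≤ (E * Mf y₀) * Real.exp ((lf y₀ + D * Real.log (1 + 2 * A)) * (δ + e)) := by
          apply mul_le_mul h2 _ (Real.exp_pos _).le (by positivity)
          rw [Real.exp_le_exp]
          exact mul_le_mul_of_nonneg_right h3 (by linarith)
      _ = Mf y₀ * Real.exp (Real.log E + (lf y₀ + D * Real.log (1 + 2 * A)) * (δ + e)) := by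
          rw [Real.exp_add, Real.exp_log hEpos]
          ring
      _ ≤ Mf y₀ * Real.exp (lf y₀ * (δ + 2 * e)) := by
          apply mul_le_mul_of_nonneg_left _ hM.le
          rw [Real.exp_le_exp]
          rw [hw] at hℓ3
          have h6 : D * Real.log (1 + 2 * A) * (δ + e) ≤ D * Real.log (1 + 2 * A) * 2 :=
            mul_le_mul_of_nonneg_left (by linarith) hDl
          nlinarith
  have hmain := hstrip X hb.diff y₀ δ A 1 (a1 + 1) (lf y₀) (Mf y₀ * Real.exp (lf y₀ * (δ + 2 * e)))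
    hδ (by linarith) zero_le_one (by linarith) (by positivity) (by nlinarith)
    (fun v hv => ⟨hside v hv, by
      rw [norm_refl hb]
      exact hside v hv⟩)
    (by
      intro u v hu hv
      have h1 := hb.up u v (by linarith) (by linarith)
      refine h1.trans ?_
      rw [mul_assoc, ← Real.exp_add]
      apply mul_le_mul_of_nonneg_left _ hM.le
      rw [Real.exp_le_exp]
      have hu2 : u ^ 2 ≤ 1 := by
        rw [← sq_abs]
        have := abs_nonneg u
        nlinarith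
      have hv2 : v ^ 2 ≤ 4 * A ^ 2 := by
        rw [← sq_abs]
        have := abs_nonneg v
        nlinarith
      have hmax : max |u| a ≤ a1 := max_le (by linarith) haa
      have h2 : lf y₀ * max |u| a ≤ lf y₀ * a1 := mul_le_mul_of_nonneg_left hmax (by linarith)
      have h3 : K * (1 + u ^ 2 + v ^ 2) ≤ K * (2 + 4 * A ^ 2) :=
        mul_le_mul_of_nonneg_left (by linarith) (by linarith)
      have h4 : 0 ≤ lf y₀ * (δ + 2 * e) := by positivity
      nlinarith)
    0 0 (by rw [abs_zero]; exact hδ.le) (by rw [abs_zero]; linarith)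
  refine hmain.trans ?_
  rw [mul_assoc, ← Real.exp_add]
  apply mul_le_mul_of_nonneg_left _ hM.le
  rw [Real.exp_le_exp]
  have h5 : δ ^ 2 ≤ δ := by nlinarith
  nlinarith [mul_le_mul_of_nonneg_left h5 (by linarith : (0 : ℝ) ≤ lf y₀)]

end Pool.Agent.H477.O.Line2
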