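import Pool.Agent.H477.O.Stm

set_option autoImplicit false

/-!
# Project O: assembly of the abstract theorem
-/

open Complex Filter Topology Metric Set MeasureTheory
open scoped ComplexConjugate

namespace Pool.Agent.H477.O

/-- bounds and zero free boxes for `X^{(i)}` in a long window -/
structure Lv (X : ℂ → ℂ) (i : ℕ) (b e δ R : ℝ) (Mf lf : ℝ → ℝ) (σ y₀ S W : ℝ) : Prop where
  zf : ∀ y : ℝ, -S ≤ σ * (y - y₀) → σ * (y - y₀) ≤ W → ZF (iteratedDeriv i X) b R y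
  ub : ∀ y : ℝ, -S ≤ σ * (y - y₀) → σ * (y - y₀) ≤ W → ∀ u : ℝ, δ ≤ u → u ≤ R →
    ‖iteratedDeriv i X (pt y u 0)‖ ≤ Mf y * Real.exp (lf y * (u + e))

lemma ev_log_lin {D Q : ℝ} (hD : 0 ≤ D) (hQ : 0 ≤ Q) : ∃ L₀ : ℝ, 1 ≤ L₀ ∧ ∀ L : ℝ, L₀ ≤ L →
    D * Real.log (1 + (Q + Q * L)) ≤ L / 2 := by
  have h1 : Tendsto (fun L : ℝ => Real.log L / L) atTop (𝓝 0) := by
    have := Real.isLittleO_log_id_atTop.tendsto_div_nhds_zero
    simpa using this
  have h2 : ∀ᶠ L : ℝ in atTop, Real.log L / L < 1 / (4 * (D + 1)) := h1.eventually (gt_mem_nhds (by positivity))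
  obtain ⟨L₁, hL₁⟩ := eventually_atTop.1 ((h2.and (eventually_ge_atTop (4 * (D * (Real.log (1 + Q) + Real.log 2))))).and (eventually_ge_atTop 1))
  refine ⟨max 1 L₁, le_max_left _ _, fun L hL => ?_⟩
  obtain ⟨⟨g1, g2⟩, g3⟩ := hL₁ L ((le_max_right _ _).trans hL)
  have hL0 : 0 < L := by linarith
  have k1 : Real.log (1 + (Q + Q * L)) ≤ Real.log (1 + Q) + (Real.log 2 + Real.log L) := by
    rw [← Real.log_mul (by norm_num) hL0.ne', ← Real.log_mul (by linarith) (by positivity)]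
    apply Real.log_le_log (by positivity)
    have := mul_nonneg hQ hL0.le
    nlinarith
  have k2 : D * Real.log L ≤ L / 4 := by
    rw [div_lt_div_iff₀ hL0 (by positivity), one_mul] at g1
    have h5 : 0 ≤ Real.log L := Real.log_nonneg g3
    nlinarith
  have k3 : D * Real.log (1 + (Q + Q * L)) ≤ D * (Real.log (1 + Q) + (Real.log 2 + Real.log L)) :=
    mul_le_mul_of_nonneg_left k1 hD
  have e : D * (Real.log (1 + Q) + (Real.log 2 + Real.log L)) = D * (Real.log (1 + Q) + Real.log 2) + D * Real.log L := by ring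
  linarith

section

variable {X : ℂ → ℂ} {a K S c D σ : ℝ} {Mf lf : ℝ → ℝ} {y₀ : ℝ}

lemma Fam.abs (F : Fam X a K S c D σ Mf lf y₀) (x : ℝ) : |σ * x| = |x| := by
  rcases F.sg with h | h <;> simp [h]

/-- half the logarithm of the conductor changes slowly -/
lemma lfcmp {D Q : ℝ} (hD : 1 ≤ D) (hQ : 0 ≤ Q) : ∃ L₀ : ℝ, 1 ≤ L₀ ∧ ∀ (X : ℂ → ℂ) (a K S c σ : ℝ) (Mf lf : ℝ → ℝ) (y₀ : ℝ),
    Fam X a K S c D σ Mf lf y₀ → L₀ ≤ lf y₀ → ∀ y : ℝ, |y - y₀| ≤ Q + Q * lf y₀ → lf y₀ / 2 ≤ lf y ∧ lf y ≤ 2 * lf y₀ := by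
  obtain ⟨L₀, hL₀, H⟩ := ev_log_lin (D := D) (Q := Q) (by linarith) hQ
  refine ⟨L₀, hL₀, fun X a K S c σ Mf lf y₀ F hL y hy => ?_⟩
  have h1 := F.lip y₀ y
  have h2 := F.lip y y₀
  rw [abs_sub_comm y₀ y] at h2
  have h3 : D * Real.log (1 + |y - y₀|) ≤ lf y₀ / 2 := by
    refine le_trans (mul_le_mul_of_nonneg_left ?_ (by linarith)) (H _ hL)
    exact Real.log_le_log (by positivity) (by linarith)
  constructor <;> linarith

end

lemma pt_sub (y u δ : ℝ) : pt y u 0 - (δ : ℂ) = pt y (u - δ) 0 := by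
  apply Complex.ext <;> simp <;> ring

lemma itd_diff {X : ℂ → ℂ} (hX : Differentiable ℂ X) (k : ℕ) : Differentiable ℂ (iteratedDeriv k X) :=
  (hX.contDiff (n := ((k + 1 : ℕ) : WithTop ℕ∞))).differentiable_iteratedDeriv k (by exact_mod_cast Nat.lt_succ_self k)

/-- from `X^{(k+1)}` to `X^{(k)}` -/
lemma step (hF : S_OFLAT) (hI : S_OINT) (hN : S_ONZ) {a K c D R δ e : ℝ} (k : ℕ) (hc : 0 < c) (hD : 1 ≤ D)
    (hδ : 0 < δ) (hδ1 : δ ≤ 1 / 2) (he : 0 < e) (he8 : 2 * e ≤ δ / 4) (hR : 3 * (a + (k + 1 : ℕ) + 4) ≤ R) (hR0 : 0 ≤ R)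
    {b : ℝ} (hb : 0 ≤ b) (hba : b ≤ a) {S w : ℝ} (hS : 0 ≤ S) (hw : 0 ≤ w) :
    ∃ w' ℓ₀ : ℝ, 0 ≤ w' ∧ 1 ≤ ℓ₀ ∧ ∀ (X : ℂ → ℂ) (SF σ : ℝ) (Mf lf : ℝ → ℝ) (y₀ : ℝ), Fam X a K SF c D σ Mf lf y₀ → S + R ≤ SF →
      ℓ₀ ≤ lf y₀ → Lv X (k + 1) b e δ R Mf lf σ y₀ (S + R) (S + R + w' * lf y₀) →
      Lv X k (b + 2 * δ) (2 * e) δ R Mf lf σ y₀ S (S + w * lf y₀) := by
  obtain ⟨L1, hL1, H1⟩ := hF a K (k + 1) R δ e hδ (by linarith) he hR
  obtain ⟨B, L2, hB, hL2, H2⟩ := hI a K c D R e k hc hD hR0 he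
  obtain ⟨L3, hL3, H3⟩ := hN δ hδ (by linarith)
  obtain ⟨L4, hL4, H4⟩ := lfcmp (D := D) (Q := S + R + w) hD (by linarith)
  refine ⟨w + 2 * B, max L4 (2 * max L1 (max L2 L3)), by linarith, hL4.trans (le_max_left _ _), fun X SF σ Mf lf y₀ F hSF hL P => ?_⟩
  have hL4' : L4 ≤ lf y₀ := (le_max_left _ _).trans hL
  have hLm : 2 * max L1 (max L2 L3) ≤ lf y₀ := (le_max_right _ _).trans hL
  have hLpos : 1 ≤ lf y₀ := hL4.trans hL4'
  have hm1 : L1 ≤ max L1 (max L2 L3) := le_max_left _ _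
  have hm2 : L2 ≤ max L1 (max L2 L3) := (le_max_left _ _).trans (le_max_right _ _)
  have hm3 : L3 ≤ max L1 (max L2 L3) := (le_max_right _ _).trans (le_max_right _ _)
  -- heights in the enlarged window
  have hwin : ∀ y : ℝ, -(S + R) ≤ σ * (y - y₀) → σ * (y - y₀) ≤ S + w * lf y₀ + R →
      max L1 (max L2 L3) ≤ lf y ∧ lf y ≤ 2 * lf y₀ := by
    intro y h1 h2
    have h3 : |y - y₀| ≤ (S + R + w) + (S + R + w) * lf y₀ := by
      rw [← F.abs, abs_le]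
      have g1 := mul_nonneg hw (by linarith : 0 ≤ lf y₀)
      have g2 := mul_nonneg (by linarith : 0 ≤ S + R) (by linarith : 0 ≤ lf y₀)
      have e1 : (S + R + w) * lf y₀ = (S + R) * lf y₀ + w * lf y₀ := by ring
      constructor <;> linarith
    obtain ⟨g1, g2⟩ := H4 X a K SF c σ Mf lf y₀ F hL4' y h3
    exact ⟨by linarith, g2⟩
  -- upper bounds of `X^{(k)}`
  have UB : ∀ y : ℝ, -(S + R) ≤ σ * (y - y₀) → σ * (y - y₀) ≤ S + w * lf y₀ + R → ∀ u : ℝ, δ ≤ u → u ≤ R →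
      ‖iteratedDeriv k X (pt y u 0)‖ ≤ Mf y * Real.exp (lf y * (u + 2 * e)) := by
    intro y h1 h2 u hu1 hu2
    obtain ⟨g1, g2⟩ := hwin y h1 h2
    refine H2 X SF σ Mf lf y₀ F y (by linarith) (by linarith) u (by linarith) hu2 fun τ hτ0 hτ1 => ?_
    have hσ : σ * (y + σ * τ - y₀) = σ * (y - y₀) + τ := by
      have : σ * σ = 1 := by rcases F.sg with h | h <;> rw [h] <;> norm_num
      linear_combination τ * this
    have hτ2 : τ ≤ 2 * B * lf y₀ := by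
      have := mul_le_mul_of_nonneg_left g2 (by linarith : 0 ≤ B)
      linarith
    refine P.ub (y + σ * τ) (by rw [hσ]; linarith) (by rw [hσ]; linarith) u hu1 hu2
  refine ⟨fun y h1 h2 z hz1 hz2 hz3 => ?_, fun y h1 h2 u hu1 hu2 => ?_⟩
  · -- zero free
    obtain ⟨u, hu⟩ : ∃ u : ℝ, u = z.re - 1 / 2 := ⟨_, rfl⟩
    obtain ⟨y', hy'⟩ : ∃ y' : ℝ, y' = z.im := ⟨_, rfl⟩
    have hz : z = pt y' u 0 := by
      have := pt_eq y' z
      rw [this, hu, hy', sub_self]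
    have hσy : |σ * (y' - y)| ≤ R := by rw [F.abs, hy']; exact hz3
    obtain ⟨s1, s2⟩ := abs_le.1 hσy
    have hsum : σ * (y' - y₀) = σ * (y - y₀) + σ * (y' - y) := by ring
    have w1 : -(S + R) ≤ σ * (y' - y₀) := by rw [hsum]; linarith
    have w2 : σ * (y' - y₀) ≤ S + w * lf y₀ + R := by rw [hsum]; linarith
    obtain ⟨g1, g2⟩ := hwin y' w1 w2
    have OBy := F.base y'
    have hBl : 0 ≤ B * lf y₀ := mul_nonneg (by linarith) (by linarith)
    have hZF : ZF (iteratedDeriv (k + 1) X) b R y' := P.zf y' w1 (by linarith)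
    have hFL := H1 X (Mf y') (lf y') y' OBy (by linarith) b hb hba hZF
    have hu2δ : b + 2 * δ < u := by rw [hu]; linarith
    have huR : u ≤ R := by rw [hu]; linarith
    have hlf1 : 1 ≤ lf y' := by linarith
    have hder : deriv (iteratedDeriv k X) = iteratedDeriv (k + 1) X := by rw [iteratedDeriv_succ]
    rw [hz]
    refine H3 (iteratedDeriv k X) (Mf y') (lf y') u (pt y' u 0) (itd_diff OBy.diff k) OBy.hM (by linarith) (fun r hr0 hr1 => ?_) ?_ ?_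
    · rw [hder, pt_sub]
      obtain ⟨f1, f2, _, _⟩ := hFL (pt y' (u - r) 0) (by rw [pt_re]; linarith) (by rw [pt_re]; linarith) (by simp)
      refine ⟨f1, f2.trans ?_⟩
      have : e * lf y' ≤ 1 / 8 * lf y' := mul_le_mul_of_nonneg_right (by linarith) (by linarith)
      linarith
    · rw [hder]
      obtain ⟨_, _, f3, _⟩ := hFL (pt y' u 0) (by rw [pt_re]; linarith) (by rw [pt_re]; linarith) (by simp)
      refine le_trans (mul_le_mul_of_nonneg_left (Real.exp_le_exp.2 ?_) OBy.hM.le) f3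
      refine mul_le_mul_of_nonneg_left ?_ (by linarith)
      rw [pt_re]
      linarith
    · rw [pt_sub]
      refine (UB y' w1 w2 (u - δ) (by linarith) (by linarith)).trans ?_
      refine mul_le_mul_of_nonneg_left (Real.exp_le_exp.2 ?_) OBy.hM.le
      refine mul_le_mul_of_nonneg_left ?_ (by linarith)
      linarith
  · exact UB y (by linarith) (by linarith) u hu1 hu2

/-- from `X^{(k)}` to `X` -/
lemma steps (hF : S_OFLAT) (hI : S_OINT) (hN : S_ONZ) {a K c D R δ : ℝ} (hc : 0 < c) (hD : 1 ≤ D)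
    (hδ : 0 < δ) (hδ1 : δ ≤ 1 / 2) (hR0 : 0 ≤ R) (k : ℕ) :
    3 * (a + k + 4) ≤ R → ∀ b e S w : ℝ, 0 ≤ b → b + 2 * k * δ ≤ a → 0 < e → 2 ^ k * e ≤ δ / 4 → 0 ≤ S → 0 ≤ w →
    ∃ w' ℓ₀ : ℝ, 0 ≤ w' ∧ 1 ≤ ℓ₀ ∧ ∀ (X : ℂ → ℂ) (SF σ : ℝ) (Mf lf : ℝ → ℝ) (y₀ : ℝ), Fam X a K SF c D σ Mf lf y₀ → S + k * R ≤ SF →
      ℓ₀ ≤ lf y₀ → Lv X k b e δ R Mf lf σ y₀ (S + k * R) (S + k * R + w' * lf y₀) →
      Lv X 0 (b + 2 * k * δ) (2 ^ k * e) δ R Mf lf σ y₀ S (S + w * lf y₀) := by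
  induction k with
  | zero =>
    intro _ b e S w _ _ _ _ _ hw
    refine ⟨w, 1, hw, le_rfl, fun X SF σ Mf lf y₀ _ _ _ P => ?_⟩
    simpa using P
  | succ k ih =>
    intro hR b e S w hb hba he he8 hS hw
    push_cast at hR hba
    have hkδ : 0 ≤ (k : ℝ) * δ := by positivity
    obtain ⟨w₁, ℓ₁, hw₁, hℓ₁, H⟩ := ih (by linarith) (b + 2 * δ) (2 * e) S w (by linarith) (by linarith) (by linarith)
      (by rw [pow_succ] at he8; linarith) hS hw
    have hp : (1 : ℝ) ≤ 2 ^ k := one_le_pow₀ (by norm_num)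
    have he2 : 2 * e ≤ δ / 4 := by
      rw [pow_succ] at he8
      have := mul_le_mul_of_nonneg_right hp (by linarith : 0 ≤ 2 * e)
      linarith
    have hSk : 0 ≤ S + k * R := by positivity
    obtain ⟨w₂, ℓ₂, hw₂, hℓ₂, H2⟩ := step hF hI hN (K := K) (a := a) (b := b) k hc hD hδ hδ1 he he2 (by push_cast; linarith) hR0 hb
      (by linarith) hSk hw₁
    refine ⟨w₂, max ℓ₁ ℓ₂, hw₂, hℓ₁.trans (le_max_left _ _), fun X SF σ Mf lf y₀ F hSF hL P => ?_⟩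
    push_cast at hSF P
    have e1 : S + (k + 1) * R = S + k * R + R := by ring
    rw [e1] at P hSF
    have h1 := H2 X SF σ Mf lf y₀ F hSF ((le_max_right _ _).trans hL) P
    have h2 := H X SF σ Mf lf y₀ F (by linarith) ((le_max_left _ _).trans hL) h1
    have e2 : b + 2 * ((k + 1 : ℕ) : ℝ) * δ = b + 2 * δ + 2 * k * δ := by push_cast; ring
    have e3 : (2 : ℝ) ^ (k + 1) * e = 2 ^ k * (2 * e) := by rw [pow_succ]; ring
    rw [e2, e3]
    exact h2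

theorem omain (hF : S_OFLAT) (hI : S_OINT) (hN : S_ONZ) (hLn : S_OLINE) : S_OMAIN := by
  intro a K k ε ha hε
  obtain ⟨δ, hδd⟩ : ∃ δ : ℝ, δ = min ε 1 / (8 * (k + 1)) := ⟨_, rfl⟩
  have hm0 : 0 < min ε 1 := lt_min hε one_pos
  have hk0 : (0 : ℝ) ≤ k := Nat.cast_nonneg k
  have hδ : 0 < δ := by rw [hδd]; positivity
  have hδm : δ * (8 * (k + 1)) = min ε 1 := by rw [hδd]; field_simp
  have hkδ : 0 ≤ (k : ℝ) * δ := by positivity
  have hδε : 8 * δ + 8 * (k * δ) ≤ ε := by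
    have := min_le_left ε 1
    linarith
  have hδ1 : 8 * δ + 8 * (k * δ) ≤ 1 := by
    have := min_le_right ε 1
    linarith
  have h2k : (0 : ℝ) < 2 ^ k := by positivity
  obtain ⟨e, hed⟩ : ∃ e : ℝ, e = δ / (4 * 2 ^ k) := ⟨_, rfl⟩
  have he : 0 < e := by rw [hed]; positivity
  have he4 : 2 ^ k * e = δ / 4 := by rw [hed]; field_simp
  have he1 : e ≤ δ / 4 := by
    have hp : (1 : ℝ) ≤ 2 ^ k := one_le_pow₀ (by norm_num)
    have := mul_le_mul_of_nonneg_right hp he.le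
    linarith
  obtain ⟨R, hRd⟩ : ∃ R : ℝ, R = 3 * (a + k + 4) := ⟨_, rfl⟩
  have hR0 : 0 ≤ R := by rw [hRd]; linarith
  obtain ⟨S₀, hS₀, HL⟩ := hLn a K (δ / 4) δ (by linarith) hδ (by linarith)
  refine ⟨S₀ + k * R, by positivity, fun c D hc hD => ?_⟩
  obtain ⟨ℓ₁, hℓ₁, HL⟩ := HL D hD
  obtain ⟨w', ℓ₂, hw', hℓ₂, HS⟩ := steps hF hI hN (K := K) hc hD hδ (by linarith) hR0 k hRd.ge 0 e S₀ 0 le_rfl (by linarith) he he4.le
    hS₀.le le_rfl
  obtain ⟨ℓ₃, hℓ₃, HF⟩ := hF a K k R δ e hδ (by linarith) he hRd.ge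
  obtain ⟨ℓ₄, hℓ₄, HC⟩ := lfcmp (D := D) (Q := S₀ + k * R + w') hD (by positivity)
  refine ⟨S₀ + k * R + w' + R, max (max ℓ₁ ℓ₂) (max (2 * ℓ₃) ℓ₄), by positivity, hℓ₁.trans ((le_max_left _ _).trans (le_max_left _ _)),
    fun X σ Mf lf y₀ F hL hZ => ?_⟩
  have hL1 : ℓ₁ ≤ lf y₀ := ((le_max_left _ _).trans (le_max_left _ _)).trans hL
  have hL2 : ℓ₂ ≤ lf y₀ := ((le_max_right _ _).trans (le_max_left _ _)).trans hL
  have hL3 : 2 * ℓ₃ ≤ lf y₀ := ((le_max_left _ _).trans (le_max_right _ _)).trans hL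
  have hL4 : ℓ₄ ≤ lf y₀ := ((le_max_right _ _).trans (le_max_right _ _)).trans hL
  have hLp : 1 ≤ lf y₀ := hℓ₁.trans hL1
  have hSk : 0 ≤ S₀ + k * R := by positivity
  -- heights in the window
  have hwin : ∀ y : ℝ, -(S₀ + k * R) ≤ σ * (y - y₀) → σ * (y - y₀) ≤ S₀ + k * R + w' * lf y₀ →
      |y - y₀| ≤ S₀ + k * R + w' * lf y₀ := by
    intro y h1 h2
    rw [← F.abs, abs_le]
    have := mul_nonneg hw' (by linarith : 0 ≤ lf y₀)
    constructor <;> linarith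
  have hzf : ∀ y : ℝ, -(S₀ + k * R) ≤ σ * (y - y₀) → σ * (y - y₀) ≤ S₀ + k * R + w' * lf y₀ → ZF (iteratedDeriv k X) 0 R y := by
    intro y h1 h2 z hz1 hz2 hz3 h0
    have h3 := hwin y h1 h2
    have h4 : |z.im - y₀| ≤ (S₀ + k * R + w' + R) * lf y₀ := by
      have h5 := abs_add_le (z.im - y) (y - y₀)
      rw [sub_add_sub_cancel] at h5
      have g1 : (S₀ + k * R) * 1 ≤ (S₀ + k * R) * lf y₀ := mul_le_mul_of_nonneg_left hLp hSk
      have g2 : R * 1 ≤ R * lf y₀ := mul_le_mul_of_nonneg_left hLp hR0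
      have e1 : (S₀ + k * R + w' + R) * lf y₀ = (S₀ + k * R) * lf y₀ + w' * lf y₀ + R * lf y₀ := by ring
      rw [e1]
      linarith
    have := hZ z h0 h4
    linarith
  have P : Lv X k 0 e δ R Mf lf σ y₀ (S₀ + k * R) (S₀ + k * R + w' * lf y₀) := by
    refine ⟨hzf, fun y h1 h2 u hu1 hu2 => ?_⟩
    have h3 := hwin y h1 h2
    have g1 : |y - y₀| ≤ (S₀ + k * R + w') + (S₀ + k * R + w') * lf y₀ := by
      have g2 := mul_nonneg hSk (by linarith : 0 ≤ lf y₀)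
      have e1 : (S₀ + k * R + w') * lf y₀ = (S₀ + k * R) * lf y₀ + w' * lf y₀ := by ring
      rw [e1]
      linarith
    obtain ⟨g3, _⟩ := HC X a K _ c σ Mf lf y₀ F hL4 y g1
    obtain ⟨_, _, _, g5⟩ := HF X (Mf y) (lf y) y (F.base y) (by linarith) 0 le_rfl (by linarith) (hzf y h1 h2) (pt y u 0)
      (by rw [pt_re]; linarith) (by rw [pt_re]; linarith) (by simp)
    rw [pt_re] at g5
    have e1 : (1 : ℝ) / 2 + u - 1 / 2 + e = u + e := by ring
    rw [e1] at g5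
    exact g5
  have Q := HS X _ σ Mf lf y₀ F le_rfl hL2 P
  rw [zero_mul, add_zero, he4, zero_add] at Q
  have OB0 := F.base y₀
  constructor
  · have h1 := HL X _ c σ Mf lf y₀ F hL1 fun y hy => ?_
    · refine h1.trans (mul_le_mul_of_nonneg_left (Real.exp_le_exp.2 ?_) OB0.hM.le)
      rw [mul_comm ε]
      exact mul_le_mul_of_nonneg_left (by linarith) (by linarith)
    · have hy' : |σ * (y - y₀)| ≤ S₀ := by rw [F.abs]; exact hy
      obtain ⟨s1, s2⟩ := abs_le.1 hy'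
      have := Q.ub y s1 s2 δ le_rfl (by rw [hRd]; linarith)
      rwa [iteratedDeriv_zero] at this
  · -- zeros
    have right : ∀ z : ℂ, z.im = y₀ → X z = 0 → z.re - 1 / 2 < ε := by
      intro z hz h0
      by_contra hcon
      push Not at hcon
      by_cases hzR : z.re ≤ 1 / 2 + R
      · have h1 := Q.zf y₀ (by simp; linarith) (by simp; linarith) z (by linarith) hzR (by rw [hz, sub_self, abs_zero]; exact hR0)
        rw [iteratedDeriv_zero] at h1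
        exact h1 h0
      · push Not at hzR
        have h1 := OB0.lo (z.re - 1 / 2) (z.im - y₀) (by rw [hRd] at hzR; linarith)
        rw [← pt_eq, h0, norm_zero] at h1
        have := mul_pos OB0.hM (Real.exp_pos (lf y₀ * (z.re - 1 / 2) - K * (1 + (z.re - 1 / 2) ^ 2 + (z.im - y₀) ^ 2)))
        linarith
    intro z hz h0
    rw [abs_lt]
    refine ⟨?_, right z hz h0⟩
    obtain ⟨η, hη, hfe⟩ := OB0.fe
    have hη0 : η ≠ 0 := by
      intro h
      rw [h, norm_zero] at hη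
      exact zero_ne_one hη
    have h1 := hfe z
    rw [h0] at h1
    have h2 : X (1 - conj z) = 0 := by
      have h3 : conj (X (1 - conj z)) = 0 := by
        rcases mul_eq_zero.1 h1.symm with h | h
        · exact absurd h hη0
        · exact h
      exact (map_eq_zero _).1 h3
    have h3 := right (1 - conj z) (by simp [hz]) h2
    have h4 : (1 - conj z).re = 1 - z.re := by simp
    rw [h4] at h3
    linarith

end Pool.Agent.H477.O
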