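import Pool.Agent.H477.O.Stm

set_option autoImplicit false

/-!
# Project P (helper477): Littlewood's bound from the Riemann hypothesis for one derivative of `ξ`

Goal (RH page, weight 100; explicit form of MP_db1c88_nt.OneDerivative): for each fixed `k`, if `ξ^{(k)}` has no zeros off the critical line at heights within `B log t` of `t`, then
`|ζ(1/2+it)| ≤ exp(C log t · log log log t / log log t)` (Littlewood's bound of 1912 under RH) and no zero of zeta at height `t` has `Re ≥ 1/2 + C log log log t / log log t`.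
All statements are the statements of project O (`Pool/Agent/H477/O/Stm.lean`) with the distance `δ` from the line allowed to tend to `0` with `ℓ`: `δ ≥ A log log ℓ / log ℓ`, and with the local data restricted
to boxes. The proofs are those of project O with small changes (files `Pool/Agent/H727/O/OFar.lean`, `H975/O/Ocr.lean`, `H120/O/OLOG.lean`, `H585/O/OFlat.lean`, `H976/O/OInt.lean`, `H195/O/ONZ.lean`,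
`H142/O/OCMP.lean`, `H115/O/OLINE.lean`, all on main).
-/

open Complex Filter Topology Metric Set MeasureTheory
open scoped ComplexConjugate

namespace Pool.Agent.H477.O

noncomputable section

/-- local data of a completed L-function `X` in the box of size `V` about the height `y` (compare `OB`) -/
structure OBL (X : ℂ → ℂ) (a K V M ℓ y : ℝ) : Prop where
  diff : Differentiable ℂ X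
  fe : ∃ ε : ℂ, ‖ε‖ = 1 ∧ ∀ s, X s = ε * conj (X (1 - conj s))
  ha : 0 < a
  hK : 1 ≤ K
  hM : 0 < M
  up : ∀ u v : ℝ, |u| ≤ V → |v| ≤ V → ‖X (pt y u v)‖ ≤ M * Real.exp (ℓ * max |u| a + K * (1 + u ^ 2 + v ^ 2))
  lo : ∀ u v : ℝ, a ≤ u → u ≤ V → |v| ≤ V → M * Real.exp (ℓ * u - K * (1 + u ^ 2 + v ^ 2)) ≤ ‖X (pt y u v)‖
  lg : ∀ z : ℂ, 1 / 2 + a ≤ z.re → z.re ≤ 1 / 2 + V → |z.im - y| ≤ V → ‖logDeriv X z - ℓ‖ ≤ K * (1 + |z.re| + |z.im - y|)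

/-- local data at all heights `y` with `σ (y - y₀) ≥ -S` (compare `Fam`) -/
structure FamL (X : ℂ → ℂ) (a K V S c D σ : ℝ) (Mf lf : ℝ → ℝ) (y₀ : ℝ) : Prop where
  base : ∀ y : ℝ, -S ≤ σ * (y - y₀) → OBL X a K V (Mf y) (lf y) y
  sg : σ = 1 ∨ σ = -1
  hc : 0 < c
  hD : 1 ≤ D
  dec : ∀ y τ : ℝ, -S ≤ σ * (y - y₀) → 0 ≤ τ → Mf (y + σ * τ) ≤ D * Mf y * Real.exp (-(c * τ))
  lip : ∀ y y' : ℝ, -S ≤ σ * (y - y₀) → -S ≤ σ * (y' - y₀) → lf y' ≤ lf y + D * Real.log (1 + |y' - y|)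

/-- **S_PFLAT.** Explicit form of `S_FLATLOG` / `Pool.Agent.H487.NZ.flat_log` (`Pool/Agent/H487/NZ/Circ.lean`; you may use the library lemma `H370.Loc.logDeriv_zero_free` of `Pool/Graph/R_seed8/H370R2/Local.lean` as there).

Proof. `f = logDeriv h`. By `H370.Loc.logDeriv_zero_free` (`r := R`, `r1 := R - δ/4`, `r2 := R - δ/2`, `B := K ℓ`): `|f| ≤ K₂ ℓ/δ²` on `closedBall c (R - δ/2)`, `K₂ = 32 R (K+1)`. For `|z - c| ≤ R - δ` the Taylor terms `a_i = f^{(i)}(c) (z-c)^i/i!` satisfy `|a_i| ≤ K R^i` (bound `K` on the unit disc) and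
`|a_i| ≤ (K₂ ℓ/δ²) q^i`, `q = (R-δ)/(R-δ/2) ≤ 1 - δ/(2R) ≤ exp(-δ/(2R))`. Let `n = ⌊log ℓ/(2 log R)⌋₊` (so `R^n ≤ ℓ^{1/2}`, `R ≥ 2`). `∑_{i<n} ≤ K n R^n ≤ 2 K ℓ^{1/2} log ℓ`. `∑_{i≥n} ≤ (K₂ ℓ/δ²) q^n/(1-q) ≤ (K₂ ℓ/δ²) (2R/δ) e^{1/(2R)} exp(-δ log ℓ/(4 R log R))`, and
`δ log ℓ ≥ A log log ℓ` gives `exp(...) ≤ (log ℓ)^{-A/(4R log R)} ≤ (log ℓ)^{-6}` for `A = 24 R log R + 1`; finally `1/δ ≤ log ℓ` (if `A log log ℓ ≥ 1`), so the tail is `≤ δ² ℓ · 4 R K₂ δ^{-5} (log ℓ)^{-6} ≤ δ² ℓ · 4 R K₂/log ℓ ≤ δ² ℓ/2`; and `2 K ℓ^{1/2} log ℓ ≤ ℓ/(2 (log ℓ)²) ≤ δ² ℓ/2` for `ℓ` large. -/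
def S_PFLAT : Prop := ∀ R K : ℝ, 2 ≤ R → 1 ≤ K → ∃ A L₀ : ℝ, 1 ≤ A ∧ 3 ≤ L₀ ∧ ∀ ℓ δ : ℝ, L₀ ≤ ℓ → A * Real.log (Real.log ℓ) / Real.log ℓ ≤ δ → δ ≤ 1 →
    ∀ (h : ℂ → ℂ) (c : ℂ), AnalyticOnNhd ℂ h (closedBall c R) → (∀ z ∈ closedBall c R, h z ≠ 0) →
      (∀ z ∈ closedBall c R, ‖h z‖ ≤ Real.exp (K * ℓ) * ‖h c‖) →
      (∀ z ∈ closedBall c 1, ‖logDeriv h z‖ ≤ K) → ∀ z ∈ closedBall c (R - δ), ‖logDeriv h z‖ ≤ δ ^ 2 * ℓ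

/-- **S_PFAR.** As `S_OFAR` (`Pool/Agent/H727/O/OFar.lean`), the local data only used in the box of size `V`. -/
def S_PFAR : Prop := ∀ (a K : ℝ) (j : ℕ) (A R V : ℝ), 0 ≤ A → 0 ≤ R → A + R + j + 2 ≤ V → ∃ K' ℓ₀ : ℝ, 1 ≤ K' ∧ 1 ≤ ℓ₀ ∧
  ∀ (X : ℂ → ℂ) (M ℓ y : ℝ), OBL X a K V M ℓ y → ℓ₀ ≤ ℓ →
  ∀ z : ℂ, 1 / 2 + a + j ≤ z.re → z.re ≤ 1 / 2 + R → |z.im - y| ≤ A →
  iteratedDeriv j X z ≠ 0 ∧ ‖logDeriv (iteratedDeriv j X) z - ℓ‖ ≤ K' ∧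
    M * Real.exp (ℓ * (z.re - 1 / 2) - K') ≤ ‖iteratedDeriv j X z‖ ∧
    ‖iteratedDeriv j X z‖ ≤ M * (2 * ℓ) ^ j * Real.exp (ℓ * (z.re - 1 / 2) + K')

/-- **S_PCR.** As `S_OCR` (`Pool/Agent/H975/O/Ocr.lean`). -/
def S_PCR : Prop := ∀ (a K : ℝ) (j : ℕ) (A R V : ℝ), 0 ≤ A → 0 ≤ R → A + R + 2 ≤ V → ∃ K' : ℝ, 1 ≤ K' ∧
  ∀ (X : ℂ → ℂ) (M ℓ y : ℝ), OBL X a K V M ℓ y → 1 ≤ ℓ →
  ∀ z : ℂ, |z.re - 1 / 2| ≤ R → |z.im - y| ≤ A → ‖iteratedDeriv j X z‖ ≤ M * Real.exp (K' * ℓ)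

/-- **S_PLOG.** As `S_OLOG` (`Pool/Agent/H120/O/OLOG.lean`), from `S_PFLAT`, `S_PFAR`, `S_PCR`.

Proof. *Case 1* (`Re z ≥ 1/2 + a + j`): `S_PFAR`, `K' ≤ δ² ℓ` because `δ ≥ 1/log ℓ` (if `A log log ℓ ≥ 1`) and `K' (log ℓ)² ≤ ℓ` for `ℓ` large. *Case 2*: as there with `S_PFLAT` for `R := a + j + 3`, `δ := δ/2` (so `A` is twice the `A` of `S_PFLAT`); `(δ/2)² ℓ ≤ δ² ℓ`. -/
def S_PLOG : Prop := ∀ (a K : ℝ) (j : ℕ) (R V : ℝ), 0 < a → 3 * (a + j + 4) ≤ R → 2 * R + j + 4 ≤ V →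
  ∃ A ℓ₀ : ℝ, 1 ≤ A ∧ 3 ≤ ℓ₀ ∧ ∀ (X : ℂ → ℂ) (M ℓ y : ℝ), OBL X a K V M ℓ y → ℓ₀ ≤ ℓ →
  ∀ δ : ℝ, A * Real.log (Real.log ℓ) / Real.log ℓ ≤ δ → δ ≤ 1 → ∀ b : ℝ, 0 ≤ b → b ≤ a →
  ZF (iteratedDeriv j X) b R y → ∀ z : ℂ, 1 / 2 + b + δ ≤ z.re → z.re ≤ 1 / 2 + R → |z.im - y| ≤ 1 →
  iteratedDeriv j X z ≠ 0 ∧ ‖logDeriv (iteratedDeriv j X) z - ℓ‖ ≤ δ ^ 2 * ℓ

/-- **S_PFL.** As `S_OFLAT` (`Pool/Agent/H585/O/OFlat.lean`), from `S_PLOG`, `S_PFAR`; the tolerance is `κ δ`.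

Proof. `δ² ≤ κ δ` if `δ ≤ δ₁ ≤ κ`. Sizes: the change of `log |h|` along the segment is `≤ δ² ℓ (a + j) ≤ κ δ ℓ/2` if `δ₁ ≤ κ/(2 (a + j + 1))`, and `K' + j log(2ℓ) ≤ κ δ ℓ/2` for `ℓ` large, because `δ ≥ 1/log ℓ`. -/
def S_PFL : Prop := ∀ (a K : ℝ) (j : ℕ) (R V κ : ℝ), 0 < a → 0 < κ → 3 * (a + j + 4) ≤ R → 2 * R + j + 4 ≤ V →
  ∃ A ℓ₀ δ₁ : ℝ, 1 ≤ A ∧ 3 ≤ ℓ₀ ∧ 0 < δ₁ ∧ δ₁ ≤ 1 ∧ ∀ (X : ℂ → ℂ) (M ℓ y : ℝ), OBL X a K V M ℓ y → ℓ₀ ≤ ℓ →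
  ∀ δ : ℝ, A * Real.log (Real.log ℓ) / Real.log ℓ ≤ δ → δ ≤ δ₁ → ∀ b : ℝ, 0 ≤ b → b ≤ a →
  ZF (iteratedDeriv j X) b R y → FL (iteratedDeriv j X) M ℓ (b + δ) R (κ * δ) y

/-- **S_PINT.** As `S_OINT` (`Pool/Agent/H976/O/OInt.lean`), from `S_PCR`; now `e ≥ κ/log ℓ` may tend to `0` and `B` does not depend on `e`.

Proof. The same: `B = (2 K' + 2)/c`; the requirements on `L = lf y` are now `D log(1 + B L) (R + e + 1) ≤ (e/4) L`, `2D/c ≤ exp(3 e L/4)`, ...: all follow from `e L ≥ κ L/log L` for `L` large. -/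
def S_PINT : Prop := ∀ (a K c D R V κ : ℝ) (j : ℕ), 0 < c → 1 ≤ D → 0 ≤ R → 0 < κ → R + 2 ≤ V → ∃ B ℓ₀ : ℝ, 1 ≤ B ∧ 3 ≤ ℓ₀ ∧
  ∀ (X : ℂ → ℂ) (S σ : ℝ) (Mf lf : ℝ → ℝ) (y₀ : ℝ), FamL X a K V S c D σ Mf lf y₀ → ∀ y : ℝ, -S ≤ σ * (y - y₀) → ℓ₀ ≤ lf y →
  ∀ u e : ℝ, 0 ≤ u → u ≤ R → κ / Real.log (lf y) ≤ e → e ≤ 1 →
  (∀ τ : ℝ, 0 ≤ τ → τ ≤ B * lf y → ‖iteratedDeriv (j + 1) X (pt (y + σ * τ) u 0)‖ ≤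
    Mf (y + σ * τ) * Real.exp (lf (y + σ * τ) * (u + e))) →
  ‖iteratedDeriv j X (pt y u 0)‖ ≤ Mf y * Real.exp (lf y * (u + 2 * e))

/-- **S_PNZ.** As `S_ONZ` (`Pool/Agent/H195/O/ONZ.lean`), with `δ ≥ 1/log ℓ` instead of fixed `δ` (needed: `e^{-ℓδ} ≤ 1/2` and `e^{ℓδ/2} > 4ℓ`). -/
def S_PNZ : Prop := ∃ ℓ₀ : ℝ, 3 ≤ ℓ₀ ∧ ∀ (G : ℂ → ℂ) (M ℓ u δ : ℝ) (z : ℂ), Differentiable ℂ G → 0 < M → ℓ₀ ≤ ℓ →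
  1 / Real.log ℓ ≤ δ → δ ≤ 1 →
  (∀ r : ℝ, 0 ≤ r → r ≤ δ → deriv G (z - r) ≠ 0 ∧ ‖logDeriv (deriv G) (z - r) - ℓ‖ ≤ ℓ / 8) →
  M * Real.exp (ℓ * (u - δ / 4)) ≤ ‖deriv G z‖ → ‖G (z - δ)‖ ≤ M * Real.exp (ℓ * (u - δ + δ / 4)) → G z ≠ 0

/-- **S_PCMP.** As `S_OCMP` (`Pool/Agent/H142/O/OCMP.lean`). -/
def S_PCMP : Prop := ∀ a K D S V : ℝ, 1 ≤ D → 0 ≤ S → a ≤ V → S ≤ V → ∃ E : ℝ, 1 ≤ E ∧ ∀ (X : ℂ → ℂ) (S' c σ : ℝ) (Mf lf : ℝ → ℝ) (y₀ : ℝ),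
  FamL X a K V S' c D σ Mf lf y₀ → ∀ y y' : ℝ, -S' ≤ σ * (y - y₀) → -S' ≤ σ * (y' - y₀) → |y' - y| ≤ S → Mf y' ≤ E * Mf y

/-- **S_PLINE.** As `S_OLINE` (`Pool/Agent/H115/O/OLINE.lean`), from `S_STRIP`, `S_PCMP`; now `e ≥ κ/log ℓ` and `0 < δ ≤ 1` arbitrary. `S = 2 (max 1 a + 1)` as there. -/
def S_PLINE : Prop := ∀ a K κ : ℝ, 0 < κ → ∃ S : ℝ, 0 < S ∧ ∀ D V : ℝ, 1 ≤ D → S + a + 2 ≤ V → ∃ ℓ₀ : ℝ, 3 ≤ ℓ₀ ∧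
  ∀ (X : ℂ → ℂ) (S' c σ : ℝ) (Mf lf : ℝ → ℝ) (y₀ : ℝ), S ≤ S' → FamL X a K V S' c D σ Mf lf y₀ → ℓ₀ ≤ lf y₀ →
  ∀ δ e : ℝ, 0 < δ → δ ≤ 1 → κ / Real.log (lf y₀) ≤ e → e ≤ 1 →
  (∀ y : ℝ, |y - y₀| ≤ S → ‖X (pt y δ 0)‖ ≤ Mf y * Real.exp (lf y * (δ + e))) →
  ‖X (pt y₀ 0 0)‖ ≤ Mf y₀ * Real.exp (lf y₀ * (5 * δ + 2 * e))

end

end Pool.Agent.H477.O
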