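import Pool.Agent.H477.O.Main
import Pool.Agent.H477.O.Stm2

set_option autoImplicit false

/-!
# Project P: assembly of the explicit abstract theorem
-/

open Complex Filter Topology Metric Set MeasureTheory
open scoped ComplexConjugate

namespace Pool.Agent.H477.O

/-- `S_PLINE` with explicit `S` -/
def S_PLINE2 : Prop := ∀ a K κ : ℝ, 0 < κ → ∀ D V : ℝ, 1 ≤ D → 2 * (max 1 a + 1) + a + 2 ≤ V → ∃ ℓ₀ : ℝ, 3 ≤ ℓ₀ ∧
  ∀ (X : ℂ → ℂ) (S' c σ : ℝ) (Mf lf : ℝ → ℝ) (y₀ : ℝ), 2 * (max 1 a + 1) ≤ S' → FamL X a K V S' c D σ Mf lf y₀ → ℓ₀ ≤ lf y₀ →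
  ∀ δ e : ℝ, 0 < δ → δ ≤ 1 → κ / Real.log (lf y₀) ≤ e → e ≤ 1 →
  (∀ y : ℝ, |y - y₀| ≤ 2 * (max 1 a + 1) → ‖X (pt y δ 0)‖ ≤ Mf y * Real.exp (lf y * (δ + e))) →
  ‖X (pt y₀ 0 0)‖ ≤ Mf y₀ * Real.exp (lf y₀ * (5 * δ + 2 * e))

/-- `δ` is not too small -/
def Adm (A L δ : ℝ) : Prop := ∀ ℓ : ℝ, L / 2 ≤ ℓ → ℓ ≤ 2 * L → A * Real.log (Real.log ℓ) / Real.log ℓ ≤ δ ∧ 1 / Real.log ℓ ≤ δ

lemma Adm.mono {A A' L δ : ℝ} (hA : A ≤ A') (hL : 2 * Real.exp (Real.exp 1) ≤ L) (h : Adm A' L δ) : Adm A L δ := by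
  intro ℓ h1 h2
  obtain ⟨g1, g2⟩ := h ℓ h1 h2
  have hℓ : Real.exp (Real.exp 1) ≤ ℓ := by linarith
  have hl : Real.exp 1 ≤ Real.log ℓ := by
    rw [Real.le_log_iff_exp_le (lt_of_lt_of_le (Real.exp_pos _) hℓ)]
    exact hℓ
  have hl0 : 0 < Real.log ℓ := lt_of_lt_of_le (Real.exp_pos _) hl
  have hll : 1 ≤ Real.log (Real.log ℓ) := by
    rw [Real.le_log_iff_exp_le hl0]
    exact hl
  refine ⟨le_trans ?_ g1, g2⟩
  rw [div_le_div_iff_of_pos_right hl0]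
  exact mul_le_mul_of_nonneg_right hA (by linarith)

lemma adm_of (A : ℝ) (hA : 1 ≤ A) : ∃ L₀ : ℝ, 2 * Real.exp (Real.exp 1) ≤ L₀ ∧ ∀ L : ℝ, L₀ ≤ L →
    Adm A L (4 * A * (Real.log (Real.log L) / Real.log L)) := by
  have hlog := Real.tendsto_log_atTop
  have hll : Tendsto (fun L : ℝ => Real.log (Real.log L)) atTop atTop := hlog.comp hlog
  obtain ⟨L₁, hL₁⟩ := eventually_atTop.1 (((hlog.eventually_ge_atTop (2 * Real.log 2)).and (hll.eventually_ge_atTop 1)).and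
    (hlog.eventually_ge_atTop 1))
  refine ⟨max (2 * Real.exp (Real.exp 1)) L₁, le_max_left _ _, fun L hL ℓ h1 h2 => ?_⟩
  obtain ⟨⟨g1, g2⟩, g3⟩ := hL₁ L ((le_max_right _ _).trans hL)
  have hLe : 2 * Real.exp (Real.exp 1) ≤ L := (le_max_left _ _).trans hL
  have hee : 0 < Real.exp (Real.exp 1) := Real.exp_pos _
  have hL0 : 0 < L := by linarith
  have hℓ0 : 0 < ℓ := by linarith
  have hlL : 0 < Real.log L := by linarith
  have k1 : 1 / 2 * Real.log L ≤ Real.log ℓ := by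
    have h3 := Real.log_le_log (by linarith) h1
    rw [Real.log_div hL0.ne' (by norm_num)] at h3
    linarith
  have hlℓ : 0 < Real.log ℓ := by linarith
  have hlog2 : Real.log 2 ≤ 1 := by
    have := Real.log_two_lt_d9
    linarith
  have k2 : Real.log (Real.log ℓ) ≤ 2 * Real.log (Real.log L) := by
    have h3 := Real.log_le_log hℓ0 h2
    rw [Real.log_mul (by norm_num) hL0.ne'] at h3
    have h4 : Real.log ℓ ≤ 2 * Real.log L := by
      have := Real.log_nonneg (by norm_num : (1 : ℝ) ≤ 2)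
      linarith
    have h5 := Real.log_le_log hlℓ h4
    rw [Real.log_mul (by norm_num) hlL.ne'] at h5
    linarith
  constructor
  · rw [div_le_iff₀ hlℓ]
    have e1 : 4 * A * (Real.log (Real.log L) / Real.log L) * Real.log ℓ = A * (2 * Real.log (Real.log L)) * (Real.log ℓ / (1 / 2 * Real.log L)) := by
      field_simp
      ring
    rw [e1]
    have h6 : 1 ≤ Real.log ℓ / (1 / 2 * Real.log L) := by
      rw [one_le_div (by linarith)]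
      exact k1
    calc A * Real.log (Real.log ℓ) ≤ A * (2 * Real.log (Real.log L)) := mul_le_mul_of_nonneg_left k2 (by linarith)
      _ = A * (2 * Real.log (Real.log L)) * 1 := (mul_one _).symm
      _ ≤ _ := mul_le_mul_of_nonneg_left h6 (mul_nonneg (by linarith) (by linarith))
  · rw [div_le_iff₀ hlℓ]
    have h6 : 1 / 2 * Real.log L ≤ Real.log ℓ := k1
    have h7 : (1 : ℝ) ≤ 4 * A * (Real.log (Real.log L) / Real.log L) * (1 / 2 * Real.log L) := by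
      have e1 : 4 * A * (Real.log (Real.log L) / Real.log L) * (1 / 2 * Real.log L) = 2 * A * Real.log (Real.log L) := by
        field_simp
        ring
      rw [e1]
      nlinarith
    refine h7.trans (mul_le_mul_of_nonneg_left h6 ?_)
    have : 0 ≤ Real.log (Real.log L) / Real.log L := div_nonneg (by linarith) hlL.le
    positivity

section

variable {X : ℂ → ℂ} {a K V S c D σ : ℝ} {Mf lf : ℝ → ℝ} {y₀ : ℝ}

lemma FamL.abs (F : FamL X a K V S c D σ Mf lf y₀) (x : ℝ) : |σ * x| = |x| := by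
  rcases F.sg with h | h <;> simp [h]

end

lemma lfcmpL {D Q : ℝ} (hD : 1 ≤ D) (hQ : 0 ≤ Q) : ∃ L₀ : ℝ, 1 ≤ L₀ ∧ ∀ (X : ℂ → ℂ) (a K V S c σ : ℝ) (Mf lf : ℝ → ℝ) (y₀ : ℝ),
    0 ≤ S → FamL X a K V S c D σ Mf lf y₀ → L₀ ≤ lf y₀ → ∀ y : ℝ, -S ≤ σ * (y - y₀) → |y - y₀| ≤ Q + Q * lf y₀ →
    lf y₀ / 2 ≤ lf y ∧ lf y ≤ 2 * lf y₀ := by
  obtain ⟨L₀, hL₀, H⟩ := ev_log_lin (D := D) (Q := Q) (by linarith) hQ
  refine ⟨L₀, hL₀, fun X a K V S c σ Mf lf y₀ hS F hL y hyS hy => ?_⟩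
  have h0 : -S ≤ σ * (y₀ - y₀) := by rw [sub_self, mul_zero]; linarith
  have h1 := F.lip y₀ y h0 hyS
  have h2 := F.lip y y₀ hyS h0
  rw [abs_sub_comm y₀ y] at h2
  have h3 : D * Real.log (1 + |y - y₀|) ≤ lf y₀ / 2 := by
    refine le_trans (mul_le_mul_of_nonneg_left ?_ (by linarith)) (H _ hL)
    exact Real.log_le_log (by positivity) (by linarith)
  constructor <;> linarith

/-- from `X^{(k+1)}` to `X^{(k)}` -/
lemma pstep (hF : S_PFL) (hI : S_PINT) (hN : S_PNZ) {a K c D R V κ : ℝ} (k : ℕ) (hc : 0 < c) (hD : 1 ≤ D) (ha : 1 ≤ a)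
    (hκ : 0 < κ) (hκ8 : κ ≤ 1 / 8) (hR : 3 * (a + (k + 1 : ℕ) + 4) ≤ R) (hV : 2 * R + (k + 1 : ℕ) + 4 ≤ V)
    {S w : ℝ} (hS : 0 ≤ S) (hw : 0 ≤ w) :
    ∃ w' A δ₁ ℓ₀ : ℝ, 0 ≤ w' ∧ 1 ≤ A ∧ 0 < δ₁ ∧ 1 ≤ ℓ₀ ∧ ∀ (X : ℂ → ℂ) (SF σ : ℝ) (Mf lf : ℝ → ℝ) (y₀ b δ e : ℝ), 0 ≤ b → b ≤ a →
      FamL X a K V SF c D σ Mf lf y₀ → S + R ≤ SF → ℓ₀ ≤ lf y₀ → Adm A (lf y₀) δ → 0 < δ → δ ≤ δ₁ → κ * δ ≤ e → 2 * e ≤ δ / 4 →
      Lv X (k + 1) b e δ R Mf lf σ y₀ (S + R) (S + R + w' * lf y₀) →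
      Lv X k (b + 2 * δ) (2 * e) δ R Mf lf σ y₀ S (S + w * lf y₀) := by
  have hk0 : (0 : ℝ) ≤ ((k + 1 : ℕ) : ℝ) := Nat.cast_nonneg _
  have hR0 : 0 ≤ R := by linarith
  obtain ⟨A, L1, δ₁, hA, hL1, hδ₁, hδ₁1, H1⟩ := hF a K (k + 1) R V κ (by linarith) hκ hR hV
  obtain ⟨B, L2, hB, hL2, H2⟩ := hI a K c D R V κ k hc hD hR0 hκ (by linarith)
  obtain ⟨L3, hL3, H3⟩ := hN
  obtain ⟨L4, hL4, H4⟩ := lfcmpL (D := D) (Q := S + R + w) hD (by linarith)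
  refine ⟨w + 2 * B, A, δ₁, max L4 (2 * max L1 (max L2 L3)), by linarith, hA, hδ₁, hL4.trans (le_max_left _ _),
    fun X SF σ Mf lf y₀ b δ e hb hba F hSF hL hadm hδ hδδ hκe he8 P => ?_⟩
  have hδ1 : δ ≤ 1 := hδδ.trans hδ₁1
  have hL4' : L4 ≤ lf y₀ := (le_max_left _ _).trans hL
  have hLm : 2 * max L1 (max L2 L3) ≤ lf y₀ := (le_max_right _ _).trans hL
  have hLpos : 1 ≤ lf y₀ := hL4.trans hL4'
  have hm1 : L1 ≤ max L1 (max L2 L3) := le_max_left _ _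
  have hm2 : L2 ≤ max L1 (max L2 L3) := (le_max_left _ _).trans (le_max_right _ _)
  have hm3 : L3 ≤ max L1 (max L2 L3) := (le_max_right _ _).trans (le_max_right _ _)
  have hκδ : 0 < κ * δ := mul_pos hκ hδ
  have he : 0 < e := by linarith
  -- heights in the enlarged window
  have hwin : ∀ y : ℝ, -(S + R) ≤ σ * (y - y₀) → σ * (y - y₀) ≤ S + w * lf y₀ + R →
      lf y₀ / 2 ≤ lf y ∧ lf y ≤ 2 * lf y₀ := by
    intro y h1 h2
    refine H4 X a K V SF c σ Mf lf y₀ (by linarith) F hL4' y (by linarith) ?_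
    rw [← F.abs, abs_le]
    have g1 := mul_nonneg hw (by linarith : 0 ≤ lf y₀)
    have g2 := mul_nonneg (by linarith : 0 ≤ S + R) (by linarith : 0 ≤ lf y₀)
    have e1 : (S + R + w) * lf y₀ = (S + R) * lf y₀ + w * lf y₀ := by ring
    constructor <;> linarith
  -- upper bounds of `X^{(k)}`
  have UB : ∀ y : ℝ, -(S + R) ≤ σ * (y - y₀) → σ * (y - y₀) ≤ S + w * lf y₀ + R → ∀ u : ℝ, δ ≤ u → u ≤ R →
      ‖iteratedDeriv k X (pt y u 0)‖ ≤ Mf y * Real.exp (lf y * (u + 2 * e)) := by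
    intro y h1 h2 u hu1 hu2
    obtain ⟨g1, g2⟩ := hwin y h1 h2
    have g3 := (hadm (lf y) g1 g2).2
    have hκe' : κ / Real.log (lf y) ≤ e := by
      have h3 := mul_le_mul_of_nonneg_left g3 hκ.le
      rw [mul_one_div] at h3
      linarith
    refine H2 X SF σ Mf lf y₀ F y (by linarith) (by linarith) u e (by linarith) hu2 hκe' (by linarith) fun τ hτ0 hτ1 => ?_
    have hσ : σ * (y + σ * τ - y₀) = σ * (y - y₀) + τ := by
      have : σ * σ = 1 := by rcases F.sg with h | h <;> rw [h] <;> norm_num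
      linear_combination τ * this
    have hτ2 : τ ≤ 2 * B * lf y₀ := by
      have := mul_le_mul_of_nonneg_left g2 (by linarith : 0 ≤ B)
      linarith
    refine P.ub (y + σ * τ) (by rw [hσ]; linarith) (by rw [hσ]; linarith) u hu1 hu2
  refine ⟨fun y h1 h2 z hz1 hz2 hz3 => ?_, fun y h1 h2 u hu1 hu2 => ?_⟩
  · -- zero free
    obtain ⟨u, hu⟩ : ∃ u : ℝ, u = z.re - 1 / 2 := ⟨_, rfl⟩
    obtain ⟨y', hy'⟩ : ∃ y' : ℝ, y' = z.im := ⟨_, rfl⟩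
    have hz : z = pt y' u 0 := by
      have := pt_eq y' z
      rw [this, hu, hy', sub_self]
    have hσy : |σ * (y' - y)| ≤ R := by rw [F.abs, hy']; exact hz3
    obtain ⟨s1, s2⟩ := abs_le.1 hσy
    have hsum : σ * (y' - y₀) = σ * (y - y₀) + σ * (y' - y) := by ring
    have w1 : -(S + R) ≤ σ * (y' - y₀) := by rw [hsum]; linarith
    have w2 : σ * (y' - y₀) ≤ S + w * lf y₀ + R := by rw [hsum]; linarith
    obtain ⟨g1, g2⟩ := hwin y' w1 w2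
    have OBy := F.base y' (by linarith)
    have hBl : 0 ≤ B * lf y₀ := mul_nonneg (by linarith) (by linarith)
    have hZF : ZF (iteratedDeriv (k + 1) X) b R y' := P.zf y' w1 (by linarith)
    have hFL := H1 X (Mf y') (lf y') y' OBy (by linarith) δ (hadm (lf y') g1 g2).1 hδδ b hb hba hZF
    have hu2δ : b + 2 * δ < u := by rw [hu]; linarith
    have huR : u ≤ R := by rw [hu]; linarith
    have hlf1 : 1 ≤ lf y' := by linarith
    have hder : deriv (iteratedDeriv k X) = iteratedDeriv (k + 1) X := by rw [iteratedDeriv_succ]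
    rw [hz]
    refine H3 (iteratedDeriv k X) (Mf y') (lf y') u δ (pt y' u 0) (itd_diff OBy.diff k) OBy.hM (by linarith)
      (hadm (lf y') g1 g2).2 hδ1 (fun r hr0 hr1 => ?_) ?_ ?_
    · rw [hder, pt_sub]
      obtain ⟨f1, f2, _, _⟩ := hFL (pt y' (u - r) 0) (by rw [pt_re]; linarith) (by rw [pt_re]; linarith) (by simp)
      refine ⟨f1, f2.trans ?_⟩
      have h3 : κ * δ ≤ 1 / 8 := by
        have := mul_le_mul hκ8 hδ1 hδ.le (by norm_num)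
        linarith
      have : κ * δ * lf y' ≤ 1 / 8 * lf y' := mul_le_mul_of_nonneg_right h3 (by linarith)
      linarith
    · rw [hder]
      obtain ⟨_, _, f3, _⟩ := hFL (pt y' u 0) (by rw [pt_re]; linarith) (by rw [pt_re]; linarith) (by simp)
      refine le_trans (mul_le_mul_of_nonneg_left (Real.exp_le_exp.2 ?_) OBy.hM.le) f3
      refine mul_le_mul_of_nonneg_left ?_ (by linarith)
      rw [pt_re]
      linarith
    · rw [pt_sub]
      refine (UB y' w1 w2 (u - δ) (by linarith) (by linarith)).trans ?_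
      refine mul_le_mul_of_nonneg_left (Real.exp_le_exp.2 ?_) OBy.hM.le
      refine mul_le_mul_of_nonneg_left ?_ (by linarith)
      linarith
  · exact UB y (by linarith) (by linarith) u hu1 hu2

/-- from `X^{(k)}` to `X` -/
lemma psteps (hF : S_PFL) (hI : S_PINT) (hN : S_PNZ) {a K c D R V κ : ℝ} (hc : 0 < c) (hD : 1 ≤ D) (ha : 1 ≤ a)
    (hκ : 0 < κ) (hκ8 : κ ≤ 1 / 8) (hR0 : 0 ≤ R) (k : ℕ) :
    3 * (a + k + 4) ≤ R → 2 * R + k + 4 ≤ V → ∀ S w : ℝ, 0 ≤ S → 0 ≤ w →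
    ∃ w' A δ₁ ℓ₀ : ℝ, 0 ≤ w' ∧ 1 ≤ A ∧ 0 < δ₁ ∧ 2 * Real.exp (Real.exp 1) ≤ ℓ₀ ∧
      ∀ (X : ℂ → ℂ) (SF σ : ℝ) (Mf lf : ℝ → ℝ) (y₀ b δ e : ℝ), 0 ≤ b → b + 2 * k * δ ≤ a →
      FamL X a K V SF c D σ Mf lf y₀ → S + k * R ≤ SF → ℓ₀ ≤ lf y₀ → Adm A (lf y₀) δ → 0 < δ → δ ≤ δ₁ → κ * δ ≤ e → 2 ^ k * e ≤ δ / 4 →
      Lv X k b e δ R Mf lf σ y₀ (S + k * R) (S + k * R + w' * lf y₀) →
      Lv X 0 (b + 2 * k * δ) (2 ^ k * e) δ R Mf lf σ y₀ S (S + w * lf y₀) := by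
  induction k with
  | zero =>
    intro _ _ S w _ hw
    refine ⟨w, 1, 1, 2 * Real.exp (Real.exp 1), hw, le_rfl, one_pos, le_rfl, fun X SF σ Mf lf y₀ b δ e _ _ _ _ _ _ _ _ _ _ P => ?_⟩
    simpa using P
  | succ k ih =>
    intro hR hV S w hS hw
    push_cast at hR hV
    have hk0 : (0 : ℝ) ≤ k := Nat.cast_nonneg k
    obtain ⟨w₁, A₁, δa, ℓ₁, hw₁, hA₁, hδa, hℓ₁, H⟩ := ih (by linarith) (by linarith) S w hS hw
    have hSk : 0 ≤ S + k * R := by positivity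
    obtain ⟨w₂, A₂, δb, ℓ₂, hw₂, hA₂, hδb, hℓ₂, H2⟩ := pstep hF hI hN (K := K) (a := a) (R := R) (V := V) (κ := κ) k hc hD ha hκ hκ8
      (by push_cast; linarith) (by push_cast; linarith) hSk hw₁
    refine ⟨w₂, max A₁ A₂, min δa δb, max ℓ₁ ℓ₂, hw₂, hA₁.trans (le_max_left _ _), lt_min hδa hδb, hℓ₁.trans (le_max_left _ _),
      fun X SF σ Mf lf y₀ b δ e hb hba F hSF hL hadm hδ hδδ hκe he8 P => ?_⟩
    push_cast at hSF P hba
    have e1 : S + (k + 1) * R = S + k * R + R := by ring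
    rw [e1] at P hSF
    have hLe : 2 * Real.exp (Real.exp 1) ≤ lf y₀ := (hℓ₁.trans (le_max_left _ _)).trans hL
    have hp : (1 : ℝ) ≤ 2 ^ k := one_le_pow₀ (by norm_num)
    have hκδ : 0 < κ * δ := mul_pos hκ hδ
    have hkδ : 0 ≤ (k : ℝ) * δ := by positivity
    have he2 : 2 * e ≤ δ / 4 := by
      rw [pow_succ] at he8
      have := mul_le_mul_of_nonneg_right hp (by linarith : 0 ≤ 2 * e)
      linarith
    have h1 := H2 X SF σ Mf lf y₀ b δ e hb (by linarith) F hSF ((le_max_right _ _).trans hL)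
      (hadm.mono (le_max_right _ _) hLe) hδ (hδδ.trans (min_le_right _ _)) hκe he2 P
    have h2 := H X SF σ Mf lf y₀ (b + 2 * δ) δ (2 * e) (by linarith) (by linarith) F (by linarith) ((le_max_left _ _).trans hL)
      (hadm.mono (le_max_left _ _) hLe) hδ (hδδ.trans (min_le_left _ _)) (by linarith) (by rw [pow_succ] at he8; linarith) h1
    have e2 : b + 2 * ((k + 1 : ℕ) : ℝ) * δ = b + 2 * δ + 2 * k * δ := by push_cast; ring
    have e3 : (2 : ℝ) ^ (k + 1) * e = 2 ^ k * (2 * e) := by rw [pow_succ]; ring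
    rw [e2, e3]
    exact h2

/-- the explicit abstract theorem -/
def S_PMAIN : Prop := ∀ (a : ℝ) (k : ℕ), 1 ≤ a → ∃ S V : ℝ, 0 < S ∧ 2 ≤ V ∧ ∀ K c D : ℝ, 0 < c → 1 ≤ D →
  ∃ B C ℓ₀ : ℝ, 0 < B ∧ 0 < C ∧ 3 ≤ ℓ₀ ∧ ∀ (X : ℂ → ℂ) (σ : ℝ) (Mf lf : ℝ → ℝ) (y₀ : ℝ), FamL X a K V S c D σ Mf lf y₀ → ℓ₀ ≤ lf y₀ →
  (∀ z : ℂ, iteratedDeriv k X z = 0 → |z.im - y₀| ≤ B * lf y₀ → z.re = 1 / 2) →
  ‖X (pt y₀ 0 0)‖ ≤ Mf y₀ * Real.exp (C * (Real.log (Real.log (lf y₀)) / Real.log (lf y₀)) * lf y₀) ∧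
    ∀ z : ℂ, z.im = y₀ → z.re ≤ 1 / 2 + a → X z = 0 → z.re - 1 / 2 < C * (Real.log (Real.log (lf y₀)) / Real.log (lf y₀))

theorem pmain (hF : S_PFL) (hI : S_PINT) (hN : S_PNZ) (hLn : S_PLINE2) : S_PMAIN := by
  intro a k ha
  have hk0 : (0 : ℝ) ≤ k := Nat.cast_nonneg k
  obtain ⟨R, hRd⟩ : ∃ R : ℝ, R = 3 * (a + k + 4) := ⟨_, rfl⟩
  have hR0 : 0 ≤ R := by rw [hRd]; linarith
  obtain ⟨S₀, hS₀d⟩ : ∃ S₀ : ℝ, S₀ = 2 * (max 1 a + 1) := ⟨_, rfl⟩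
  have hS₀ : 0 < S₀ := by
    rw [hS₀d]
    have := le_max_left 1 a
    linarith
  obtain ⟨V, hVd⟩ : ∃ V : ℝ, V = 2 * R + k + 4 + S₀ + a + 2 := ⟨_, rfl⟩
  have hkR : 0 ≤ (k : ℝ) * R := by positivity
  refine ⟨S₀ + k * R, V, by linarith, by linarith, fun K c D hc hD => ?_⟩
  obtain ⟨κ, hκd⟩ : ∃ κ : ℝ, κ = 1 / (8 * 2 ^ k) := ⟨_, rfl⟩
  have h2k : (0 : ℝ) < 2 ^ k := by positivity
  have hp : (1 : ℝ) ≤ 2 ^ k := one_le_pow₀ (by norm_num)
  have hκ : 0 < κ := by rw [hκd]; positivity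
  have hκ2 : 2 ^ k * κ = 1 / 8 := by rw [hκd]; field_simp
  have hκ8 : κ ≤ 1 / 8 := by
    have := mul_le_mul_of_nonneg_right hp hκ.le
    linarith
  obtain ⟨ℓ₁, hℓ₁, HL⟩ := hLn a K (1 / 8) (by norm_num) D V hD (by linarith)
  obtain ⟨w', A₂, δ₂, ℓ₂, hw', hA₂, hδ₂, hℓ₂, HS⟩ := psteps hF hI hN (K := K) (V := V) (κ := κ) hc hD ha hκ hκ8 hR0 k hRd.ge (by linarith) S₀ 0
    hS₀.le le_rfl
  obtain ⟨A₃, ℓ₃, δ₃, hA₃, hℓ₃, hδ₃, hδ₃1, HF⟩ := hF a K k R V κ (by linarith) hκ hRd.ge (by linarith)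
  obtain ⟨ℓ₄, hℓ₄, HC⟩ := lfcmpL (D := D) (Q := S₀ + k * R + w') hD (by positivity)
  obtain ⟨A, hAd⟩ : ∃ A : ℝ, A = max A₂ A₃ := ⟨_, rfl⟩
  have hA : 1 ≤ A := by rw [hAd]; exact hA₂.trans (le_max_left _ _)
  obtain ⟨ℓ₅, hℓ₅, HA⟩ := adm_of A hA
  obtain ⟨δm, hδmd⟩ : ∃ δm : ℝ, δm = min (min δ₂ δ₃) (min (1 / 2) (1 / (2 * (k + 1)))) := ⟨_, rfl⟩
  have hδm : 0 < δm := by rw [hδmd]; positivity
  -- `δ` is small
  have hω : Tendsto (fun L : ℝ => 4 * A * (Real.log (Real.log L) / Real.log L)) atTop (𝓝 0) := by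
    have h1 : Tendsto (fun x : ℝ => Real.log x / x) atTop (𝓝 0) := by
      have := Real.isLittleO_log_id_atTop.tendsto_div_nhds_zero
      simpa using this
    have h2 := (h1.comp Real.tendsto_log_atTop).const_mul (4 * A)
    rw [mul_zero] at h2
    exact h2
  obtain ⟨ℓ₆, hℓ₆⟩ := eventually_atTop.1 (hω.eventually (ge_mem_nhds hδm))
  refine ⟨S₀ + k * R + w' + R, 4 * A * (6 + 2 * k + 1), max (max ℓ₁ ℓ₂) (max (max (2 * ℓ₃) ℓ₄) (max ℓ₅ ℓ₆)), by positivity, by positivity,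
    hℓ₁.trans ((le_max_left _ _).trans (le_max_left _ _)), fun X σ Mf lf y₀ F hL hZ => ?_⟩
  have hL1 : ℓ₁ ≤ lf y₀ := ((le_max_left _ _).trans (le_max_left _ _)).trans hL
  have hL2 : ℓ₂ ≤ lf y₀ := ((le_max_right _ _).trans (le_max_left _ _)).trans hL
  have hL34 : max (2 * ℓ₃) ℓ₄ ≤ lf y₀ := ((le_max_left _ _).trans (le_max_right _ _)).trans hL
  have hL56 : max ℓ₅ ℓ₆ ≤ lf y₀ := ((le_max_right _ _).trans (le_max_right _ _)).trans hL
  have hL3 : 2 * ℓ₃ ≤ lf y₀ := (le_max_left _ _).trans hL34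
  have hL4 : ℓ₄ ≤ lf y₀ := (le_max_right _ _).trans hL34
  have hL5 : ℓ₅ ≤ lf y₀ := (le_max_left _ _).trans hL56
  have hL6 : ℓ₆ ≤ lf y₀ := (le_max_right _ _).trans hL56
  have hLp : 1 ≤ lf y₀ := by linarith
  have hLe : 2 * Real.exp (Real.exp 1) ≤ lf y₀ := hℓ₅.trans hL5
  have hSk : 0 ≤ S₀ + k * R := by positivity
  obtain ⟨δ, hδd⟩ : ∃ δ : ℝ, δ = 4 * A * (Real.log (Real.log (lf y₀)) / Real.log (lf y₀)) := ⟨_, rfl⟩
  have hadm : Adm A (lf y₀) δ := by rw [hδd]; exact HA _ hL5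
  have hadm0 := hadm (lf y₀) (by linarith) (by linarith)
  have hlog0 : 0 < Real.log (lf y₀) := Real.log_pos (by
    have := Real.add_one_le_exp (1 : ℝ)
    have := Real.add_one_le_exp (Real.exp 1)
    linarith)
  have hδ : 0 < δ := lt_of_lt_of_le (by positivity) hadm0.2
  have hδm' : δ ≤ δm := by rw [hδd]; exact hℓ₆ _ hL6
  have hδ2' : δ ≤ δ₂ := hδm'.trans (by rw [hδmd]; exact (min_le_left _ _).trans (min_le_left _ _))
  have hδ3' : δ ≤ δ₃ := hδm'.trans (by rw [hδmd]; exact (min_le_left _ _).trans (min_le_right _ _))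
  have hδh : δ ≤ 1 / 2 := hδm'.trans (by rw [hδmd]; exact (min_le_right _ _).trans (min_le_left _ _))
  have hδk : δ ≤ 1 / (2 * (k + 1)) := hδm'.trans (by rw [hδmd]; exact (min_le_right _ _).trans (min_le_right _ _))
  have hkδ0 : 0 ≤ (k : ℝ) * δ := by positivity
  have hkδ : 2 * (k : ℝ) * δ ≤ 1 := by
    rw [le_div_iff₀ (by positivity)] at hδk
    linarith
  have hA2 : Adm A₂ (lf y₀) δ := hadm.mono (by rw [hAd]; exact le_max_left _ _) hLe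
  have hA3 : Adm A₃ (lf y₀) δ := hadm.mono (by rw [hAd]; exact le_max_right _ _) hLe
  have he8 : 2 ^ k * (κ * δ) = δ / 8 := by rw [← mul_assoc, hκ2]; ring
  -- heights in the window
  have hwin : ∀ y : ℝ, -(S₀ + k * R) ≤ σ * (y - y₀) → σ * (y - y₀) ≤ S₀ + k * R + w' * lf y₀ →
      |y - y₀| ≤ S₀ + k * R + w' * lf y₀ := by
    intro y h1 h2
    rw [← F.abs, abs_le]
    have := mul_nonneg hw' (by linarith : 0 ≤ lf y₀)
    constructor <;> linarith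
  have hzf : ∀ y : ℝ, -(S₀ + k * R) ≤ σ * (y - y₀) → σ * (y - y₀) ≤ S₀ + k * R + w' * lf y₀ → ZF (iteratedDeriv k X) 0 R y := by
    intro y h1 h2 z hz1 hz2 hz3 h0
    have h3 := hwin y h1 h2
    have h4 : |z.im - y₀| ≤ (S₀ + k * R + w' + R) * lf y₀ := by
      have h5 := abs_add_le (z.im - y) (y - y₀)
      rw [sub_add_sub_cancel] at h5
      have g1 : (S₀ + k * R) * 1 ≤ (S₀ + k * R) * lf y₀ := mul_le_mul_of_nonneg_left hLp hSk
      have g2 : R * 1 ≤ R * lf y₀ := mul_le_mul_of_nonneg_left hLp hR0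
      have e1 : (S₀ + k * R + w' + R) * lf y₀ = (S₀ + k * R) * lf y₀ + w' * lf y₀ + R * lf y₀ := by ring
      rw [e1]
      linarith
    have := hZ z h0 h4
    linarith
  have P : Lv X k 0 (κ * δ) δ R Mf lf σ y₀ (S₀ + k * R) (S₀ + k * R + w' * lf y₀) := by
    refine ⟨hzf, fun y h1 h2 u hu1 hu2 => ?_⟩
    have h3 := hwin y h1 h2
    have g1 : |y - y₀| ≤ (S₀ + k * R + w') + (S₀ + k * R + w') * lf y₀ := by
      have g2 := mul_nonneg hSk (by linarith : 0 ≤ lf y₀)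
      have e1 : (S₀ + k * R + w') * lf y₀ = (S₀ + k * R) * lf y₀ + w' * lf y₀ := by ring
      rw [e1]
      linarith
    obtain ⟨g3, g4⟩ := HC X a K V _ c σ Mf lf y₀ hSk F hL4 y h1 g1
    obtain ⟨_, _, _, g5⟩ := HF X (Mf y) (lf y) y (F.base y h1) (by linarith) δ (hA3 (lf y) g3 g4).1 hδ3' 0 le_rfl (by linarith) (hzf y h1 h2) (pt y u 0)
      (by rw [pt_re]; linarith) (by rw [pt_re]; linarith) (by simp)
    rw [pt_re] at g5
    have e1 : (1 : ℝ) / 2 + u - 1 / 2 + κ * δ = u + κ * δ := by ring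
    rw [e1] at g5
    exact g5
  have Q := HS X _ σ Mf lf y₀ 0 δ (κ * δ) le_rfl (by linarith) F le_rfl hL2 hA2 hδ hδ2' le_rfl (by linarith) P
  rw [zero_mul, add_zero, he8, zero_add] at Q
  have OB0 := F.base y₀ (by rw [sub_self, mul_zero]; linarith)
  have hCδ : 4 * A * (6 + 2 * k + 1) * (Real.log (Real.log (lf y₀)) / Real.log (lf y₀)) = (7 + 2 * k) * δ := by
    rw [hδd]; ring
  constructor
  · have h1 := HL X _ c σ Mf lf y₀ (by linarith) F hL1 δ (δ / 8) hδ (by linarith) (by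
      have := hadm0.2
      have e1 : (1 : ℝ) / 8 / Real.log (lf y₀) = 1 / 8 * (1 / Real.log (lf y₀)) := by ring
      rw [e1]
      linarith) (by linarith) fun y hy => ?_
    · refine h1.trans (mul_le_mul_of_nonneg_left (Real.exp_le_exp.2 ?_) OB0.hM.le)
      rw [hCδ, mul_comm ((7 + 2 * (k : ℝ)) * δ)]
      exact mul_le_mul_of_nonneg_left (by linarith) (by linarith)
    · have hy' : |σ * (y - y₀)| ≤ S₀ := by rw [F.abs, hS₀d]; exact hy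
      obtain ⟨s1, s2⟩ := abs_le.1 hy'
      have := Q.ub y s1 s2 δ le_rfl (by rw [hRd]; linarith)
      rwa [iteratedDeriv_zero] at this
  · -- zeros
    rw [hCδ]
    intro z hz hza h0
    by_contra hcon
    push Not at hcon
    have hzR : z.re ≤ 1 / 2 + R := by rw [hRd]; linarith
    have h1 := Q.zf y₀ (by simp; linarith) (by simp; linarith) z (by linarith) hzR (by rw [hz, sub_self, abs_zero]; exact hR0)
    rw [iteratedDeriv_zero] at h1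
    exact h1 h0

end Pool.Agent.H477.O
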