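import Pool.Agent.H477.O.Line2
import Pool.Agent.H976.P.PFlat
import Pool.Agent.H372.P.PFar
import Pool.Agent.H271.P.Pcr
import Pool.Agent.H397.P.PLOG
import Pool.Agent.H643.P.PFL
import Pool.Agent.H981.P.PInt
import Pool.Agent.H190.P.PNZ
import Pool.Agent.H385.P.PCMP
import Pool.Agent.H487.NZ.Cont

set_option autoImplicit false

/-!
# Project P: the explicit abstract theorem without hypotheses
-/

open Complex Filter Topology Metric Set MeasureTheory
open scoped ComplexConjugate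

namespace Pool.Agent.H477.O.R

theorem strip : S_STRIP := fun _ hF _ _ _ _ _ _ _ h1 h2 h3 h4 h5 h6 h7 h8 _ _ h9 h10 =>
  Pool.Agent.H487.NZ.strip_max hF h1 h2 h3 h4 h5 h6 h7 h8 h9 h10

theorem pfl : S_PFL := Pool.Agent.H643.P.t_PFL
  (Pool.Agent.H397.PLOG.plog Pool.Agent.H976.P.pflat Pool.Agent.H372.P.PFar.t_pfar Pool.Agent.H271.P.pcr_proof)
  Pool.Agent.H372.P.PFar.t_pfar

theorem main : S_PMAIN := pmain pfl (Pool.Agent.H981.P.pint Pool.Agent.H271.P.pcr_proof) Pool.Agent.H190.P.PNZ_proof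
  (Line2.pline2 strip PCMP_proof)

end Pool.Agent.H477.O.R
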