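import Pool.Agent.H477.O.Main3
import Pool.Agent.H477.O.Rmain
import Pool.Agent.H799.Q.QTC
import Pool.Agent.H4.Q.QLan
import Pool.Agent.H370.Q.QRE
import Pool.Agent.H118.Q.QLog
import Pool.Agent.H772.Q.QCM
import Pool.Agent.H939.Q.QFL

set_option autoImplicit false

/-!
# Project Q: the abstract theorem with the optimal rate, without hypotheses
-/

namespace Pool.Agent.H477.O.Q

theorem q_fl : S_QFL := Pool.Agent.H939.Q.t_QFL
  (Pool.Agent.H118.QLog.qlog Pool.Agent.H799.Q.QTC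
    (Pool.Agent.H370.QRE.qre Pool.Agent.H4.Q.qlan Pool.Agent.H372.P.PFar.t_pfar Pool.Agent.H271.P.pcr_proof)
    Pool.Agent.H372.P.PFar.t_pfar) Pool.Agent.H372.P.PFar.t_pfar

theorem q_main : S_QMAIN := pmain q_fl (Pool.Agent.H981.P.pint Pool.Agent.H271.P.pcr_proof) Pool.Agent.H190.P.PNZ_proof
  (Line2.pline2 R.strip PCMP_proof)

theorem q_cm : S_QCM := Pool.Agent.H772.Q.qcm

end Pool.Agent.H477.O.Q
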